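import Pool.Agent.Helper64.NC.Glue

/-! NC: Smith's theorem (as an instance of the parity theorem), and its consequence for maps with
exactly three Hamilton circuits. -/

set_option linter.unusedSectionVars false

namespace Pool.H64.NC

open Function

/-- the functional for Smith's theorem -/
def cSm (o : Fin 3 → Option (Fin 3)) : ZMod 2 := if o 0 = none ∧ o 1 = some 1 then 1 else 0

theorem cSm_tri : ∀ i j k : Fin 3, i ≠ j → j ≠ k → i ≠ k → ∀ t : Fin 3 → Fin 3,
    cSm (tri t i j k) = 0 := by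
  intro i j k h1 h2 h3 t
  unfold cSm tri
  rw [if_neg]
  rintro ⟨ha, hb⟩
  fin_cases i <;> fin_cases j <;> fin_cases k <;> simp_all

theorem cSm_opn : ∀ t : Fin 3 → Fin 3, (∀ i, t (t i) = i) → (∃ i, t i ≠ i) →
    ∑ x, cSm (opn t x) = if t 0 = 0 then 0 else 1 := by
  decide

theorem transp3 : ∀ t : Fin 3 → Fin 3, (∀ i, t (t i) = i) → (∃ i, t i ≠ i) →
    (t 0 = 0 ∧ t 1 ≠ 1 ∧ t 2 ≠ 2) ∨ (t 0 ≠ 0 ∧ t 1 = 1 ∧ t 2 ≠ 2) ∨
      (t 0 ≠ 0 ∧ t 1 ≠ 1 ∧ t 2 = 2) := by
  decide

theorem transp3' : ∀ t : Fin 3 → Fin 3, (∀ i, t (t i) = i) →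
    ∀ i j, t i ≠ i → t j ≠ j → j = i ∨ j = t i := by
  decide

namespace CubicMap
variable {D : Type*} [DecidableEq D] (M : CubicMap D)

/-- the patch consisting of the vertex of `d` -/
def vpatch (d : D) : M.Patch 3 where
  P := {d, M.σ d, M.σ (M.σ d)}
  m := ![d, M.σ d, M.σ (M.σ d)]
  mP := by intro i; fin_cases i <;> simp
  inj := by
    have h1 := M.σ1 d
    have h2 := M.σσ1 d
    have h3 := M.σσ2 d
    intro i j h
    fin_cases i <;> fin_cases j <;> simp_all [eq_comm]
  σP := by
    intro x hx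
    simp only [Finset.mem_insert, Finset.mem_singleton] at hx ⊢
    rcases hx with rfl | rfl | rfl
    · simp
    · simp
    · simp [M.σ3]
  αP := by
    intro x hx h
    exfalso
    simp only [Finset.mem_insert, Finset.mem_singleton] at hx
    rcases hx with rfl | rfl | rfl
    · exact h 0 rfl
    · exact h 1 rfl
    · exact h 2 rfl

theorem vpatch_X (d x : D) : (M.vpatch d).X x := by
  by_contra h
  rw [Patch.notX] at h
  obtain ⟨h1, h2⟩ := h
  simp only [vpatch, Finset.mem_insert, Finset.mem_singleton] at h1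
  rcases h1 with rfl | rfl | rfl
  · exact h2 0 rfl
  · exact h2 1 rfl
  · exact h2 2 rfl

theorem vpatch_out (d : D) : ∃ y, y ∉ (M.vpatch d).P := by
  by_contra hcon
  push Not at hcon
  have h : ∀ y, y = d ∨ y = M.σ d ∨ y = M.σ (M.σ d) := by
    intro y
    have := hcon y
    simpa only [vpatch, Finset.mem_insert, Finset.mem_singleton] using this
  have n1 := M.σ1 d
  have n2 := M.σσ1 d
  have n3 := M.σσ2 d
  have a1 := M.α1 d
  have a2 := M.α1 (M.σ d)
  have a3 := M.α1 (M.σ (M.σ d))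
  have b1 := M.α2 d
  have b2 := M.α2 (M.σ d)
  have b3 := M.α2 (M.σ (M.σ d))
  rcases h (M.α d) with e | e | e
  · exact a1 e
  · have f : M.α (M.σ d) = d := by rw [← e]; exact b1
    rcases h (M.α (M.σ (M.σ d))) with e' | e' | e'
    · rw [e', e] at b3; exact n3 b3.symm
    · rw [e', f] at b3; exact n2 b3.symm
    · exact a3 e'
  · have f : M.α (M.σ (M.σ d)) = d := by rw [← e]; exact b1
    rcases h (M.α (M.σ d)) with e' | e' | e'
    · rw [e', e] at b2; exact n3 b2
    · exact a2 e'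
    · rw [e', f] at b2; exact n1 b2.symm

variable {M}

theorem vpatch_trace [Finite D] {d : D} {U : Finset D} (hU : (M.vpatch d).ext.Closed U)
    (hc : (M.vpatch d).ext.Cov U) :
    (∀ i, (M.vpatch d).ext.trace U ((M.vpatch d).ext.trace U i) = i) ∧
    (∃ i, (M.vpatch d).ext.trace U i ≠ i) ∧
    (∀ i, (M.vpatch d).m i ∈ U ↔ (M.vpatch d).ext.trace U i = i) := by
  refine ⟨Pole.trace_trace hU, ?_, ?_⟩
  · obtain ⟨y, hy⟩ := M.vpatch_out d
    -- a used dart at the vertex of y
    have hv := hU.1 y ((M.vpatch d).ext_σ_ne.2 hy)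
    obtain ⟨z, hz, hzU⟩ : ∃ z, z ∉ (M.vpatch d).P ∧ z ∉ U := by
      by_cases h : y ∈ U
      · refine ⟨M.σ y, fun h' => hy ((M.vpatch d).σP'.1 h'), ?_⟩
        rw [(M.vpatch d).ext_σ_out hy] at hv
        unfold One3 at hv; tauto
      · exact ⟨y, hy, h⟩
    obtain ⟨i, hi⟩ := hc z ((M.vpatch d).ext_σ_ne.2 hz) hzU
    have hiU : (M.vpatch d).ext.m i ∉ U := by
      intro h
      have := Pole.R_iso' h hi
      rw [this] at hz
      exact hz ((M.vpatch d).mP i)
    exact ⟨i, (Pole.trace_used hU hiU).1⟩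
  · intro i
    constructor
    · intro h; exact Pole.trace_mem (p := (M.vpatch d).ext) h
    · intro h
      by_contra h'
      exact (Pole.trace_used (p := (M.vpatch d).ext) hU h').1 h

theorem vpatch_ham [Finite D] {d : D} {U : Finset D} :
    M.Ham U ↔ (M.vpatch d).ext.Closed U ∧ (M.vpatch d).ext.Cov U := by
  have hY := M.vpatch_out d
  have hP : ∃ y, y ∈ (M.vpatch d).P := ⟨_, (M.vpatch d).mP 0⟩
  have hout : (M.vpatch d).outer U = U := by
    ext x; rw [Patch.mem_outer]; exact and_iff_left (M.vpatch_X d x)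
  have hglue : (M.vpatch d).glue U ((M.vpatch d).inner U) = U := by
    have := (M.vpatch d).glue_self U
    rwa [hout] at this
  have hag : ∀ i, (M.vpatch d).m i ∈ U ↔ (M.vpatch d).m i ∈ (M.vpatch d).inner U := by
    intro i; rw [Patch.mem_inner]; exact (and_iff_left ((M.vpatch d).mP i)).symm
  constructor
  · intro h
    have hcl : (M.vpatch d).ext.Closed U := by
      have := (M.vpatch d).outer_closed h.1
      rwa [hout] at this
    have hin := (M.vpatch d).inner_inner h.1
    have := ((M.vpatch d).glue_ham hY hP hcl hin hag).1 (by rw [hglue]; exact h)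
    exact ⟨hcl, this.1⟩
  · rintro ⟨hcl, hcov⟩
    obtain ⟨t1, t2, t3⟩ := vpatch_trace hcl hcov
    have hone := transp3 _ t1 t2
    have hone' : One3 (d ∈ U) (M.σ d ∈ U) (M.σ (M.σ d) ∈ U) := by
      have e0 := t3 0
      have e1 := t3 1
      have e2 := t3 2
      change d ∈ U ↔ _ at e0
      change M.σ d ∈ U ↔ _ at e1
      change M.σ (M.σ d) ∈ U ↔ _ at e2
      unfold One3
      rw [e0, e1, e2]
      tauto
    have hin : (M.vpatch d).Inner ((M.vpatch d).inner U) := by
      refine ⟨fun x hx => ((M.vpatch d).mem_inner.1 hx).2, ?_, ?_⟩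
      · intro x hx
        rw [One3.congr ((M.vpatch d).mem_inner.trans (and_iff_left hx))
          ((M.vpatch d).mem_inner.trans (and_iff_left ((M.vpatch d).σP'.2 hx)))
          ((M.vpatch d).mem_inner.trans (and_iff_left ((M.vpatch d).σσP.2 hx)))]
        simp only [vpatch, Finset.mem_insert, Finset.mem_singleton] at hx
        rcases hx with rfl | rfl | rfl
        · exact hone'
        · rw [M.σ3]; unfold One3 at hone' ⊢; tauto
        · rw [M.σ3]; unfold One3 at hone' ⊢; tauto
      · intro x hx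
        exact absurd (M.vpatch_X d x) hx
    have := ((M.vpatch d).glue_ham hY hP hcl hin hag).2 ⟨hcov, ?_, ?_⟩
    · rwa [hglue] at this
    · intro x hx _
      have := M.vpatch_X d x
      obtain ⟨i, hi⟩ := this.resolve_left (fun h => h hx)
      exact ⟨i, by rw [hi]; exact Conn.refl _⟩
    · intro i j hi hj
      have hi' : (M.vpatch d).ext.trace U i ≠ i := fun h => hi ((hag i).1 ((t3 i).2 h))
      have hj' : (M.vpatch d).ext.trace U j ≠ j := fun h => hj ((hag j).1 ((t3 j).2 h))
      rcases transp3' _ t1 i j hi' hj' with h | h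
      · rw [h]; exact Conn.refl _
      · rw [h]; exact Conn.ms _

open Classical in
/-- **Smith's theorem**: the number of Hamilton circuits through an edge is even. -/
theorem smith [Fintype D] (d : D) : Even (Finset.univ.filter (fun U => M.Ham U ∧ d ∉ U)).card := by
  have hpar := Pole.parity (M.vpatch d).ext cSm (by
    intro W u i j k h
    rw [cSm_tri i j k h.ij h.jk h.ik, cSm_tri j k i h.jk h.ik.symm h.ij.symm,
      cSm_tri k i j h.ik.symm h.ij h.jk.symm]
    rfl)
  have h1 : ∀ Z ∈ Finset.univ.filter (fun Z => (M.vpatch d).ext.Closed Z ∧ (M.vpatch d).ext.Cov Z),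
      ∑ x, cSm (opn ((M.vpatch d).ext.trace Z) x) = if d ∉ Z then 1 else 0 := by
    intro Z hZ
    obtain ⟨hcl, hcov⟩ := (Finset.mem_filter.1 hZ).2
    obtain ⟨t1, t2, t3⟩ := vpatch_trace hcl hcov
    rw [cSm_opn _ t1 t2]
    have e0 := t3 0
    change d ∈ Z ↔ _ at e0
    by_cases h : (M.vpatch d).ext.trace Z 0 = 0
    · rw [if_pos h, if_neg (by rw [not_not]; exact e0.2 h)]
    · rw [if_neg h, if_pos (fun h' => h (e0.1 h'))]
  rw [Finset.sum_congr rfl h1] at hpar
  rw [← Finset.sum_filter, Finset.sum_const, nsmul_eq_mul, mul_one] at hpar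
  have h2 : (Finset.univ.filter (fun Z => (M.vpatch d).ext.Closed Z ∧
      (M.vpatch d).ext.Cov Z)).filter (fun Z => d ∉ Z) =
      Finset.univ.filter (fun U => M.Ham U ∧ d ∉ U) := by
    ext U
    simp only [Finset.mem_filter, Finset.mem_univ, true_and]
    rw [vpatch_ham (d := d)]
  rw [h2] at hpar
  exact (ZMod.natCast_eq_zero_iff_even).1 hpar

theorem three_bool : ∀ p1 p2 p3 q1 q2 q3 r1 r2 r3 : Bool,
    ((p1 && !q1 && !r1) || (!p1 && q1 && !r1) || (!p1 && !q1 && r1)) = true →
    ((p2 && !q2 && !r2) || (!p2 && q2 && !r2) || (!p2 && !q2 && r2)) = true →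
    ((p3 && !q3 && !r3) || (!p3 && q3 && !r3) || (!p3 && !q3 && r3)) = true →
    (p1 ^^ (p2 ^^ p3)) = true → (q1 ^^ (q2 ^^ q3)) = true → (r1 ^^ (r2 ^^ r3)) = true →
    ((p1 && !p2 && !p3) || (!p1 && p2 && !p3) || (!p1 && !p2 && p3)) = true := by
  decide

open Classical in
/-- exactly three Hamilton circuits: every edge is missed by exactly one of them -/
theorem three_one [Fintype D] {U1 U2 U3 : Finset D} (h1 : M.Ham U1) (h2 : M.Ham U2)
    (h3 : M.Ham U3) (h12 : U1 ≠ U2) (h13 : U1 ≠ U3) (h23 : U2 ≠ U3)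
    (hall : ∀ U, M.Ham U → U = U1 ∨ U = U2 ∨ U = U3) (d : D) :
    One3 (d ∈ U1) (d ∈ U2) (d ∈ U3) := by
  have hcard : ∀ d : D, (Finset.univ.filter (fun U => M.Ham U ∧ d ∉ U)).card =
      (if d ∉ U1 then 1 else 0) + (if d ∉ U2 then 1 else 0) + (if d ∉ U3 then 1 else 0) := by
    intro d
    have : Finset.univ.filter (fun U => M.Ham U ∧ d ∉ U) =
        ({U1, U2, U3} : Finset (Finset D)).filter (fun U => d ∉ U) := by
      ext U
      simp only [Finset.mem_filter, Finset.mem_univ, true_and, Finset.mem_insert,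
        Finset.mem_singleton]
      constructor
      · rintro ⟨h, h'⟩; exact ⟨hall U h, h'⟩
      · rintro ⟨h, h'⟩
        refine ⟨?_, h'⟩
        rcases h with rfl | rfl | rfl
        · exact h1
        · exact h2
        · exact h3
    rw [this, Finset.card_filter, Finset.sum_insert, Finset.sum_insert, Finset.sum_singleton,
      add_assoc]
    · simpa using h23
    · simp [h12, h13]
  have hodd : ∀ d : D, (decide (d ∈ U1) ^^ (decide (d ∈ U2) ^^ decide (d ∈ U3))) = true := by
    intro d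
    have := smith (M := M) d
    rw [hcard] at this
    by_cases a : d ∈ U1 <;> by_cases b : d ∈ U2 <;> by_cases c : d ∈ U3 <;>
      simp [a, b, c, Nat.even_add_one] at this ⊢
  have hone : ∀ U, M.Ham U →
      ((decide (d ∈ U) && !decide (M.σ d ∈ U) && !decide (M.σ (M.σ d) ∈ U)) ||
        (!decide (d ∈ U) && decide (M.σ d ∈ U) && !decide (M.σ (M.σ d) ∈ U)) ||
        (!decide (d ∈ U) && !decide (M.σ d ∈ U) && decide (M.σ (M.σ d) ∈ U))) = true := by
    intro U hU
    have := hU.1.2 d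
    unfold One3 at this
    by_cases a : d ∈ U <;> by_cases b : M.σ d ∈ U <;> by_cases c : M.σ (M.σ d) ∈ U <;>
      simp [a, b, c] at this ⊢
  have := three_bool _ _ _ _ _ _ _ _ _ (hone U1 h1) (hone U2 h2) (hone U3 h3) (hodd d)
    (hodd (M.σ d)) (hodd (M.σ (M.σ d)))
  unfold One3
  by_cases a : d ∈ U1 <;> by_cases b : d ∈ U2 <;> by_cases c : d ∈ U3 <;>
      simp [a, b, c] at this ⊢

end CubicMap
end Pool.H64.NC
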