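import Pool.Agent.Helper64.NC.NoThree

/-! NC: noncrossing of traces and tripods from the side property. -/

set_option linter.unusedSectionVars false

namespace Pool.H64.NC

open Function

namespace CubicMap
variable {D : Type*} [DecidableEq D] {M : CubicMap D}

namespace Patch
variable {K : ℕ} (T : M.Patch K)

open Classical in
/-- the planarity property of a patch: a mod-2 chain of the exterior whose ends are the legs
`a < b` separates the legs `a ≤ l < b` from the others -/
def Sided : Prop := ∀ a b : Fin K, a < b → ∀ e : D → ZMod 2,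
  (∀ y, e (M.α y) = e y) → (∀ y, ¬ T.X y → e y = 0) →
  (∀ y, y ∉ T.P → e y + e (M.σ y) + e (M.σ (M.σ y)) = 0) →
  (∀ l, e (T.m l) = if l = a ∨ l = b then 1 else 0) →
  ∃ g : D → ZMod 2, (∀ y, T.X y → g (M.α y) = g y + e y) ∧
      (∀ y, y ∉ T.P → g (M.σ y) = g y + e y) ∧
      ∃ γ, ∀ l, g (T.m l) = γ + (if a ≤ l ∧ l < b then 1 else 0)

variable {T}

theorem g_const {Z : Finset D} {g e : D → ZMod 2}
    (g1 : ∀ y, T.X y → g (M.α y) = g y + e y) (g2 : ∀ y, y ∉ T.P → g (M.σ y) = g y + e y)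
    {x : D} (hv : ∀ y, T.ext.R Z x y → (y ∉ T.P → e y = 0 ∧ e (M.σ y) = 0) ∧
      (T.X y → e y = 0)) {z : D} (hz : T.ext.R Z x z) : g z = g x := by
  have key : T.ext.R Z x z ∧ g z = g x := by
    refine inv_of (T.ext.sw_inv Z) (T.ext.ae_inv Z) (fun y => T.ext.R Z x y ∧ g y = g x) ?_ ?_ hz
      ⟨Conn.refl _, rfl⟩
    · rintro y ⟨h1, h2⟩
      refine ⟨h1.trans (Conn.ms _), ?_⟩
      by_cases hy : y ∈ T.P
      · rw [Pole.sw_leg (T.ext_σ_in hy)]; exact h2
      · obtain ⟨e0, e1⟩ := (hv y h1).1 hy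
        have hy1 : M.σ y ∉ T.P := fun h' => hy (T.σP'.1 h')
        have s1 : g (M.σ y) = g y := by rw [g2 y hy, e0, add_zero]
        have s2 : g (M.σ (M.σ y)) = g y := by rw [g2 _ hy1, e1, add_zero, s1]
        have : sw T.ext.σ Z y = y ∨ sw T.ext.σ Z y = M.σ y ∨ sw T.ext.σ Z y = M.σ (M.σ y) := by
          unfold sw
          rw [T.ext_σ_out hy, T.ext_σ_out hy1]
          split_ifs <;> tauto
        rcases this with h | h | h <;> rw [h]
        · exact h2
        · rw [s1]; exact h2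
        · rw [s2]; exact h2
    · rintro y ⟨h1, h2⟩
      refine ⟨h1.trans (Conn.ma _), ?_⟩
      by_cases hX : T.X y
      · have : ae T.ext.a Z y = y ∨ ae T.ext.a Z y = M.α y := by
          unfold ae
          rw [T.ext_a_out hX]
          split_ifs <;> tauto
        rcases this with h | h <;> rw [h]
        · exact h2
        · rw [g1 y hX, (hv y h1).2 hX, add_zero]; exact h2
      · rw [T.ext_ae_in hX]; exact h2
  exact key.2

theorem side_iff {a b k l : Fin K} {g : D → ZMod 2} {γ : ZMod 2}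
    (hg : ∀ l, g (T.m l) = γ + (if a ≤ l ∧ l < b then 1 else 0)) (h : g (T.m l) = g (T.m k)) :
    (a ≤ k ∧ k < b) ↔ (a ≤ l ∧ l < b) := by
  rw [hg, hg] at h
  have h' := add_left_cancel h
  by_cases h1 : a ≤ k ∧ k < b <;> by_cases h2 : a ≤ l ∧ l < b
  · exact iff_of_true h1 h2
  · rw [if_pos h1, if_neg h2] at h'; exact absurd h' (by decide)
  · rw [if_neg h1, if_pos h2] at h'; exact absurd h' (by decide)
  · exact iff_of_false h1 h2

open Classical in
/-- indicator of the class of `x` -/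
noncomputable def ind (T : M.Patch K) (Z : Finset D) (x y : D) : ZMod 2 :=
  if T.ext.R Z x y then 1 else 0

theorem ind_one {Z : Finset D} {x y : D} (h : T.ext.R Z x y) : T.ind Z x y = 1 := if_pos h
theorem ind_zero {Z : Finset D} {x y : D} (h : ¬ T.ext.R Z x y) : T.ind Z x y = 0 := if_neg h

section
variable {Z : Finset D} (hi : T.ext.Inv Z) {x : D} (hx : x ∉ Z) (hxX : T.X x)
include hi hx

/-- everything connected to a used dart is used -/
theorem used_of {y : D} (h : T.ext.R Z x y) : y ∉ Z := fun h' => hx (by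
  have := Pole.R_iso' h' h
  rwa [← this] at h')

theorem invα {y : D} (hy : T.X y) : y ∈ Z ↔ M.α y ∈ Z := by
  rw [hi.2 y, T.ext_a_out hy]

include hxX

theorem notX_of {y : D} (hy : ¬ T.X y) : ¬ T.ext.R Z x y := by
  intro h
  have h1 : sw T.ext.σ Z y = y := Pole.sw_leg (T.ext_σ_in (T.inP_of_notX hy))
  have h2 : ae T.ext.a Z y = y := T.ext_ae_in hy
  have := conn_isolated' (T.ext.sw_inv Z) (T.ext.ae_inv Z) h1 h2 h.symm
  rw [this] at hxX
  exact hy hxX

theorem ind_α (y : D) : T.ind Z x (M.α y) = T.ind Z x y := by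
  by_cases hX : T.X y
  · have key : ∀ z, T.X z → T.ext.R Z x z → T.ext.R Z x (M.α z) := by
      intro z hz h
      have h1 := used_of hi hx h
      have h2 : T.ext.a z ∉ Z := fun h' => h1 ((hi.2 z).2 h')
      have h3 : ae T.ext.a Z z = T.ext.a z := Pole.ae_used h1 h2
      have h4 : T.ext.R Z z (ae T.ext.a Z z) := Conn.ma _
      rw [h3, T.ext_a_out hz] at h4
      exact h.trans h4
    by_cases h : T.ext.R Z x y
    · rw [ind_one h, ind_one (key y hX h)]
    · rw [ind_zero h, ind_zero]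
      intro h'
      have := key _ (T.Xα hX) h'
      rw [M.α2] at this
      exact h this
  · rw [ind_zero (notX_of hi hx hxX hX), ind_zero (notX_of hi hx hxX (fun h => hX (T.Xα'.1 h)))]

/-- at a vertex with exactly one unused dart the indicator sums to zero -/
theorem ind_v {y : D} (hy : y ∉ T.P) (hone : One3 (y ∈ Z) (M.σ y ∈ Z) (M.σ (M.σ y) ∈ Z)) :
    T.ind Z x y + T.ind Z x (M.σ y) + T.ind Z x (M.σ (M.σ y)) = 0 := by
  have hy1 : M.σ y ∉ T.P := fun h' => hy (T.σP'.1 h')
  have hy2 : M.σ (M.σ y) ∉ T.P := fun h' => hy1 (T.σP'.1 h')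
  have hun : ∀ z, z ∈ Z → T.ind Z x z = 0 := fun z hz => ind_zero (fun h => used_of hi hx h hz)
  have heq : ∀ z w, T.ext.R Z z w → T.ind Z x z = T.ind Z x w := by
    intro z w h
    by_cases h' : T.ext.R Z x z
    · rw [ind_one h', ind_one (h'.trans h)]
    · rw [ind_zero h', ind_zero (fun h'' => h' (h''.trans h.symm))]
  rcases hone with ⟨h1, h2, h3⟩ | ⟨h1, h2, h3⟩ | ⟨h1, h2, h3⟩
  · have hs : sw T.ext.σ Z (M.σ y) = M.σ (M.σ y) := by
      rw [Pole.sw_one h2 (by rw [T.ext_σ_out hy1]; exact h3)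
        (by rw [T.ext_σ_out hy1, T.ext_σ_out hy2, M.σ3]; exact h1), T.ext_σ_out hy1]
    have : T.ext.R Z (M.σ y) (M.σ (M.σ y)) := by rw [← hs]; exact Conn.ms _
    rw [hun y h1, heq _ _ this, zero_add]
    exact CharTwo.add_self_eq_zero _
  · have hs : sw T.ext.σ Z y = M.σ (M.σ y) := by
      rw [Pole.sw_two h1 (by rw [T.ext_σ_out hy]; exact h2)
        (by rw [T.ext_σ_out hy, T.ext_σ_out hy1]; exact h3), T.ext_σ_out hy, T.ext_σ_out hy1]
    have : T.ext.R Z y (M.σ (M.σ y)) := by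
      have h4 : T.ext.R Z y (sw T.ext.σ Z y) := Conn.ms _
      rwa [hs] at h4
    rw [hun _ h2, heq _ _ this, add_zero]
    exact CharTwo.add_self_eq_zero _
  · have hs : sw T.ext.σ Z y = M.σ y := by
      rw [Pole.sw_one h1 (by rw [T.ext_σ_out hy]; exact h2)
        (by rw [T.ext_σ_out hy, T.ext_σ_out hy1]; exact h3), T.ext_σ_out hy]
    have : T.ext.R Z y (M.σ y) := by
      have h4 : T.ext.R Z y (sw T.ext.σ Z y) := Conn.ms _
      rwa [hs] at h4
    rw [hun _ h3, heq _ _ this, add_zero]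
    exact CharTwo.add_self_eq_zero _

end

/-- vanishing at a vertex from vanishing at one used dart -/
theorem van {Z : Finset D} {e : D → ZMod 2} {y : D} (hyZ : y ∉ Z)
    (hone : One3 (y ∈ Z) (M.σ y ∈ Z) (M.σ (M.σ y) ∈ Z)) (he : ∀ z ∈ Z, e z = 0)
    (hs : e y + e (M.σ y) + e (M.σ (M.σ y)) = 0) (h0 : e y = 0) : e (M.σ y) = 0 := by
  rcases hone with ⟨h1, h2, h3⟩ | ⟨h1, h2, h3⟩ | ⟨h1, h2, h3⟩
  · exact absurd h1 hyZ
  · exact he _ h2
  · rw [he _ h3, h0] at hs; simpa using hs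

/-- closed states: pairs do not cross -/
theorem cross_closed [Finite D] (hS : T.Sided) {E : Finset D} (hE : T.ext.Closed E)
    {a k : Fin K} (ha : a < T.ext.trace E a) (hk : k ≠ a) (hk' : k ≠ T.ext.trace E a) :
    (a ≤ k ∧ k < T.ext.trace E a) ↔
      (a ≤ T.ext.trace E k ∧ T.ext.trace E k < T.ext.trace E a) := by
  set b := T.ext.trace E a with hb
  have haE : T.m a ∉ E := fun h => (ne_of_gt ha) (Pole.trace_mem (p := T.ext) h)
  have hi := Pole.Closed.inv hE
  have hone : ∀ y, y ∉ T.P → One3 (y ∈ E) (M.σ y ∈ E) (M.σ (M.σ y) ∈ E) := by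
    intro y hy
    have hy1 : M.σ y ∉ T.P := fun h' => hy (T.σP'.1 h')
    have := hE.1 y (T.ext_σ_ne.2 hy)
    rwa [T.ext_σ_out hy, T.ext_σ_out hy1] at this
  have e3 : ∀ y, y ∉ T.P → T.ind E (T.m a) y + T.ind E (T.m a) (M.σ y) +
      T.ind E (T.m a) (M.σ (M.σ y)) = 0 :=
    fun y hy => ind_v hi haE (T.X_of_leg a) hy (hone y hy)
  obtain ⟨g, g1, g2, γ, g3⟩ := hS a b ha (T.ind E (T.m a)) (ind_α hi haE (T.X_of_leg a))
    (fun y hy => ind_zero (notX_of hi haE (T.X_of_leg a) hy)) e3 (by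
      intro l
      by_cases h : T.ext.R E (T.m a) (T.m l)
      · rw [ind_one h]
        rcases T.Re_legs hE h with h' | h'
        · rw [if_pos (Or.inl h')]
        · rw [if_pos (Or.inr h')]
      · rw [ind_zero h, if_neg]
        rintro (h' | h')
        · exact h (h' ▸ Conn.refl _)
        · exact h (by rw [h']; exact T.Re_trace a))
  by_cases hkE : T.m k ∈ E
  · have : T.ext.trace E k = k := Pole.trace_mem (p := T.ext) hkE
    rw [this]
  · apply side_iff g3
    refine g_const g1 g2 (x := T.m k) ?_ (T.Re_trace k)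
    intro y hy
    have hna : ¬ T.ext.R E (T.m a) y := by
      intro h
      rcases T.Re_legs hE (h.trans hy.symm) with h' | h'
      · exact hk h'
      · exact hk' h'
    have h0 : T.ind E (T.m a) y = 0 := ind_zero hna
    refine ⟨fun hyP => ⟨h0, ?_⟩, fun _ => h0⟩
    exact van (used_of hi hkE hy) (hone y hyP)
      (fun z hz => ind_zero (fun h => used_of hi haE h hz)) (e3 y hyP) h0

/-- noncrossing involutions, in the form used by the search -/
def NCt (t : Fin K → Fin K) : Prop :=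
  (∀ i, t (t i) = i) ∧ ∀ a i, a < i → i < t a → t i < t a

theorem nct [Finite D] (hS : T.Sided) {E : Finset D} (hE : T.ext.Closed E) :
    NCt (T.ext.trace E) := by
  refine ⟨Pole.trace_trace hE, fun a i h1 h2 => ?_⟩
  exact ((cross_closed hS hE (h1.trans h2) (ne_of_gt h1) (ne_of_lt h2)).1 ⟨h1.le, h2⟩).2

/-- tripods: no pair separates the three legs -/
def NCtri (t : Fin K → Fin K) (i j k : Fin K) : Prop :=
  (∀ l, t (t l) = l) ∧ i ≠ j ∧ j ≠ k ∧ i ≠ k ∧ t i = i ∧ t j = j ∧ t k = k ∧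
  ∀ l, l < t l → ((l < i ∧ i < t l) ↔ (l < j ∧ j < t l)) ∧
      ((l < i ∧ i < t l) ↔ (l < k ∧ k < t l))

theorem sep_aux {l l' i j : Fin K} (hll : l < l') (hli : l ≠ i) (hlj : l ≠ j) (hl'i : l' ≠ i)
    (hl'j : l' ≠ j) (h : (min i j ≤ l ∧ l < max i j) ↔ (min i j ≤ l' ∧ l' < max i j)) :
    (l < i ∧ i < l') ↔ (l < j ∧ j < l') := by
  rw [Fin.le_def, Fin.lt_def, Fin.le_def, Fin.lt_def] at h
  simp only [Fin.lt_def, Fin.ext_iff, ne_eq] at *
  rcases le_total i j with hij | hij
  · rw [min_eq_left hij, max_eq_right hij] at h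
    rw [Fin.le_def] at hij
    omega
  · rw [min_eq_right hij, max_eq_left hij] at h
    rw [Fin.le_def] at hij
    omega

section tripod
variable [Finite D] {W : Finset D} {u : D} {i j k : Fin K} (ht : T.ext.Tripod W u i j k)
include ht

theorem tri_deg3 : Pole.Deg3 T.ext W u :=
  ⟨⟨ht.sup, ht.inv⟩, ht.hu, ht.u1, ht.u2, ht.u3, ht.vx⟩

theorem tri_q1 {l : Fin K} (h : T.ext.R W u (T.m l)) : l = i := by
  obtain ⟨y, _, _, _, h4, _, _⟩ := (tri_deg3 ht).other
  exact T.inj ((h4 l h).trans (h4 i ht.r1).symm)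

theorem tri_q2 {l : Fin K} (h : T.ext.R W (T.ext.σ u) (T.m l)) : l = j := by
  obtain ⟨y, _, _, _, h4, _, _⟩ := (tri_deg3 ht).rot.other
  exact T.inj ((h4 l h).trans (h4 j ht.r2).symm)

theorem tri_q3 {l : Fin K} (h : T.ext.R W (T.ext.σ (T.ext.σ u)) (T.m l)) : l = k := by
  obtain ⟨y, _, _, _, h4, _, _⟩ := (tri_deg3 ht).rot.rot.other
  exact T.inj ((h4 l h).trans (h4 k ht.r3).symm)

/-- legs of the tripod are not connected to other legs; the other used legs are paired -/
theorem tri_trace : T.ext.trace W i = i ∧ T.ext.trace W j = j ∧ T.ext.trace W k = k ∧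
    (∀ l, T.ext.trace W (T.ext.trace W l) = l) := by
  have hdeg := tri_deg3 ht
  have fi : T.ext.trace W i = i := part_none (fun l hl hr =>
    hl (tri_q1 ht (ht.r1.trans hr)))
  have fj : T.ext.trace W j = j := part_none (fun l hl hr =>
    hl (tri_q2 ht (ht.r2.trans hr)))
  have fk : T.ext.trace W k = k := part_none (fun l hl hr =>
    hl (tri_q3 ht (ht.r3.trans hr)))
  refine ⟨fi, fj, fk, ?_⟩
  intro l
  by_cases hl : T.m l ∈ W
  · have : T.ext.trace W l = l := Pole.trace_mem (p := T.ext) hl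
    rw [this, this]
  · obtain ⟨y, h1, h2, h3, h4, h5, h6⟩ := Pole.ends_a (p := T.ext) hdeg.inv hl
      (Pole.sw_leg (T.ext_σ_in (T.mP l))) (T.ext.m_leg l).2
    by_cases hy : T.ext.σ y = y
    · obtain ⟨l', rfl⟩ := (T.ext.leg y).1 ⟨hy, h4⟩
      have e1 : T.ext.trace W l = l' := by
        apply part_eq
        · intro h; exact h1 (by rw [h]; rfl)
        · exact h2
        · intro l'' hl'' hr
          rcases h6 _ hr (Pole.sw_leg (T.ext.m_leg l'').1) with h | h
          · exact absurd (T.inj h) hl''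
          · exact T.inj h
      rw [e1]
      apply part_eq
      · intro h; exact h1 (by rw [← h]; rfl)
      · exact h2.symm
      · intro l'' hl'' hr
        rcases h6 _ (h2.trans hr) (Pole.sw_leg (T.ext.m_leg l'').1) with h | h
        · exact T.inj h
        · exact absurd (T.inj h) hl''
    · have hyu : y = u ∨ y = T.ext.σ u ∨ y = T.ext.σ (T.ext.σ u) := by
        by_contra hcon
        rw [not_or, not_or] at hcon
        exact Pole.sw_ne hy h3 (ht.vx y hy hcon.1 hcon.2.1 hcon.2.2) h5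
      rcases hyu with h | h | h
      · rw [h] at h2
        have := tri_q1 ht (l := l) h2.symm
        rw [this, fi, fi]
      · rw [h] at h2
        have := tri_q2 ht (l := l) h2.symm
        rw [this, fj, fj]
      · rw [h] at h2
        have := tri_q3 ht (l := l) h2.symm
        rw [this, fk, fk]

/-- the interval between the ends `i`, `j` of a tripod does not separate a pair -/
theorem tri_side (hS : T.Sided) {l : Fin K} (hli : l ≠ i) (hlj : l ≠ j) (hlk : l ≠ k) :
    (min i j ≤ l ∧ l < max i j) ↔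
      (min i j ≤ T.ext.trace W l ∧ T.ext.trace W l < max i j) := by
  have hdeg := tri_deg3 ht
  have huP : u ∉ T.P := T.ext_σ_ne.1 ht.hu
  have hu1P : M.σ u ∉ T.P := fun h' => huP (T.σP'.1 h')
  have hu2P : M.σ (M.σ u) ∉ T.P := fun h' => hu1P (T.σP'.1 h')
  have eσ : T.ext.σ u = M.σ u := T.ext_σ_out huP
  have eσσ : T.ext.σ (T.ext.σ u) = M.σ (M.σ u) := by rw [eσ, T.ext_σ_out hu1P]
  have hu1 : u ∉ W := ht.u1
  have hu2 : M.σ u ∉ W := by rw [← eσ]; exact ht.u2
  have hu3 : M.σ (M.σ u) ∉ W := by rw [← eσσ]; exact ht.u3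
  have r2 : T.ext.R W (M.σ u) (T.m j) := by rw [← eσ]; exact ht.r2
  have r3 : T.ext.R W (M.σ (M.σ u)) (T.m k) := by rw [← eσσ]; exact ht.r3
  have q2 : ∀ l, T.ext.R W (M.σ u) (T.m l) → l = j := fun l h => tri_q2 ht (by rw [eσ]; exact h)
  have q3 : ∀ l, T.ext.R W (M.σ (M.σ u)) (T.m l) → l = k :=
    fun l h => tri_q3 ht (by rw [eσσ]; exact h)
  have q1 : ∀ l, T.ext.R W u (T.m l) → l = i := fun l h => tri_q1 ht h
  have n12 : ¬ T.ext.R W u (M.σ u) := fun h => ht.ij (q2 i (h.symm.trans ht.r1))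
  have n13 : ¬ T.ext.R W u (M.σ (M.σ u)) := fun h => ht.ik (q3 i (h.symm.trans ht.r1))
  have n23 : ¬ T.ext.R W (M.σ u) (M.σ (M.σ u)) := fun h => ht.jk (q3 j (h.symm.trans r2))
  have hone : ∀ y, y ∉ T.P → y ≠ u → y ≠ M.σ u → y ≠ M.σ (M.σ u) →
      One3 (y ∈ W) (M.σ y ∈ W) (M.σ (M.σ y) ∈ W) := by
    intro y hy y1 y2 y3
    have hy1 : M.σ y ∉ T.P := fun h' => hy (T.σP'.1 h')
    have := ht.vx y (T.ext_σ_ne.2 hy) y1 (by rw [eσ]; exact y2) (by rw [eσσ]; exact y3)
    rwa [T.ext_σ_out hy, T.ext_σ_out hy1] at this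
  have i1 := hdeg.inv
  set e : D → ZMod 2 := fun y => T.ind W u y + T.ind W (M.σ u) y with he
  have e3 : ∀ y, y ∉ T.P → e y + e (M.σ y) + e (M.σ (M.σ y)) = 0 := by
    intro y hy
    have a11 : T.ind W u u = 1 := ind_one (Conn.refl _)
    have a12 : T.ind W u (M.σ u) = 0 := ind_zero n12
    have a13 : T.ind W u (M.σ (M.σ u)) = 0 := ind_zero n13
    have a21 : T.ind W (M.σ u) u = 0 := ind_zero (fun h => n12 h.symm)
    have a22 : T.ind W (M.σ u) (M.σ u) = 1 := ind_one (Conn.refl _)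
    have a23 : T.ind W (M.σ u) (M.σ (M.σ u)) = 0 := ind_zero n23
    by_cases y1 : y = u
    · rw [y1]; simp only [he, a11, a12, a13, a21, a22, a23]; decide
    by_cases y2 : y = M.σ u
    · rw [y2, M.σ3]; simp only [he, a11, a12, a13, a21, a22, a23]; decide
    by_cases y3 : y = M.σ (M.σ u)
    · rw [y3, M.σ3]; simp only [he, a11, a12, a13, a21, a22, a23]; decide
    have h := hone y hy y1 y2 y3
    have s1 := ind_v i1 hu1 (Or.inl huP) hy h
    have s2 := ind_v i1 hu2 (Or.inl hu1P) hy h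
    have : e y + e (M.σ y) + e (M.σ (M.σ y)) =
        (T.ind W u y + T.ind W u (M.σ y) + T.ind W u (M.σ (M.σ y))) +
        (T.ind W (M.σ u) y + T.ind W (M.σ u) (M.σ y) + T.ind W (M.σ u) (M.σ (M.σ y))) := by
      simp only [he]; ring
    rw [this, s1, s2, add_zero]
  have hij : min i j < max i j := by
    rcases lt_or_gt_of_ne ht.ij with h | h
    · rw [min_eq_left h.le, max_eq_right h.le]; exact h
    · rw [min_eq_right h.le, max_eq_left h.le]; exact h
  obtain ⟨g, g1, g2, γ, g3⟩ := hS (min i j) (max i j) hij e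
    (fun y => by
      simp only [he]
      rw [ind_α i1 hu1 (Or.inl huP), ind_α i1 hu2 (Or.inl hu1P)])
    (fun y hy => by
      simp only [he]
      rw [ind_zero (notX_of i1 hu1 (Or.inl huP) hy), ind_zero (notX_of i1 hu2 (Or.inl hu1P) hy),
        add_zero]) e3 (by
      intro l
      have hmm : (l = min i j ∨ l = max i j) ↔ (l = i ∨ l = j) := by
        rcases le_total i j with h | h
        · rw [min_eq_left h, max_eq_right h]
        · rw [min_eq_right h, max_eq_left h, or_comm]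
      simp only [he]
      by_cases h1 : l = i
      · have r1 : T.ext.R W u (T.m i) := ht.r1
        rw [if_pos (hmm.2 (Or.inl h1)), h1, ind_one r1, ind_zero (fun h => ht.ij (q2 i h)),
          add_zero]
      by_cases h2 : l = j
      · rw [if_pos (hmm.2 (Or.inr h2)), h2, ind_one r2, ind_zero (fun h => ht.ij (q1 j h).symm),
          zero_add]
      rw [if_neg (fun h => (hmm.1 h).elim h1 h2), ind_zero (fun h => h1 (q1 l h)),
        ind_zero (fun h => h2 (q2 l h)), add_zero])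
  by_cases hl : T.m l ∈ W
  · have : T.ext.trace W l = l := Pole.trace_mem (p := T.ext) hl
    rw [this]
  · apply side_iff g3
    refine g_const g1 g2 (x := T.m l) ?_ (T.Re_trace l)
    intro y hy
    have z1 : ¬ T.ext.R W u y := fun h => hli (q1 l (h.trans hy.symm))
    have z2 : ¬ T.ext.R W (M.σ u) y := fun h => hlj (q2 l (h.trans hy.symm))
    have z3 : ¬ T.ext.R W (M.σ (M.σ u)) y := fun h => hlk (q3 l (h.trans hy.symm))
    have h0 : e y = 0 := by simp only [he]; rw [ind_zero z1, ind_zero z2, add_zero]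
    refine ⟨fun hyP => ⟨h0, ?_⟩, fun _ => h0⟩
    have y1 : y ≠ u := by rintro rfl; exact z1 (Conn.refl _)
    have y2 : y ≠ M.σ u := by rintro rfl; exact z2 (Conn.refl _)
    have y3 : y ≠ M.σ (M.σ u) := by rintro rfl; exact z3 (Conn.refl _)
    refine van (used_of i1 hl hy) (hone y hyP y1 y2 y3) (fun z hz => ?_) (e3 y hyP) h0
    simp only [he]
    rw [ind_zero (fun h => used_of i1 hu1 h hz), ind_zero (fun h => used_of i1 hu2 h hz), add_zero]

end tripod

theorem Tripod_rot {W : Finset D} {u : D} {i j k : Fin K} (ht : T.ext.Tripod W u i j k) :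
    T.ext.Tripod W (T.ext.σ u) j k i :=
  ⟨Pole.σ_ne ht.hu, ht.u2, ht.u3, by rw [T.ext.σ3]; exact ht.u1,
    fun x h0 h1 h2 h3 => ht.vx x h0 (by rw [T.ext.σ3] at h3; exact h3) h1 h2,
    ht.sup, ht.inv, ht.r2, ht.r3, by rw [T.ext.σ3]; exact ht.r1, ht.jk, ht.ik.symm, ht.ij.symm⟩

theorem nctri [Finite D] (hS : T.Sided) {W : Finset D} {u : D} {i j k : Fin K}
    (ht : T.ext.Tripod W u i j k) : NCtri (T.ext.trace W) i j k := by
  obtain ⟨fi, fj, fk, finv⟩ := tri_trace ht
  refine ⟨finv, ht.ij, ht.jk, ht.ik, fi, fj, fk, ?_⟩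
  intro l hl
  have li : l ≠ i := fun h => by rw [h, fi] at hl; exact lt_irrefl _ hl
  have lj : l ≠ j := fun h => by rw [h, fj] at hl; exact lt_irrefl _ hl
  have lk : l ≠ k := fun h => by rw [h, fk] at hl; exact lt_irrefl _ hl
  have l'i : T.ext.trace W l ≠ i := fun h => li (by rw [← finv l, h, fi])
  have l'j : T.ext.trace W l ≠ j := fun h => lj (by rw [← finv l, h, fj])
  have l'k : T.ext.trace W l ≠ k := fun h => lk (by rw [← finv l, h, fk])
  refine ⟨sep_aux hl li lj l'i l'j (tri_side ht hS li lj lk), ?_⟩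
  have h1 := tri_side (Tripod_rot (Tripod_rot ht)) hS (l := l) lk li lj
  exact (sep_aux hl lk li l'k l'i h1).symm

end Patch
end CubicMap
end Pool.H64.NC
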