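import Pool.Agent.Helper64.NC.Side
import Pool.Agent.Helper64.NC.Cross
import Pool.Agent.Helper64.NC.St.Single
import Pool.Agent.Helper64.NC.St.Coc

/-! NC: a checked certificate excludes maps with exactly three Hamilton circuits. -/

set_option linter.unusedSectionVars false

namespace Pool.H64.NC

open Function Code

/-- mask of all edges of the wheel -/
def fullM (q : List ℕ) : ℕ := (codes q).foldl (fun s x => s ||| (1 <<< (x / 2))) 0

/-- the enumeration is covered by the list `cf` -/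
def enOK (q : List ℕ) (cf : List (ℕ × ℕ)) : Bool :=
  (enumC (wV q) 0 0).all (fun b =>
    let r := trc (TB q) b 40 (wL q) (wL q) 0 0 0
    bif covW b (codes q) r.2 then cf.any (fun x => Nat.beq x.1 b && Nat.beq x.2 r.1)
    else closedW (TB q) b (codes q) (wL q) r.2)

/-- the entries of the list `cf` are correct -/
def cfOK (q : List ℕ) (cf : List (ℕ × ℕ)) : Bool :=
  cf.all (fun x =>
    let r := trc (TB q) x.1 40 (wL q) (wL q) 0 0 0
    validB q x.1 && (Nat.beq (x.1 ||| fullM q) (fullM q) && (Nat.beq x.2 r.1 &&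
      (covW x.1 (codes q) r.2 && (List.range (wL q).length).all (fun i =>
        bt x.1 ((wL q).getD i 0 / 2) || (Nat.blt (dig x.2 i) (wL q).length &&
          !Nat.beq (dig x.2 i) i))))))

/-- strictly increasing first components -/
def incr : List (ℕ × ℕ) → Bool
  | [] => true
  | [_] => true
  | x :: y :: l => Nat.blt x.1 y.1 && incr (y :: l)

structure Cert (q : List ℕ) (c : Tree) (tab : List (ℕ × List ℕ)) (cf : List (ℕ × ℕ)) : Prop where
  wok : WOK q
  ring : Ring q
  en : enOK q cf = true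
  cfv : cfOK q cf = true
  inc : incr cf = true
  dfs : dfsT c (wL q).length tab (wL q).length 0 0 cf = true
  coc : c.keys.all (fun κ => cocK c (wL q).length κ) = true
  trp : trip (fullM q) tab = true

theorem incr_nodup : ∀ (l : List (ℕ × ℕ)), incr l = true →
    (l.map Prod.fst).Pairwise (· < ·)
  | [], _ => by simp
  | [x], _ => by simp
  | x :: y :: l, h => by
    unfold incr at h
    rw [Bool.and_eq_true, Nat.blt_eq] at h
    have ih := incr_nodup (y :: l) h.2
    rw [List.map_cons, List.pairwise_cons]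
    refine ⟨?_, ih⟩
    intro z hz
    rw [List.map_cons] at ih hz
    rw [List.pairwise_cons] at ih
    rw [List.mem_cons] at hz
    rcases hz with rfl | hz
    · exact h.1
    · exact h.1.trans (ih.1 z hz)

theorem foldl_bt (e : ℕ) : ∀ (l : List ℕ) (s : ℕ),
    bt (l.foldl (fun s x => s ||| (1 <<< (x / 2))) s) e = true ↔
      bt s e = true ∨ ∃ c ∈ l, e = c / 2
  | [], s => by simp
  | c :: l, s => by
    rw [List.foldl_cons, foldl_bt e l, bt_or, bt_one]
    simp only [List.mem_cons, exists_eq_or_imp]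
    tauto

theorem fullM_bt (q : List ℕ) (e : ℕ) : bt (fullM q) e = true ↔ ∃ c ∈ codes q, e = c / 2 := by
  unfold fullM
  rw [foldl_bt]
  constructor
  · rintro (h | h)
    · unfold bt at h; simp at h
    · exact h
  · exact Or.inr

theorem bt_ext {a b : ℕ} (h : ∀ e, bt a e = true ↔ bt b e = true) : a = b := by
  apply Nat.eq_of_testBit_eq
  intro e
  have := h e
  rw [bt_iff, bt_iff] at this
  exact Bool.eq_iff_iff.2 this

theorem bt_xor (a b e : ℕ) : bt (a ^^^ b) e = (bt a e ^^ bt b e) := by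
  have : ∀ b e, bt b e = Nat.testBit b e := fun b e => Bool.eq_iff_iff.2 (bt_iff b e)
  rw [this, this, this, Nat.testBit_xor]

theorem look_mem : ∀ (tab : List (ℕ × List ℕ)) (b v : ℕ), v ∈ look tab b →
    ∃ S, (b, S) ∈ tab ∧ v ∈ S
  | [], b, v, h => by simp [look] at h
  | a :: l, b, v, h => by
    unfold look at h
    by_cases ha : Nat.beq a.1 b = true
    · rw [ha, cond_true] at h
      rw [Nat.beq_eq] at ha
      exact ⟨a.2, by rw [← ha]; exact List.mem_cons_self .., h⟩
    · rw [Bool.eq_false_iff.2 ha, cond_false] at h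
      obtain ⟨S, h1, h2⟩ := look_mem l b v h
      exact ⟨S, List.mem_cons_of_mem _ h1, h2⟩

/-- bit of a number as an element of `ZMod 2` -/
def bz (v n : ℕ) : ZMod 2 := if Nat.testBit v n then 1 else 0

theorem bz_xor (a b n : ℕ) : bz (a ^^^ b) n = bz a n + bz b n := by
  unfold bz
  rw [Nat.testBit_xor]
  cases Nat.testBit a n <;> cases Nat.testBit b n <;> decide

theorem bz_zero (n : ℕ) : bz 0 n = 0 := by unfold bz; simp

theorem bz_ne {v : ℕ} (h : v ≠ 0) : ∃ n, bz v n ≠ 0 := by
  by_contra hcon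
  push Not at hcon
  apply h
  apply Nat.eq_of_testBit_eq
  intro n
  have := hcon n
  unfold bz at this
  rw [Nat.zero_testBit]
  by_contra h'
  rw [if_pos (by simpa using h')] at this
  exact absurd this (by decide)

section
variable {K : ℕ}

theorem ext0_val (t : Fin K → Fin K) (i : Fin K) : ext0 t i = (t i : ℕ) := by
  unfold ext0; rw [dif_pos i.2]

theorem ext0_lt (t : Fin K → Fin K) {i : ℕ} (hi : i < K) : ext0 t i < K := by
  unfold ext0; rw [dif_pos hi]; exact (t ⟨i, hi⟩).2

theorem bz_syn (c : Tree) (T n : ℕ) : ∀ k : ℕ,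
    bz (syn c T k) n = ∑ i ∈ Finset.range k, bz (cval c T i) n
  | 0 => by unfold syn; rw [bz_zero]; simp
  | k + 1 => by
    unfold syn
    rw [bz_xor, bz_syn c T n k, Finset.sum_range_succ]

theorem bz_syn' (hK : K ≤ 15) (c : Tree) (t : Fin K → Fin K) (ht : ∀ i, t (t i) = i) (n : ℕ) :
    bz (syn c (pack (ext0 t) K) K) n = ∑ x : Fin K, bz (c.find (pack (extO (opn t x)) K)) n := by
  rw [bz_syn, ← Fin.sum_univ_eq_sum_range (fun i => bz (cval c (pack (ext0 t) K) i) n)]
  apply Finset.sum_congr rfl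
  intro x _
  rw [cval_eq hK c t ht x]

end

section
variable {D : Type*} [Fintype D] [DecidableEq D] {M : CubicMap D} {q : List ℕ} {ι : ℕ → D}
variable {c : Tree} {tab : List (ℕ × List ℕ)} {cf : List (ℕ × ℕ)}
variable (hc : Coded M q ι) (hq : Cert q c tab cf)
include hc hq

/-- an entry of `cf` gives a configuration with the listed trace -/
theorem cf_spec {x : ℕ × ℕ} (hx : x ∈ cf) : ∃ C, (hc.patch hq.wok).Inner C ∧ Match hc C x.1 ∧
    (hc.patch hq.wok).CovI C ∧
    ∀ i, (((hc.patch hq.wok).traceI C i : Fin (wL q).length) : ℕ) = dig x.2 i ∧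
      ((hc.patch hq.wok).m i ∈ C ↔ dig x.2 i = i) := by
  have h := List.all_eq_true.1 hq.cfv x hx
  simp only [Bool.and_eq_true] at h
  obtain ⟨h1, h2, h3, h4, h5⟩ := h
  obtain ⟨C, hC, hm⟩ := match_exists hc hq.wok h1
  rw [Nat.beq_eq] at h3
  refine ⟨C, hC, hm, cov_pos hc hq.wok hC hm h4, ?_⟩
  apply traceI_eq hc hq.wok hC hm h3
  intro i hi hb
  have := List.all_eq_true.1 h5 i (List.mem_range.2 hi)
  rw [hb, Bool.false_or, Bool.and_eq_true, Nat.blt_eq] at this
  refine ⟨this.1, fun h => ?_⟩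
  have h6 := this.2
  rw [h] at h6
  simp at h6

/-- a covering configuration is listed -/
theorem cf_of {C : Finset D} (hC : (hc.patch hq.wok).Inner C) (hcov : (hc.patch hq.wok).CovI C) :
    ∃ x ∈ cf, Match hc C x.1 := by
  obtain ⟨b, hb, hm⟩ := exists_match hc hq.wok hC
  have h := List.all_eq_true.1 hq.en b hb
  simp only at h
  by_cases h1 : covW b (codes q) (trc (TB q) b 40 (wL q) (wL q) 0 0 0).2 = true
  · rw [h1, cond_true, List.any_eq_true] at h
    obtain ⟨x, hx, h2⟩ := h
    rw [Bool.and_eq_true, Nat.beq_eq] at h2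
    exact ⟨x, hx, by rw [h2.1]; exact hm⟩
  · rw [Bool.eq_false_iff.2 h1, cond_false] at h
    exact absurd hcov (cov_neg hc hq.wok hC hm h (Bool.eq_false_iff.2 h1))

theorem match_inj {C : Finset D} {x y : ℕ × ℕ} (hx : x ∈ cf) (hy : y ∈ cf) (h : Match hc C x.1)
    (h' : Match hc C y.1) : x.1 = y.1 := by
  have key : ∀ z ∈ cf, ∀ e, bt z.1 e = true → ∃ c ∈ codes q, e = c / 2 := by
    intro z hz e he
    have h1 := List.all_eq_true.1 hq.cfv z hz
    simp only [Bool.and_eq_true] at h1
    have h2 := h1.2.1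
    rw [Nat.beq_eq] at h2
    rw [← fullM_bt, ← h2, bt_or]
    exact Or.inl he
  apply bt_ext
  intro e
  constructor
  · intro he
    obtain ⟨c, hcc, rfl⟩ := key x hx e he
    exact (h' c hcc).1 ((h c hcc).2 he)
  · intro he
    obtain ⟨c, hcc, rfl⟩ := key y hy e he
    exact (h c hcc).1 ((h' c hcc).2 he)

/-- some leg is used -/
theorem leg_used {C : Finset D} (hC : (hc.patch hq.wok).Inner C)
    (hcov : (hc.patch hq.wok).CovI C) : ∃ i, (hc.patch hq.wok).m i ∉ C := by
  have h0 : ι 0 ∈ (hc.patch hq.wok).P := (mem_P hc hq.wok).2 ⟨0, hq.ring.z0, rfl⟩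
  have hv := hC.v _ h0
  obtain ⟨z, hz, hzC⟩ : ∃ z, z ∈ (hc.patch hq.wok).P ∧ z ∉ C := by
    by_cases h : ι 0 ∈ C
    · exact ⟨M.σ (ι 0), (hc.patch hq.wok).σP _ h0, by unfold One3 at hv; tauto⟩
    · exact ⟨_, h0, h⟩
  obtain ⟨i, hi⟩ := hcov z hz hzC
  exact ⟨i, fun h => hzC (by
    have := (hc.patch hq.wok).RI_iso h hi.symm
    rw [this]; exact h)⟩

theorem traceI_invol {C : Finset D} (hC : (hc.patch hq.wok).Inner C)
    (hf : ∀ i, (hc.patch hq.wok).m i ∈ C ↔ (hc.patch hq.wok).traceI C i = i)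
    (i : Fin (wL q).length) :
    (hc.patch hq.wok).traceI C ((hc.patch hq.wok).traceI C i) = i := by
  set T := hc.patch hq.wok with hT
  set j := T.traceI C i with hj
  by_cases h : j = i
  · rw [h, ← hj, h]
  · have h1 : T.RI C (T.m i) (T.m j) := T.RI_trace i
    have h2 := (T.RI_legs hC h1.symm).resolve_left (fun h' => h h'.symm)
    exact h2.symm

/-- the answer of `single` is correct for the entries of `cf` -/
theorem single_spec {t : Fin (wL q).length → Fin (wL q).length}
    (ht : ∀ i, t (t i) = i) {x : ℕ × ℕ} (hx : x ∈ cf)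
    (hfix : ∀ i : Fin (wL q).length, (dig x.2 i = i ↔ t i = i)) {C : Finset D}
    (hC : (hc.patch hq.wok).Inner C) (hm : Match hc C x.1) {b : Bool}
    (h : single (wL q).length (pack (ext0 t) (wL q).length) x.2 = some b) :
    b = true ↔ (hc.patch hq.wok).Compl t C := by
  obtain ⟨C', hC', hm', hcov, htr⟩ := cf_spec hc hq hx
  have : C = C' := match_unique hc hq.wok hC.sub hC'.sub hm hm'
  subst this
  have hK := hq.wok.K15
  have h16 : ∀ j < (wL q).length, ext0 t j < 16 := fun j hj => by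
    have := ext0_lt t hj; omega
  have hf : ∀ i, (hc.patch hq.wok).m i ∈ C ↔ (hc.patch hq.wok).traceI C i = i := by
    intro i
    rw [(htr i).2, Fin.ext_iff, (htr i).1]
  have hcf : ∀ i, (hc.patch hq.wok).m i ∈ C ↔ t i = i := fun i => (htr i).2.trans (hfix i)
  obtain ⟨i0, hi0⟩ := leg_used hc hq hC hcov
  have key := single_iff hK t ((hc.patch hq.wok).traceI C) (pack (ext0 t) (wL q).length) x.2
    (fun i => by rw [dig_pack _ _ _ i.2 h16, ext0_val]) (fun i => (htr i).1.symm) ht
    (traceI_invol hc hq hC hf) (fun i => (hcf i).symm.trans (hf i))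
    ⟨i0, fun h' => hi0 ((hcf i0).2 h')⟩ b h
  rw [key]
  constructor
  · intro h'
    exact ⟨hC, hcf, hcov, fun i j hi hj => h' i j (fun k => hi ((hcf i).2 k))
      (fun k => hj ((hcf j).2 k))⟩
  · rintro ⟨_, _, _, h4⟩ i j hi hj
    exact h4 i j (fun k => hi ((hcf i).1 k)) (fun k => hj ((hcf j).1 k))

/-- the filter of the search -/
def filt (q : List ℕ) (t : Fin (wL q).length → Fin (wL q).length) (x : ℕ × ℕ) : Bool :=
  (List.range (wL q).length).all (fun i => Nat.beq (dig x.2 i) i == Nat.beq (ext0 t i) i)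

omit [Fintype D] [DecidableEq D] hc hq in
theorem filt_iff (t : Fin (wL q).length → Fin (wL q).length) (x : ℕ × ℕ) :
    filt q t x = true ↔ ∀ i : Fin (wL q).length, (dig x.2 i = i ↔ t i = i) := by
  unfold filt
  rw [List.all_eq_true]
  constructor
  · intro h i
    have := h i (List.mem_range.2 i.2)
    rw [beq_iff_eq, Bool.eq_iff_iff, Nat.beq_eq, Nat.beq_eq, ext0_val] at this
    rw [this, Fin.ext_iff]
  · intro h i hi
    have hi' := List.mem_range.1 hi
    have := h ⟨i, hi'⟩
    rw [beq_iff_eq, Bool.eq_iff_iff, Nat.beq_eq, Nat.beq_eq]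
    have h2 : ext0 t i = (t ⟨i, hi'⟩ : ℕ) := ext0_val t ⟨i, hi'⟩
    rw [h2, this, Fin.ext_iff]

/-- the completing entries for a trace -/
def good (q : List ℕ) (cf : List (ℕ × ℕ)) (t : Fin (wL q).length → Fin (wL q).length) :
    List (ℕ × Option Bool) :=
  ((cf.filter (filt q t)).map (fun x =>
    (x.1, single (wL q).length (pack (ext0 t) (wL q).length) x.2))).filter
      (fun x => x.2 == some true)

theorem leaf_all {t : Fin (wL q).length → Fin (wL q).length}
    (ht : CubicMap.Patch.NCt t) :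
    leafT c (wL q).length tab (pack (ext0 t) (wL q).length) (cf.filter (filt q t)) = true := by
  refine dfsT_sound c (wL q).length tab cf (ext0 t) hq.wok.K15 (fun i hi => ext0_lt t hi) ?_ ?_
    hq.dfs
  · intro i hi
    have h1 : ext0 t i = (t ⟨i, hi⟩ : ℕ) := ext0_val t ⟨i, hi⟩
    rw [h1, ext0_val, ht.1]
  · intro a ha i hi h1 h2
    have e1 : ext0 t a = (t ⟨a, ha⟩ : ℕ) := ext0_val t ⟨a, ha⟩
    have e2 : ext0 t i = (t ⟨i, hi⟩ : ℕ) := ext0_val t ⟨i, hi⟩
    rw [e1] at h2 ⊢
    rw [e2]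
    exact ht.2 ⟨a, ha⟩ ⟨i, hi⟩ h1 h2

/-- members of `good` are the completions -/
theorem good_mem {t : Fin (wL q).length → Fin (wL q).length}
    (ht : ∀ i, t (t i) = i) {x : ℕ × Option Bool} (hx : x ∈ good q cf t) :
    ∃ C, (hc.patch hq.wok).Compl t C ∧ Match hc C x.1 := by
  unfold good at hx
  rw [List.mem_filter, List.mem_map] at hx
  obtain ⟨⟨y, hy, rfl⟩, h2⟩ := hx
  rw [List.mem_filter] at hy
  rw [beq_iff_eq] at h2
  obtain ⟨C, hC, hm, _, _⟩ := cf_spec hc hq hy.1
  exact ⟨C, (single_spec hc hq ht hy.1 ((filt_iff t y).1 hy.2) hC hm h2).1 rfl, hm⟩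

theorem mem_good {t : Fin (wL q).length → Fin (wL q).length}
    (ht : CubicMap.Patch.NCt t) {C : Finset D} (hC : (hc.patch hq.wok).Compl t C) :
    ∃ x ∈ good q cf t, Match hc C x.1 := by
  obtain ⟨y, hy, hm⟩ := cf_of hc hq hC.1 hC.2.2.1
  obtain ⟨C', hC', hm', hcov, htr⟩ := cf_spec hc hq hy
  have : C = C' := match_unique hc hq.wok hC.1.sub hC'.sub hm hm'
  subst this
  have hfix : ∀ i : Fin (wL q).length, (dig y.2 i = i ↔ t i = i) :=
    fun i => (htr i).2.symm.trans (hC.2.1 i)
  have hyf : y ∈ cf.filter (filt q t) := List.mem_filter.2 ⟨hy, (filt_iff t y).2 hfix⟩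
  have hleaf := leaf_all hc hq ht
  unfold leafT at hleaf
  simp only [Bool.and_eq_true] at hleaf
  have h1 := List.all_eq_true.1 hleaf.1 _ (List.mem_map.2 ⟨y, hyf, rfl⟩)
  simp only at h1
  obtain ⟨b, hb⟩ := Option.isSome_iff_exists.1 h1
  have hbt : b = true := (single_spec hc hq ht.1 hy hfix hC.1 hm hb).2 hC
  refine ⟨(y.1, some b), ?_, hm⟩
  unfold good
  rw [List.mem_filter, List.mem_map]
  exact ⟨⟨y, hyf, by rw [hb]⟩, by rw [hbt]; rfl⟩

theorem hM_cert {t : Fin (wL q).length → Fin (wL q).length} (ht : CubicMap.Patch.NCt t) :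
    (∀ n, ∑ x, bz (c.find (pack (extO (opn t x)) (wL q).length)) n = 0) ∨
      ∃ C, (hc.patch hq.wok).Compl t C := by
  by_cases hg : good q cf t = []
  · left
    intro n
    have hleaf := leaf_all hc hq ht
    unfold leafT at hleaf
    simp only [Bool.and_eq_true] at hleaf
    have h2 := hleaf.2
    change (match good q cf t with
      | [] => Nat.beq (syn c (pack (ext0 t) (wL q).length) (wL q).length) 0
      | [x] => (look tab x.1).any
          (fun v => Nat.beq v (syn c (pack (ext0 t) (wL q).length) (wL q).length))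
      | _ => true) = true at h2
    rw [hg] at h2
    simp only [Nat.beq_eq] at h2
    rw [← bz_syn' hq.wok.K15 c t ht.1 n, h2, bz_zero]
  · right
    obtain ⟨x, hx⟩ := List.exists_mem_of_ne_nil _ hg
    obtain ⟨C, hC, _⟩ := good_mem hc hq ht.1 hx
    exact ⟨C, hC⟩

/-- unique completion: the value is in the table -/
theorem uniq_cert {t : Fin (wL q).length → Fin (wL q).length} (ht : CubicMap.Patch.NCt t)
    {C : Finset D} (hC : (hc.patch hq.wok).Compl t C)
    (hu : ∀ C', (hc.patch hq.wok).Compl t C' → C' = C) :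
    ∃ x ∈ cf, Match hc C x.1 ∧
      syn c (pack (ext0 t) (wL q).length) (wL q).length ∈ look tab x.1 := by
  obtain ⟨y, hy, hm⟩ := mem_good hc hq ht hC
  have hcfmem : ∀ z ∈ good q cf t, ∃ w ∈ cf, w.1 = z.1 := by
    intro z hz
    unfold good at hz
    rw [List.mem_filter, List.mem_map] at hz
    obtain ⟨⟨w, hw, rfl⟩, _⟩ := hz
    exact ⟨w, (List.mem_filter.1 hw).1, rfl⟩
  have hsame : ∀ z ∈ good q cf t, z.1 = y.1 := by
    intro z hz
    obtain ⟨C', hC', hm'⟩ := good_mem hc hq ht.1 hz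
    rw [hu C' hC'] at hm'
    obtain ⟨w, hw, hwz⟩ := hcfmem z hz
    obtain ⟨v, hv, hvy⟩ := hcfmem y hy
    rw [← hwz, ← hvy]
    exact match_inj hc hq hw hv (by rw [hwz]; exact hm') (by rw [hvy]; exact hm)
  have hnd : ((good q cf t).map Prod.fst).Nodup := by
    have h1 := incr_nodup cf hq.inc
    have h2 : (cf.map Prod.fst).Nodup := h1.imp (fun h => ne_of_lt h)
    have h3 : ((cf.filter (filt q t)).map Prod.fst).Nodup :=
      h2.sublist ((List.filter_sublist).map _)
    have h4 : (((cf.filter (filt q t)).map (fun x =>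
        (x.1, single (wL q).length (pack (ext0 t) (wL q).length) x.2))).map Prod.fst).Nodup := by
      rw [List.map_map]; exact h3
    exact h4.sublist ((List.filter_sublist).map _)
  have hleaf := leaf_all hc hq ht
  unfold leafT at hleaf
  simp only [Bool.and_eq_true] at hleaf
  have h2 := hleaf.2
  change (match good q cf t with
      | [] => Nat.beq (syn c (pack (ext0 t) (wL q).length) (wL q).length) 0
      | [x] => (look tab x.1).any
          (fun v => Nat.beq v (syn c (pack (ext0 t) (wL q).length) (wL q).length))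
      | _ => true) = true at h2
  obtain ⟨w, hw, hwy⟩ := hcfmem y hy
  refine ⟨w, hw, by rw [hwy]; exact hm, ?_⟩
  rw [hwy]
  rcases hg : good q cf t with _ | ⟨a, _ | ⟨a', l⟩⟩
  · rw [hg] at hy; simp at hy
  · rw [hg] at h2 hsame
    simp only [List.any_eq_true, Nat.beq_eq] at h2
    obtain ⟨v, hv, hvs⟩ := h2
    rw [← hvs, ← hsame a (List.mem_cons_self ..)]
    exact hv
  · exfalso
    rw [hg] at hnd hsame
    rw [List.map_cons, List.map_cons, List.nodup_cons] at hnd
    apply hnd.1
    rw [hsame a (List.mem_cons_self ..), hsame a' (List.mem_cons_of_mem _ (List.mem_cons_self ..))]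
    exact List.mem_cons_self ..

/-- **Main certificate theorem.** -/
theorem cert_no_three (hY : ∃ y, y ∉ (hc.patch hq.wok).P)
    (hB : ∀ h : D → ZMod 2, (∀ d, h (M.α d) = h d) →
      (∀ d, h d + h (M.σ d) + h (M.σ (M.σ d)) = 0) →
      ∃ g : D → ZMod 2, (∀ d, g (M.σ (M.α d)) = g d) ∧ ∀ d, h d = g d + g (M.α d)) :
    ¬ M.Three := by
  have hS : (hc.patch hq.wok).Sided := fun a b hab e e1 e2 e3 e4 =>
    side hc hq.wok hq.ring hB hab e e1 e2 e3 e4
  have h0P : ι 0 ∈ (hc.patch hq.wok).P := (mem_P hc hq.wok).2 ⟨0, hq.ring.z0, rfl⟩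
  refine (hc.patch hq.wok).no_three hY ⟨_, h0P⟩ CubicMap.Patch.NCt CubicMap.Patch.NCtri
    (fun E hE => CubicMap.Patch.nct hS hE) (fun W u i j k ht => CubicMap.Patch.nctri hS ht)
    (fun n o => bz (c.find (pack (extO o) (wL q).length)) n) ?_ ?_ ?_
  · rintro n t i j k ⟨h1, h2, h3, h4, h5, h6, h7, h8⟩
    have := coc_sound hq.wok.K15 c hq.coc t h1 i j k h2 h3 h4 h5 h6 h7 h8
    rw [← bz_xor, ← bz_xor, Nat.xor_assoc, this, bz_zero]
  · intro t ht
    exact hM_cert hc hq ht
  · intro C1 C2 C3 t1 t2 t3 n1 n2 n3 c1 c2 c3 hpart u1 u2 u3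
    obtain ⟨x1, hx1, m1, s1⟩ := uniq_cert hc hq n1 c1 u1
    obtain ⟨x2, hx2, m2, s2⟩ := uniq_cert hc hq n2 c2 u2
    obtain ⟨x3, hx3, m3, s3⟩ := uniq_cert hc hq n3 c3 u3
    set v1 := syn c (pack (ext0 t1) (wL q).length) (wL q).length with hv1
    set v2 := syn c (pack (ext0 t2) (wL q).length) (wL q).length with hv2
    set v3 := syn c (pack (ext0 t3) (wL q).length) (wL q).length with hv3
    have hbits : ∀ z ∈ cf, ∀ e, bt z.1 e = true → ∃ c ∈ codes q, e = c / 2 := by
      intro z hz e he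
      have h1 := List.all_eq_true.1 hq.cfv z hz
      simp only [Bool.and_eq_true] at h1
      have h2 := h1.2.1
      rw [Nat.beq_eq] at h2
      rw [← fullM_bt, ← h2, bt_or]
      exact Or.inl he
    have hone : ∀ c ∈ codes q, One3 (bt x1.1 (c / 2) = true) (bt x2.1 (c / 2) = true)
        (bt x3.1 (c / 2) = true) := by
      intro c hcc
      rw [← One3.congr (m1 c hcc) (m2 c hcc) (m3 c hcc)]
      exact hpart _ ((mem_P hc hq.wok).2 ⟨c, hcc, rfl⟩)
    have hand : x1.1 &&& x2.1 = 0 := by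
      apply Nat.eq_of_testBit_eq
      intro e
      rw [Nat.testBit_and, Nat.zero_testBit]
      by_contra hcon
      rw [Bool.not_eq_false, Bool.and_eq_true, ← bt_iff, ← bt_iff] at hcon
      obtain ⟨c, hcc, rfl⟩ := hbits x1 hx1 e hcon.1
      have := hone c hcc
      unfold One3 at this
      tauto
    have hx3' : fullM q ^^^ (x1.1 ^^^ x2.1) = x3.1 := by
      apply bt_ext
      intro e
      rw [bt_xor, bt_xor]
      by_cases he : ∃ c ∈ codes q, e = c / 2
      · have hf := (fullM_bt q e).2 he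
        obtain ⟨c, hcc, rfl⟩ := he
        have := hone c hcc
        rw [hf]
        unfold One3 at this
        rcases this with ⟨a1, a2, a3⟩ | ⟨a1, a2, a3⟩ | ⟨a1, a2, a3⟩
        · rw [a1, Bool.eq_false_iff.2 a2, Bool.eq_false_iff.2 a3]; decide
        · rw [Bool.eq_false_iff.2 a1, a2, Bool.eq_false_iff.2 a3]; decide
        · rw [Bool.eq_false_iff.2 a1, Bool.eq_false_iff.2 a2, a3]; decide
      · have hf : bt (fullM q) e = false := by
          rw [Bool.eq_false_iff]; intro h; exact he ((fullM_bt q e).1 h)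
        have h1 : bt x1.1 e = false := by
          rw [Bool.eq_false_iff]; intro h; exact he (hbits x1 hx1 e h)
        have h2 : bt x2.1 e = false := by
          rw [Bool.eq_false_iff]; intro h; exact he (hbits x2 hx2 e h)
        have h3 : bt x3.1 e = false := by
          rw [Bool.eq_false_iff]; intro h; exact he (hbits x3 hx3 e h)
        rw [hf, h1, h2, h3]; decide
    have hne : x1.1 ≠ x2.1 := by
      intro h
      rw [← h, Nat.and_self] at hand
      have hv := c1.1.v _ h0P
      have hex : ∃ c ∈ codes q, ι c ∈ C1 := by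
        obtain ⟨w1, w2⟩ := nx_spec hc hq.wok hq.ring.z0
        obtain ⟨w3, w4⟩ := nx_spec hc hq.wok w2
        rcases hv with ⟨h, _, _⟩ | ⟨_, h, _⟩ | ⟨_, _, h⟩
        · exact ⟨0, hq.ring.z0, h⟩
        · exact ⟨_, w2, by rw [← w1]; exact h⟩
        · exact ⟨_, w4, by rw [← w3, ← w1]; exact h⟩
      obtain ⟨c, hcc, hcC⟩ := hex
      have := (m1 c hcc).1 hcC
      rw [hand] at this
      unfold bt at this
      simp at this
    obtain ⟨S1, hS1, hv1S⟩ := look_mem _ _ _ s1
    obtain ⟨S2, hS2, hv2S⟩ := look_mem _ _ _ s2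
    have htrip := hq.trp
    unfold trip at htrip
    have key : v1 ^^^ v2 ≠ v3 := by
      rcases lt_or_gt_of_ne hne with hlt | hlt
      · have h1 := List.all_eq_true.1 (List.all_eq_true.1 htrip _ hS1) _ hS2
        have hcnd : (Nat.blt (x1.1, S1).1 (x2.1, S2).1 &&
            Nat.beq ((x1.1, S1).1 &&& (x2.1, S2).1) 0) = true := by
          rw [Bool.and_eq_true, Nat.blt_eq, Nat.beq_eq]; exact ⟨hlt, hand⟩
        rw [hcnd, cond_true] at h1
        have h2 := List.all_eq_true.1 h1 v3 (by rw [hx3']; exact s3)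
        have h3 := List.all_eq_true.1 (List.all_eq_true.1 h2 v1 hv1S) v2 hv2S
        intro h
        rw [h] at h3
        simp at h3
      · have h1 := List.all_eq_true.1 (List.all_eq_true.1 htrip _ hS2) _ hS1
        have hcnd : (Nat.blt (x2.1, S2).1 (x1.1, S1).1 &&
            Nat.beq ((x2.1, S2).1 &&& (x1.1, S1).1) 0) = true := by
          rw [Bool.and_eq_true, Nat.blt_eq, Nat.beq_eq]
          exact ⟨hlt, by rw [Nat.and_comm]; exact hand⟩
        rw [hcnd, cond_true] at h1
        have h2 := List.all_eq_true.1 h1 v3 (by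
          rw [Nat.xor_comm x2.1 x1.1, hx3']; exact s3)
        have h3 := List.all_eq_true.1 (List.all_eq_true.1 h2 v2 hv2S) v1 hv1S
        intro h
        rw [Nat.xor_comm v2 v1, h] at h3
        simp at h3
    have hx : v1 ^^^ v2 ^^^ v3 ≠ 0 := by
      intro h
      exact key (Nat.xor_eq_zero_iff.1 h)
    obtain ⟨n, hn⟩ := bz_ne hx
    refine ⟨n, ?_⟩
    rw [bz_xor, bz_xor, hv1, hv2, hv3, bz_syn' hq.wok.K15 c t1 n1.1, bz_syn' hq.wok.K15 c t2 n2.1,
      bz_syn' hq.wok.K15 c t3 n3.1] at hn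
    exact hn

end
end Pool.H64.NC
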