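import Mathlib

/-! NC: the certificate checker for wheel patches (definitions only).

Edges of the wheel with sizes `q 0, ..., q (p-1)` are numbered `16 i + k`: `k = 0` the edge between
the hub and the `i`-th face, `k = 1` the `i`-th spoke, `k = 2 ..` the rim edges of the `i`-th face,
`k = 8 ..` the legs of the `i`-th face.  The darts of edge `e` are `2 e` and `2 e + 1` (legs have
only the dart `2 e`). -/

namespace Pool.H64.NC.Code

/-- `i - 1` modulo `p` -/
def pr (p i : ℕ) : ℕ := if i = 0 then p - 1 else i - 1

/-- vertices of the wheel: triples of darts in the order of `σ` -/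
def wV (q : List ℕ) : List (ℕ × ℕ × ℕ) :=
  (List.range q.length).flatMap (fun i =>
    (2 * (16 * i), 2 * (16 * i + 1), 2 * (16 * pr q.length i) + 1) ::
    (2 * (16 * i + 1) + 1, 2 * (16 * i + 2),
      2 * (16 * pr q.length i + 1 + (q.getD (pr q.length i) 0 - 3)) + 1) ::
    (List.range (q.getD i 0 - 4)).map (fun j =>
      (2 * (16 * i + 2 + j) + 1, 2 * (16 * i + 3 + j), 2 * (16 * i + 8 + j))))

/-- legs of the wheel in cyclic order -/
def wL (q : List ℕ) : List ℕ :=
  (List.range q.length).flatMap (fun i =>
    (List.range (q.getD i 0 - 4)).map (fun j => 2 * (16 * i + 8 + j)))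

def isLeg (z : ℕ) : Bool := Nat.ble 8 ((z / 2) % 16)

/-- rotation table, 8 bits per dart -/
def table (V : List (ℕ × ℕ × ℕ)) : ℕ :=
  V.foldl (fun T v => T + (v.2.1 <<< (8 * v.1)) + (v.2.2 <<< (8 * v.2.1)) + (v.1 <<< (8 * v.2.2))) 0

def nx (T x : ℕ) : ℕ := (T >>> (8 * x)) % 256

/-- bit test by arithmetic -/
def bt (b e : ℕ) : Bool := Nat.beq ((b >>> e) % 2) 1

/-- the other used dart at the vertex of the used dart `y` -/
def other (T b y : ℕ) : ℕ :=
  let u := nx T y
  bif bt b (u / 2) then nx T u else u

def enumC : List (ℕ × ℕ × ℕ) → ℕ → ℕ → List ℕ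
  | [], U, _ => [U]
  | v :: V, U, S =>
    let mx := 1 <<< (v.1 / 2)
    let my := 1 <<< (v.2.1 / 2)
    let mz := 1 <<< (v.2.2 / 2)
    (bif Nat.beq ((S &&& mx) + (U &&& my) + (U &&& mz)) 0 then
      enumC V (U ||| mx) (S ||| my ||| mz) else []) ++
    ((bif Nat.beq ((S &&& my) + (U &&& mx) + (U &&& mz)) 0 then
      enumC V (U ||| my) (S ||| mx ||| mz) else []) ++
    (bif Nat.beq ((S &&& mz) + (U &&& mx) + (U &&& my)) 0 then
      enumC V (U ||| mz) (S ||| mx ||| my) else []))

/-- follow the path starting at the used dart `y`; returns the last leg and the visited darts -/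
def walk (T b : ℕ) : ℕ → ℕ → ℕ → ℕ × ℕ
  | 0, y, W => (y, W)
  | n + 1, y, W =>
    let z := other T b y
    let W' := W ||| (1 <<< y) ||| (1 <<< z)
    bif isLeg z then (z, W') else walk T b n (z ^^^ 1) W'

/-- position in a list -/
def pos : List ℕ → ℕ → ℕ
  | [], _ => 0
  | a :: l, x => bif Nat.beq a x then 0 else pos l x + 1

/-- trace (4 bits per leg) and visited darts; `l` remaining legs, `i` position -/
def trc (T b n : ℕ) (L : List ℕ) : List ℕ → ℕ → ℕ → ℕ → ℕ × ℕ
  | [], _, t, W => (t, W)
  | y :: l, i, t, W =>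
    bif bt b (y / 2) then trc T b n L l (i + 1) (t + (i <<< (4 * i))) W
    else
      let r := walk T b n y W
      trc T b n L l (i + 1) (t + (pos L r.1 <<< (4 * i))) r.2

def dig (t i : ℕ) : ℕ := (t >>> (4 * i)) % 16

/-- the visited set `W` is closed under `other` and the edges and contains the used legs -/
def closedW (T b : ℕ) (codes L : List ℕ) (W : ℕ) : Bool :=
  codes.all (fun x => bif bt W x then bt W (other T b x) && (isLeg x || bt W (x ^^^ 1)) else true)
  && L.all (fun x => bt b (x / 2) || bt W x)

/-- all used darts are visited -/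
def covW (b : ℕ) (codes : List ℕ) (W : ℕ) : Bool :=
  codes.all (fun x => bt b (x / 2) || bt W x)

/-- `a + 1` for the last `a < n` whose digit is `i`, or `0` -/
def clm (t i : ℕ) : ℕ → ℕ
  | 0 => 0
  | n + 1 => bif Nat.beq (dig t n) i then n + 1 else clm t i n

/-- the least digit `> i` at a position `< n`, or `K` -/
def lim (K t i : ℕ) : ℕ → ℕ
  | 0 => K
  | n + 1 =>
    let d := dig t n
    let m := lim K t i n
    bif Nat.blt i d && Nat.blt d m then d else m

/-- visited legs of the closed walk through `t` and `s` starting at `x0` -/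
def cyc (t s x0 : ℕ) : ℕ → ℕ → ℕ → ℕ
  | 0, _, W => W
  | n + 1, x, W =>
    let y := dig t x
    let W' := W ||| (1 <<< x) ||| (1 <<< y)
    let x' := dig s y
    bif Nat.beq x' x0 then W' else cyc t s x0 n x' W'

/-- first nonfixed leg `≥ i` (at most `n` steps) -/
def fst (t : ℕ) : ℕ → ℕ → ℕ
  | 0, i => i
  | n + 1, i => bif Nat.beq (dig t i) i then fst t n (i + 1) else i

/-- do `t` and `s` together form a single cycle on the used legs?
`none` if the check is inconclusive -/
def single (K t s : ℕ) : Option Bool :=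
  let x0 := fst t K 0
  let W := cyc t s x0 K x0 0
  bif (List.range K).all (fun i => Nat.beq (dig t i) i || bt W i) then some true
  else bif (List.range K).all (fun i =>
      bif bt W i then bt W (dig t i) && bt W (dig s i) else true) && bt W x0 then
    some false
  else none

inductive Tree
  | leaf : Tree
  | node : Tree → ℕ → ℕ → Tree → Tree

def Tree.find : Tree → ℕ → ℕ
  | .leaf, _ => 0
  | .node l k v r, x => bif Nat.beq x k then v else bif Nat.blt x k then l.find x else r.find x

def Tree.keys : Tree → List ℕ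
  | .leaf => []
  | .node l k _ r => l.keys ++ k :: r.keys

/-- the value of the functional on the type `opn t x` -/
def cval (c : Tree) (t x : ℕ) : ℕ :=
  let y := dig t x
  bif Nat.beq y x then c.find (t + ((15 - x) <<< (4 * x)))
  else c.find (t + ((15 - y) <<< (4 * x)) + (y <<< (4 * y)) - (x <<< (4 * y)))

def syn (c : Tree) (t : ℕ) : ℕ → ℕ
  | 0 => 0
  | n + 1 => syn c t n ^^^ cval c t n

/-- lookup in the table of configurations -/
def look : List (ℕ × List ℕ) → ℕ → List ℕ
  | [], _ => []
  | a :: l, b => bif Nat.beq a.1 b then a.2 else look l b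

/-- the check for one trace `t`; `cs`: the configurations with the same used legs -/
def leafT (c : Tree) (K : ℕ) (tab : List (ℕ × List ℕ)) (t : ℕ) (cs : List (ℕ × ℕ)) : Bool :=
  let r := cs.map (fun x => (x.1, single K t x.2))
  r.all (fun x => x.2.isSome) &&
  match r.filter (fun x => x.2 == some true) with
  | [] => Nat.beq (syn c t K) 0
  | [x] => (look tab x.1).any (fun v => Nat.beq v (syn c t K))
  | _ => true

/-- run over all noncrossing traces -/
def dfsT (c : Tree) (K : ℕ) (tab : List (ℕ × List ℕ)) : ℕ → ℕ → ℕ → List (ℕ × ℕ) → Bool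
  | 0, _, t, cs => leafT c K tab t cs
  | n + 1, i, t, cs =>
    let go := fun j => dfsT c K tab n (i + 1) (t + (j <<< (4 * i)))
          (cs.filter (fun x => Nat.beq (dig x.2 i) i == Nat.beq j i))
    let a := clm t i i
    bif Nat.beq a 0 then
      go i && (List.range (lim K t i i - (i + 1))).all (fun k => go (i + 1 + k))
    else go (a - 1)

/-- the number of elements of `{x, a, b}` strictly between `l` and `l'` is `0` or `3` -/
def sep (x a b l l' : ℕ) : Bool :=
  let f := fun z => Nat.blt l z && Nat.blt z l'
  (f x == f a) && (f x == f b)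

/-- the cocycle check at the key `κ`, open leg `x`, pair `a, b` -/
def cocAB (c : Tree) (K κ x a b : ℕ) : Bool :=
  bif (List.range K).all (fun l =>
      let l' := dig κ l
      Nat.ble l' l || Nat.beq l' 15 || Nat.beq l a || Nat.beq l b || sep x a b l l') then
    -- types with `a` open, `b x` paired, and with `b` open, `a x` paired
    let κa := κ + ((15 - b) <<< (4 * a)) + (x <<< (4 * b)) + (b <<< (4 * x))
      - (a <<< (4 * b)) - (15 <<< (4 * x))
    let κb := κ + ((15 - a) <<< (4 * b)) + (x <<< (4 * a)) + (a <<< (4 * x))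
      - (b <<< (4 * a)) - (15 <<< (4 * x))
    Nat.beq (c.find κ ^^^ (c.find κa ^^^ c.find κb)) 0
  else true

def cocK (c : Tree) (K κ : ℕ) : Bool :=
  (List.range K).all (fun x => bif Nat.beq (dig κ x) 15 then
    (List.range K).all (fun a =>
      let b := dig κ a
      bif Nat.blt a b && Nat.blt b 15 then cocAB c K κ x a b else true) else true)

/-- the check for triples of configurations -/
def trip (full : ℕ) (tab : List (ℕ × List ℕ)) : Bool :=
  tab.all (fun A => tab.all (fun B =>
    bif Nat.blt A.1 B.1 && Nat.beq (A.1 &&& B.1) 0 then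
      (look tab (full ^^^ (A.1 ^^^ B.1))).all (fun w =>
        A.2.all (fun u => B.2.all (fun v => !(Nat.beq (u ^^^ v) w))))
    else true))

end Pool.H64.NC.Code
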