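import Pool.Agent.Helper64.NC.Defs

/-! NC: lemmas on `Conn`, the ends lemma. -/

namespace Pool.H64.NC

open Function

section basic
variable {D : Type*} {s a : D → D}

theorem Conn.refl (x : D) : Conn s a x x := Relation.EqvGen.refl x
theorem Conn.symm {x y : D} (h : Conn s a x y) : Conn s a y x := Relation.EqvGen.symm _ _ h
theorem Conn.trans {x y z : D} (h : Conn s a x y) (h' : Conn s a y z) : Conn s a x z :=
  Relation.EqvGen.trans _ _ _ h h'
theorem Conn.ms (x : D) : Conn s a x (s x) := Relation.EqvGen.rel _ _ (Or.inl rfl)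
theorem Conn.ma (x : D) : Conn s a x (a x) := Relation.EqvGen.rel _ _ (Or.inr rfl)

theorem conn_equiv : Equivalence (Conn s a) := ⟨Conn.refl, Conn.symm, Conn.trans⟩

theorem conn_le {r : D → D → Prop} (hr : Equivalence r) (hs : ∀ x, r x (s x))
    (ha : ∀ x, r x (a x)) {x y : D} (h : Conn s a x y) : r x y := by
  induction h with
  | rel x y h => rcases h with rfl | rfl; exacts [hs _, ha _]
  | refl x => exact hr.refl x
  | symm x y _ ih => exact hr.symm ih
  | trans x y z _ _ ih1 ih2 => exact hr.trans ih1 ih2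

theorem conn_map {D' : Type*} {r : D' → D' → Prop} (hr : Equivalence r) (π : D → D')
    (hs : ∀ x, r (π x) (π (s x))) (ha : ∀ x, r (π x) (π (a x))) {x y : D}
    (h : Conn s a x y) : r (π x) (π y) :=
  conn_le (r := fun x y => r (π x) (π y))
    ⟨fun _ => hr.refl _, fun h => hr.symm h, fun h h' => hr.trans h h'⟩ hs ha h

theorem J_equiv {r : D → D → Prop} (hr : Equivalence r) (x y : D) : Equivalence (J r x y) := by
  have R := @Equivalence.refl _ _ hr
  have S := @Equivalence.symm _ _ hr
  have T := @Equivalence.trans _ _ hr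
  refine ⟨fun z => Or.inl (R z), ?_, ?_⟩
  · rintro z w (h | ⟨h, h'⟩ | ⟨h, h'⟩)
    · exact Or.inl (S h)
    · exact Or.inr (Or.inr ⟨S h', S h⟩)
    · exact Or.inr (Or.inl ⟨S h', S h⟩)
  · rintro z w v (h | ⟨h, h'⟩ | ⟨h, h'⟩) (k | ⟨k, k'⟩ | ⟨k, k'⟩)
    · exact Or.inl (T h k)
    · exact Or.inr (Or.inl ⟨T h k, k'⟩)
    · exact Or.inr (Or.inr ⟨T h k, k'⟩)
    · exact Or.inr (Or.inl ⟨h, T h' k⟩)
    · exact Or.inr (Or.inl ⟨h, k'⟩)
    · exact Or.inl (T h k')
    · exact Or.inr (Or.inr ⟨h, T h' k⟩)
    · exact Or.inl (T h k')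
    · exact Or.inr (Or.inr ⟨h, k'⟩)

theorem J_xy {r : D → D → Prop} (hr : Equivalence r) (x y : D) : J r x y x y :=
  Or.inr (Or.inl ⟨hr.refl _, hr.refl _⟩)

/-- a point fixed by both maps (and not an image) is isolated -/
theorem conn_isolated {x : D} (h1 : ∀ z, s z = x → z = x) (h2 : ∀ z, a z = x → z = x)
    (hs : s x = x) (ha : a x = x) {y : D} (h : Conn s a x y) : y = x := by
  have key : (x = x ↔ y = x) := by
    refine conn_le (r := fun u v => (u = x ↔ v = x)) ?_ ?_ ?_ h
    · exact ⟨fun _ => Iff.rfl, fun h => h.symm, fun h h' => h.trans h'⟩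
    · intro u; constructor
      · rintro rfl; exact hs
      · exact h1 u
    · intro u; constructor
      · rintro rfl; exact ha
      · exact h2 u
  exact key.1 rfl

theorem conn_isolated' {x : D} (hs : Involutive s) (ha : Involutive a)
    (hs1 : s x = x) (ha1 : a x = x) {y : D} (h : Conn s a x y) : y = x :=
  conn_isolated (fun z hz => by rw [← hs z, hz, hs1]) (fun z hz => by rw [← ha z, hz, ha1])
    hs1 ha1 h

end basic

section ends
variable {D : Type*} [Finite D] {s a : D → D}

theorem ends_aux (hs : Involutive s) (ha : Involutive a) {x : D} (hx : s x = x)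
    {y : D} (h : Conn s a x y) : ∃ k : ℕ, y = (fun z => s (a z))^[k] x := by
  set ρ : D → D := fun z => s (a z) with hρ
  have hinj : Injective ρ := fun u v huv => ha.injective (hs.injective huv)
  have hper : ∃ n, 0 < n ∧ ρ^[n] x = x := by
    have := hinj.mem_periodicPts x
    obtain ⟨n, hn, h⟩ := this
    exact ⟨n, hn, h⟩
  obtain ⟨n, hn, hnx⟩ := hper
  -- ρ^[k] (s (ρ^[k] x)) = x
  have hsk : ∀ (k : ℕ) (z : D), ρ^[k] (s (ρ^[k] z)) = s z := by
    intro k
    induction k with
    | zero => intro z; rfl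
    | succ k ih =>
      intro z
      rw [iterate_succ_apply, iterate_succ_apply' (n := k)]
      have : ρ (s (ρ (ρ^[k] z))) = s (ρ^[k] z) := by
        simp only [hρ]
        rw [hs, ha]
      rw [this]; exact ih z
  have hrev : ∀ k : ℕ, ∃ l : ℕ, s (ρ^[k] x) = ρ^[l] x := by
    intro k
    obtain ⟨q, hq⟩ : ∃ q : ℕ, k ≤ q * n := ⟨k, Nat.le_mul_of_pos_right k hn⟩
    refine ⟨q * n - k, ?_⟩
    apply hinj.iterate k
    rw [hsk, hx, ← iterate_add_apply]
    have : k + (q * n - k) = q * n := by omega
    rw [this]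
    have h2 : IsPeriodicPt ρ n x := hnx
    have := h2.const_mul q
    exact this.symm
  refine (conn_le (r := fun u v => (∃ k, u = ρ^[k] x) ↔ (∃ k, v = ρ^[k] x)) ?_ ?_ ?_ h).1 ⟨0, rfl⟩
  · exact ⟨fun _ => Iff.rfl, fun h => h.symm, fun h h' => h.trans h'⟩
  · intro u
    constructor
    · rintro ⟨k, rfl⟩; exact hrev k
    · rintro ⟨k, hk⟩
      obtain ⟨l, hl⟩ := hrev k
      exact ⟨l, by rw [← hl, ← hk, hs]⟩
  · intro u
    -- a z = s (ρ z)
    constructor
    · rintro ⟨k, rfl⟩
      obtain ⟨l, hl⟩ := hrev (k + 1)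
      refine ⟨l, ?_⟩
      rw [← hl, iterate_succ_apply']
      simp only [hρ]
      rw [hs]
    · rintro ⟨k, hk⟩
      obtain ⟨l, hl⟩ := hrev (k + 1)
      refine ⟨l, ?_⟩
      rw [← hl, iterate_succ_apply', ← hk]
      simp only [hρ]
      rw [hs, ha]

/-- the ends lemma: a class with an end has exactly two ends -/
theorem ends (hs : Involutive s) (ha : Involutive a) {x : D} (hx : s x = x) (hax : a x ≠ x) :
    ∃ y, y ≠ x ∧ Conn s a x y ∧ (s y = y ∨ a y = y) ∧
      ∀ z, Conn s a x z → (s z = z ∨ a z = z) → z = x ∨ z = y := by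
  set ρ : D → D := fun z => s (a z) with hρ
  have hinj : Injective ρ := fun u v huv => ha.injective (hs.injective huv)
  have hmem := hinj.mem_periodicPts x
  set n := minimalPeriod ρ x with hn
  have hnpos : 0 < n := minimalPeriod_pos_of_mem_periodicPts hmem
  have hiff : ∀ k, ρ^[k] x = x ↔ n ∣ k := fun k =>
    ⟨fun h => IsPeriodicPt.minimalPeriod_dvd h, fun h => (isPeriodicPt_minimalPeriod ρ x).trans_dvd h⟩
  have hnx : ρ^[n] x = x := isPeriodicPt_minimalPeriod ρ x
  have hsk : ∀ (k : ℕ) (z : D), ρ^[k] (s (ρ^[k] z)) = s z := by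
    intro k
    induction k with
    | zero => intro z; rfl
    | succ k ih =>
      intro z
      rw [iterate_succ_apply, iterate_succ_apply' (n := k)]
      have : ρ (s (ρ (ρ^[k] z))) = s (ρ^[k] z) := by
        simp only [hρ]
        rw [hs, ha]
      rw [this]; exact ih z
  have hak : ∀ (k : ℕ), ρ (ρ^[k] (a (ρ^[k] x))) = x := by
    intro k
    have h1 : ρ^[k] (a (ρ^[k] x)) = a x := by
      induction k with
      | zero => rfl
      | succ k ih =>
        rw [iterate_succ_apply, iterate_succ_apply' (n := k)]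
        have : ρ (a (ρ (ρ^[k] x))) = a (ρ^[k] x) := by
          simp only [hρ]
          rw [ha, hs]
        rw [this]; exact ih
    rw [h1]; simp only [hρ]; rw [ha, hx]
  -- s-fixed: n ∣ 2k; a-fixed: n ∣ 2k+1
  have hsfix : ∀ k, s (ρ^[k] x) = ρ^[k] x ↔ n ∣ 2 * k := by
    intro k
    rw [← hiff]
    constructor
    · intro h
      have := hsk k x
      rw [h, hx, ← iterate_add_apply] at this
      rw [two_mul]; exact this
    · intro h
      apply hinj.iterate k
      rw [hsk, hx, ← iterate_add_apply, ← two_mul, h]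
  have hafix : ∀ k, a (ρ^[k] x) = ρ^[k] x ↔ n ∣ 2 * k + 1 := by
    intro k
    rw [← hiff]
    constructor
    · intro h
      have := hak k
      rw [h, ← iterate_add_apply, ← iterate_succ_apply' ρ] at this
      rw [two_mul]; exact this
    · intro h
      apply hinj.iterate k
      apply hinj
      rw [hak, ← iterate_add_apply, ← iterate_succ_apply' ρ, Nat.succ_eq_add_one, ← two_mul, h]
  have hn1 : n ≠ 1 := by
    intro h1
    have := (hafix 0).2 (by rw [h1])
    exact hax this
  have hmod : ∀ z, Conn s a x z → ∃ k, k < n ∧ z = ρ^[k] x := by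
    intro z hz
    obtain ⟨k, hk⟩ := ends_aux hs ha hx hz
    refine ⟨k % n, Nat.mod_lt _ hnpos, ?_⟩
    rw [hk]
    exact (iterate_mod_minimalPeriod_eq (f := ρ) (x := x) (n := k)).symm
  have hconn : ∀ k, Conn s a x (ρ^[k] x) := by
    intro k
    induction k with
    | zero => exact Conn.refl _
    | succ k ih =>
      rw [iterate_succ_apply']
      exact ih.trans ((Conn.ma _).trans (Conn.ms _))
  rcases Nat.even_or_odd' n with ⟨m, hm | hm⟩
  · refine ⟨ρ^[m] x, ?_, hconn m, Or.inl ((hsfix m).2 (by rw [hm])), ?_⟩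
    · intro h
      rw [hiff] at h
      have := Nat.le_of_dvd (by omega) h
      omega
    · intro z hz hfix
      obtain ⟨k, hk, rfl⟩ := hmod z hz
      rcases hfix with h | h
      · rw [hsfix] at h
        obtain ⟨q, hq⟩ := h
        have hq2 : q < 2 := by
          by_contra hcon
          have : n * 2 ≤ n * q := Nat.mul_le_mul_left n (by omega)
          omega
        interval_cases q
        · left; have : k = 0 := by omega
          rw [this]; rfl
        · right; have : k = m := by omega
          rw [this]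
      · rw [hafix] at h
        obtain ⟨q, hq⟩ := h
        exfalso
        rw [hm, mul_assoc] at hq
        omega
  · have hm0 : 0 < m := by omega
    refine ⟨ρ^[m] x, ?_, hconn m, Or.inr ((hafix m).2 (by rw [hm])), ?_⟩
    · intro h
      rw [hiff] at h
      have := Nat.le_of_dvd (by omega) h
      omega
    · intro z hz hfix
      obtain ⟨k, hk, rfl⟩ := hmod z hz
      rcases hfix with h | h
      · rw [hsfix] at h
        have hcop : Nat.Coprime n 2 := by
          rw [hm]; simp
        have : n ∣ k := by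
          have := (Nat.Coprime.dvd_of_dvd_mul_left hcop) (by rwa [mul_comm] at h ⊢)
          exact this
        left
        have : k = 0 := Nat.eq_zero_of_dvd_of_lt this hk
        rw [this]; rfl
      · rw [hafix] at h
        obtain ⟨q, hq⟩ := h
        have hq2 : q < 2 := by
          by_contra hcon
          have : n * 2 ≤ n * q := Nat.mul_le_mul_left n (by omega)
          omega
        interval_cases q
        · omega
        · right; have : k = m := by omega
          rw [this]

omit [Finite D] in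
theorem conn_comm {x y : D} (h : Conn s a x y) : Conn a s x y :=
  conn_le conn_equiv (fun _ => Conn.ma _) (fun _ => Conn.ms _) h

/-- symmetric form -/
theorem ends' (hs : Involutive s) (ha : Involutive a) {x : D} (hx : s x ≠ x) (hax : a x = x) :
    ∃ y, y ≠ x ∧ Conn s a x y ∧ (s y = y ∨ a y = y) ∧
      ∀ z, Conn s a x z → (s z = z ∨ a z = z) → z = x ∨ z = y := by
  obtain ⟨y, h1, h2, h3, h4⟩ := ends ha hs hax hx
  exact ⟨y, h1, conn_comm h2, h3.symm, fun z hz hf => h4 z (conn_comm hz) hf.symm⟩

end ends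

end Pool.H64.NC
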