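import Mathlib

/-!
Definitions for the project NC (MP_0330b6_co, Nincák's / Cantoni's conjecture on cubic plane
graphs with exactly three Hamilton circuits).
-/

namespace Pool.H64.NC

/-- the equivalence relation generated by `x ~ s x` and `x ~ a x` -/
def Conn {D : Type*} (s a : D → D) : D → D → Prop :=
  Relation.EqvGen (fun x y => y = s x ∨ y = a x)

/-- `J r x y`: the equivalence relation `r` with the classes of `x` and `y` joined -/
def J {D : Type*} (r : D → D → Prop) (x y z w : D) : Prop :=
  r z w ∨ (r z x ∧ r y w) ∨ (r z y ∧ r x w)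

/-- For a set `Z` of unused darts: exchange the two used darts of a vertex `{x, σ x, σ² x}` which
has exactly one unused dart; everything else is fixed. -/
def sw {D : Type*} [DecidableEq D] (σ : D → D) (Z : Finset D) (x : D) : D :=
  if x ∉ Z ∧ σ x ∉ Z ∧ σ (σ x) ∈ Z then σ x
  else if x ∉ Z ∧ σ x ∈ Z ∧ σ (σ x) ∉ Z then σ (σ x) else x

/-- exchange the two ends of every edge both of whose ends are used -/
def ae {D : Type*} [DecidableEq D] (a : D → D) (Z : Finset D) (x : D) : D :=
  if x ∉ Z ∧ a x ∉ Z then a x else x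

/-- exactly one of three propositions -/
def One3 (p q r : Prop) : Prop := (p ∧ ¬ q ∧ ¬ r) ∨ (¬ p ∧ q ∧ ¬ r) ∨ (¬ p ∧ ¬ q ∧ r)

/-- A cubic pole with `K` legs, living on an ambient type `D`.  The darts of the vertices are the
points with `σ x ≠ x`; the legs are the points with `σ x = x` and `a x ≠ x`, enumerated by `m`;
the other points (`σ x = x`, `a x = x`) play no role. -/
structure Pole (K : ℕ) (D : Type*) where
  σ : D → D
  a : D → D
  m : Fin K → D
  σ3 : ∀ x, σ (σ (σ x)) = x
  a2 : ∀ x, a (a x) = x
  am : ∀ x, σ x ≠ x → a x ≠ x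
  leg : ∀ x, (σ x = x ∧ a x ≠ x) ↔ ∃ i, m i = x
  minj : Function.Injective m

namespace Pole

variable {K : ℕ} {D : Type*} [DecidableEq D] (p : Pole K D)

/-- the connectivity relation of a set of unused darts -/
def R (Z : Finset D) : D → D → Prop := Conn (sw p.σ Z) (ae p.a Z)

/-- every vertex has exactly one unused dart -/
def Vx (Z : Finset D) : Prop := ∀ x, p.σ x ≠ x → One3 (x ∈ Z) (p.σ x ∈ Z) (p.σ (p.σ x) ∈ Z)

/-- closed state: every vertex has exactly one unused dart, and an edge is unused or used -/
def Closed (Z : Finset D) : Prop :=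
  p.Vx Z ∧ (∀ x ∈ Z, p.a x ≠ x) ∧ ∀ x, x ∈ Z ↔ p.a x ∈ Z

/-- every used dart of a vertex is connected to a leg -/
def Cov (Z : Finset D) : Prop := ∀ x, p.σ x ≠ x → x ∉ Z → ∃ i, p.R Z x (p.m i)

end Pole

open Classical in
/-- the partner of `i` in a relation on `Fin K` (itself if there is none) -/
noncomputable def part {K : ℕ} (r : Fin K → Fin K → Prop) (i : Fin K) : Fin K :=
  if h : ∃ j, j ≠ i ∧ r i j then h.choose else i

/-- the trace of a set of unused darts: leg `i` is connected to leg `trace i` (`= i` if `i` is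
not connected to another leg) -/
noncomputable def Pole.trace {K : ℕ} {D : Type*} [DecidableEq D] (p : Pole K D) (Z : Finset D) :
    Fin K → Fin K := part (fun i j => p.R Z (p.m i) (p.m j))

/-- open type obtained from a trace `t` and a leg `x`: the leg `x` is open (`none`), its partner
(if different from `x`) becomes unused, everything else is unchanged -/
def opn {K : ℕ} (t : Fin K → Fin K) (x i : Fin K) : Option (Fin K) :=
  if i = x then none else if i = t x then some i else some (t i)

/-- `i` open, `j` and `k` paired, everything else as in `t` -/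
def tri {K : ℕ} (t : Fin K → Fin K) (i j k l : Fin K) : Option (Fin K) :=
  if l = i then none else if l = j then some k else if l = k then some j else some (t l)

namespace Pole
variable {K : ℕ} {D : Type*} [DecidableEq D] (p : Pole K D)

/-- `W` is a state in which the vertex of `u` has three used darts, all other vertices have
exactly one unused dart, and the three darts at the vertex of `u` are connected to the legs
`i`, `j`, `k` -/
structure Tripod (W : Finset D) (u : D) (i j k : Fin K) : Prop where
  hu : p.σ u ≠ u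
  u1 : u ∉ W
  u2 : p.σ u ∉ W
  u3 : p.σ (p.σ u) ∉ W
  vx : ∀ x, p.σ x ≠ x → x ≠ u → x ≠ p.σ u → x ≠ p.σ (p.σ u) →
    One3 (x ∈ W) (p.σ x ∈ W) (p.σ (p.σ x) ∈ W)
  sup : ∀ x ∈ W, p.a x ≠ x
  inv : ∀ x, x ∈ W ↔ p.a x ∈ W
  r1 : p.R W u (p.m i)
  r2 : p.R W (p.σ u) (p.m j)
  r3 : p.R W (p.σ (p.σ u)) (p.m k)
  ij : i ≠ j
  jk : j ≠ k
  ik : i ≠ k

end Pole

end Pool.H64.NC
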