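import Mathlib

/-!
NC-F1 (MP_0330b6_co).  Mod-2 homology of a genus-0 combinatorial map.

`σ`, `α` are permutations of a finite set `D` of darts, `α` a fixed-point-free involution,
the group they generate is transitive, faces are the cycles of `φ = σ α` (i.e. `d ↦ σ (α d)`),
and `V - E + F = 2`.

Claim (`planar_boundary`): every `α`-invariant `h : D → ZMod 2` whose sum over every `σ`-cycle is
zero is `h d = g d + g (α d)` for some `φ`-invariant `g`.

Proof: linear algebra over `ZMod 2` (dimension count).
* `C₁` = α-invariant functions, `dim = |D|/2 = E`.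
* `Z` = those with zero sum over each σ-cycle = kernel of the map `∂ : C₁ → (V → ZMod 2)`.
  By connectedness the only functions `y : V → ZMod 2` with `Σ_v y_v (∂h)_v = 0` for all `h ∈ C₁`
  are the two constants (take `h` = indicator of `{d, α d}`: `y` takes the same value at both ends
  of every edge [for a loop this is trivial]), so `rank ∂ = V - 1` and `dim Z = E - V + 1`.
* `B` = `{g + g ∘ α : g φ-invariant}`: image of a map from a space of dimension `F`, with kernel
  = φ-invariant and α-invariant functions = (φ = σ α) σ- and α-invariant = constants, so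
  `dim B = F - 1`.
* `B ⊆ Z`: for `g` φ-invariant `g (α d) = g (φ (α d)) = g (σ d)`, so
  `Σ_{d ∈ c} (g d + g (α d)) = Σ_{d ∈ c} g d + Σ_{d∈c} g (σ d) = 0` on every σ-cycle `c`.
* Euler's formula gives equality of dimensions, so `B = Z`.
-/

namespace Pool.H64.NC

open Equiv

/-- number of cycles (fixed points included) of a permutation of a finite set -/
noncomputable def ncyc {D : Type*} (π : Perm D) : ℕ :=
  Nat.card (Quotient (Perm.SameCycle.setoid π))

/-- invariant functions -/
def F1_Inv {D : Type*} (π : Perm D) : Submodule (ZMod 2) (D → ZMod 2) where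
  carrier := {g | ∀ d, g (π d) = g d}
  add_mem' := by
    intro f g hf hg d
    rw [Pi.add_apply, Pi.add_apply, hf d, hg d]
  zero_mem' := fun _ => rfl
  smul_mem' := by
    intro c g hg d
    rw [Pi.smul_apply, Pi.smul_apply, hg d]

theorem F1_mem {D : Type*} {π : Perm D} {g : D → ZMod 2} :
    g ∈ F1_Inv π ↔ ∀ d, g (π d) = g d := Iff.rfl

theorem F1_same {D : Type*} {π : Perm D} {g : D → ZMod 2} (hg : ∀ d, g (π d) = g d) {x y : D}
    (h : π.SameCycle x y) : g x = g y := by
  have hn : ∀ (n : ℕ) (d : D), g ((π ^ n) d) = g d := by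
    intro n
    induction n with
    | zero => intro d; simp
    | succ n ih =>
      intro d
      rw [pow_succ, Perm.mul_apply, ih, hg]
  obtain ⟨i, rfl⟩ := h
  obtain ⟨n, rfl | rfl⟩ := i.eq_nat_or_neg
  · rw [zpow_natCast, hn]
  · have h1 := hn n ((π ^ (-(n : ℤ))) x)
    rw [← Perm.mul_apply, ← zpow_natCast, ← zpow_add, add_neg_cancel, zpow_zero,
      Perm.one_apply] at h1
    exact h1

theorem F1_finrank {D : Type*} [Finite D] (π : Perm D) :
    Module.finrank (ZMod 2) (F1_Inv π) = ncyc π := by
  classical
  have : Finite (Quotient (Perm.SameCycle.setoid π)) := Quotient.finite _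
  have : Fintype (Quotient (Perm.SameCycle.setoid π)) := Fintype.ofFinite _
  have hr : LinearMap.range (LinearMap.funLeft (ZMod 2) (ZMod 2)
      (Quotient.mk (Perm.SameCycle.setoid π))) = F1_Inv π := by
    ext g
    rw [LinearMap.mem_range, F1_mem]
    constructor
    · rintro ⟨y, rfl⟩ d
      rw [LinearMap.funLeft_apply, LinearMap.funLeft_apply]
      congr 1
      apply Quotient.sound
      exact Perm.sameCycle_apply_left.mpr (Perm.SameCycle.refl π d)
    · intro hg
      refine ⟨Quotient.lift g fun x y h => F1_same hg h, ?_⟩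
      funext d
      rfl
  rw [← hr, LinearMap.finrank_range_of_inj
    (LinearMap.funLeft_injective_of_surjective _ _ _ Quotient.mk_surjective),
    Module.finrank_fintype_fun_eq_card, ncyc, Nat.card_eq_fintype_card]

/-- the standard bilinear form -/
noncomputable def F1_B (D : Type*) [Fintype D] : LinearMap.BilinForm (ZMod 2) (D → ZMod 2) :=
  LinearMap.mk₂ (ZMod 2) (fun f g => ∑ d, f d * g d)
    (by
      intro f g h
      rw [← Finset.sum_add_distrib]
      exact Finset.sum_congr rfl fun d _ => by rw [Pi.add_apply]; ring)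
    (by
      intro c f g
      rw [smul_eq_mul, Finset.mul_sum]
      exact Finset.sum_congr rfl fun d _ => by rw [Pi.smul_apply, smul_eq_mul]; ring)
    (by
      intro f g h
      rw [← Finset.sum_add_distrib]
      exact Finset.sum_congr rfl fun d _ => by rw [Pi.add_apply]; ring)
    (by
      intro c f g
      rw [smul_eq_mul, Finset.mul_sum]
      exact Finset.sum_congr rfl fun d _ => by rw [Pi.smul_apply, smul_eq_mul]; ring)

theorem F1_B_apply {D : Type*} [Fintype D] (f g : D → ZMod 2) :
    F1_B D f g = ∑ d, f d * g d := rfl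

theorem F1_B_ker (D : Type*) [Fintype D] : LinearMap.ker (F1_B D) = ⊥ := by
  classical
  rw [LinearMap.ker_eq_bot']
  intro f hf
  funext d
  have h1 := congrArg (fun L => L (Pi.single d 1)) hf
  simp only [F1_B_apply, LinearMap.zero_apply] at h1
  rw [Finset.sum_eq_single d] at h1
  · simpa using h1
  · intro b _ hb
    rw [Pi.single_eq_of_ne hb, mul_zero]
  · intro h
    exact absurd (Finset.mem_univ d) h

/-- orthogonal subspaces -/
theorem F1_orth {D : Type*} [Fintype D] (S Z : Submodule (ZMod 2) (D → ZMod 2))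
    (h : ∀ s ∈ S, ∀ z ∈ Z, ∑ d, s d * z d = 0) :
    Module.finrank (ZMod 2) S + Module.finrank (ZMod 2) Z ≤ Fintype.card D := by
  have h1 := LinearMap.BilinForm.finrank_add_finrank_orthogonal' (B := F1_B D) S
  rw [F1_B_ker, inf_bot_eq, finrank_bot, add_zero, Module.finrank_fintype_fun_eq_card] at h1
  have h2 : Z ≤ (F1_B D).orthogonal S := by
    intro z hz s hs
    exact h s hs z hz
  have h3 := Submodule.finrank_mono h2
  omega

/-- the map `g ↦ g + g ∘ α` -/
def F1_T {D : Type*} (α : Perm D) : (D → ZMod 2) →ₗ[ZMod 2] (D → ZMod 2) where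
  toFun g d := g d + g (α d)
  map_add' f g := by
    funext d
    simp only [Pi.add_apply]
    ring
  map_smul' c g := by
    funext d
    simp only [Pi.smul_apply, smul_eq_mul, RingHom.id_apply]
    ring

theorem F1_T_apply {D : Type*} (α : Perm D) (g : D → ZMod 2) (d : D) :
    F1_T α g d = g d + g (α d) := rfl

theorem F1_add_eq_zero (x y : ZMod 2) : x + y = 0 ↔ y = x := by
  revert x y
  decide

theorem F1_ker {D : Type*} (α : Perm D) : LinearMap.ker (F1_T α) = F1_Inv α := by
  ext g
  rw [LinearMap.mem_ker, F1_mem]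
  constructor
  · intro h d
    exact (F1_add_eq_zero _ _).mp (congrFun h d)
  · intro h
    funext d
    exact (F1_add_eq_zero _ _).mpr (h d)

theorem F1_range {D : Type*} [Finite D] (α : Perm D) (hα : ∀ d, α (α d) = d)
    (hα1 : ∀ d, α d ≠ d) : LinearMap.range (F1_T α) = F1_Inv α := by
  classical
  ext g
  rw [LinearMap.mem_range, F1_mem]
  constructor
  · rintro ⟨f, rfl⟩ d
    rw [F1_T_apply, F1_T_apply, hα, add_comm]
  · intro hg
    have : Fintype D := Fintype.ofFinite D
    let e := Fintype.equivFin D
    refine ⟨fun d => if e d < e (α d) then g d else 0, ?_⟩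
    funext d
    rw [F1_T_apply]
    simp only [hα]
    have hne : e d ≠ e (α d) := fun h => hα1 d (e.injective h).symm
    rcases lt_or_gt_of_ne hne with h | h
    · rw [if_pos h, if_neg (not_lt_of_gt h), add_zero]
    · rw [if_neg (not_lt_of_gt h), if_pos h, zero_add, hg]

theorem F1_card {D : Type*} [Fintype D] (α : Perm D) (hα : ∀ d, α (α d) = d)
    (hα1 : ∀ d, α d ≠ d) : 2 * Module.finrank (ZMod 2) (F1_Inv α) = Fintype.card D := by
  have h1 := LinearMap.finrank_range_add_finrank_ker (F1_T α)
  rw [F1_ker, F1_range α hα hα1, Module.finrank_fintype_fun_eq_card] at h1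
  omega

/-- a subspace of constant functions has dimension at most one -/
theorem F1_const {D : Type*} [Finite D] (S : Submodule (ZMod 2) (D → ZMod 2))
    (h : ∀ g ∈ S, ∀ x y, g x = g y) : Module.finrank (ZMod 2) S ≤ 1 := by
  have h1 : S ≤ Submodule.span (ZMod 2) {fun _ => (1 : ZMod 2)} := by
    intro g hg
    rw [Submodule.mem_span_singleton]
    rcases isEmpty_or_nonempty D with hD | ⟨⟨d⟩⟩
    · refine ⟨0, ?_⟩
      funext x
      exact (hD.false x).elim
    · refine ⟨g d, ?_⟩
      funext x
      rw [Pi.smul_apply, smul_eq_mul, mul_one]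
      exact h g hg d x
  refine (Submodule.finrank_mono h1).trans ?_
  refine (finrank_span_le_card _).trans ?_
  simp

open Classical in
theorem planar_boundary {D : Type*} [Fintype D] (σ α : Perm D)
    (hα : ∀ d, α (α d) = d) (hα1 : ∀ d, α d ≠ d)
    (hconn : ∀ S : Set D, S.Nonempty → (∀ d ∈ S, σ d ∈ S ∧ α d ∈ S) → S = Set.univ)
    (heuler : 2 * (ncyc σ + ncyc (σ * α)) = Fintype.card D + 4)
    (h : D → ZMod 2) (h1 : ∀ d, h (α d) = h d)
    (h2 : ∀ d, ∑ x ∈ Finset.univ.filter (fun x => σ.SameCycle d x), h x = 0) :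
    ∃ g : D → ZMod 2, (∀ d, g (σ (α d)) = g d) ∧ ∀ d, h d = g d + g (α d) := by
  have hcst : ∀ g : D → ZMod 2, (∀ d, g (σ d) = g d) → (∀ d, g (α d) = g d) →
      ∀ x y, g x = g y := by
    intro g g1 g2 x y
    have h3 := hconn {d | g d = g y} ⟨y, rfl⟩ (fun d hd => by
      rw [Set.mem_ofPred_eq] at hd
      constructor
      · rw [Set.mem_ofPred_eq, g1, hd]
      · rw [Set.mem_ofPred_eq, g2, hd])
    have h4 : x ∈ {d | g d = g y} := by rw [h3]; exact Set.mem_univ x
    exact h4
  -- the space `Z`
  set Z : Submodule (ZMod 2) (D → ZMod 2) :=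
    F1_Inv α ⊓ (F1_B D).orthogonal (F1_Inv σ) with hZ
  set B : Submodule (ZMod 2) (D → ZMod 2) := (F1_Inv (σ * α)).map (F1_T α) with hB
  have hE := F1_card α hα hα1
  -- pairing of the image of `T` with the invariant functions
  have hTT : ∀ f g : D → ZMod 2, (∀ d, g (α d) = g d) → ∑ d, F1_T α f d * g d = 0 := by
    intro f g hg
    have h3 : ∑ d, f (α d) * g d = ∑ d, f d * g d := by
      rw [← Equiv.sum_comp α (fun d => f d * g d)]
      exact Finset.sum_congr rfl fun d _ => by rw [hg]
    simp only [F1_T_apply, add_mul]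
    rw [Finset.sum_add_distrib, h3]
    exact (F1_add_eq_zero _ _).mpr rfl
  have hdimZ : Module.finrank (ZMod 2) (F1_Inv α ⊔ F1_Inv σ : Submodule (ZMod 2) (D → ZMod 2)) +
      Module.finrank (ZMod 2) Z ≤ Fintype.card D := by
    apply F1_orth
    intro s hs z hz
    obtain ⟨s1, hs1, s2, hs2, rfl⟩ := Submodule.mem_sup.mp hs
    have h3 : ∑ d, s1 d * z d = 0 := by
      have h4 : s1 ∈ LinearMap.range (F1_T α) := by
        rw [F1_range α hα hα1]
        exact hs1
      obtain ⟨f, rfl⟩ := h4
      exact hTT f z hz.1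
    have h4 : ∑ d, s2 d * z d = 0 := hz.2 s2 hs2
    simp only [Pi.add_apply, add_mul]
    rw [Finset.sum_add_distrib, h3, h4, add_zero]
  have hsup := Submodule.finrank_sup_add_finrank_inf_eq (F1_Inv α) (F1_Inv σ)
  have hinf : Module.finrank (ZMod 2) (F1_Inv α ⊓ F1_Inv σ : Submodule (ZMod 2) (D → ZMod 2)) ≤ 1 :=
    F1_const _ fun g hg => hcst g hg.2 hg.1
  have hσ := F1_finrank σ
  have hφ := F1_finrank (σ * α)
  -- dimension of `B`
  have hdimB : Module.finrank (ZMod 2) (F1_Inv (σ * α)) ≤ Module.finrank (ZMod 2) B + 1 := by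
    have h3 := LinearMap.finrank_range_add_finrank_ker ((F1_T α).domRestrict (F1_Inv (σ * α)))
    rw [LinearMap.range_domRestrict] at h3
    have h4 : Module.finrank (ZMod 2)
        (LinearMap.ker ((F1_T α).domRestrict (F1_Inv (σ * α)))) ≤ 1 := by
      have h5 : Module.finrank (ZMod 2) ((LinearMap.ker ((F1_T α).domRestrict
          (F1_Inv (σ * α)))).map (F1_Inv (σ * α)).subtype) ≤ 1 := by
        apply F1_const
        rintro g ⟨⟨g', hg'⟩, hk, rfl⟩
        have hk' : F1_T α g' = 0 := hk
        have h6 : g' ∈ F1_Inv α := by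
          rw [← F1_ker, LinearMap.mem_ker]
          exact hk'
        apply hcst
        · intro d
          have h7 := hg' (α d)
          rw [Perm.mul_apply, hα] at h7
          change g' (σ d) = g' d
          rw [h7]
          exact h6 d
        · exact h6
      rwa [Submodule.finrank_map_subtype_eq] at h5
    rw [hB]
    omega
  have hBZ : B ≤ Z := by
    rintro _ ⟨g, hg, rfl⟩
    constructor
    · have : F1_T α g ∈ LinearMap.range (F1_T α) := ⟨g, rfl⟩
      rwa [F1_range α hα hα1] at this
    · intro y hy
      change ∑ d, y d * F1_T α g d = 0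
      have hgs : ∀ d, g (α d) = g (σ d) := by
        intro d
        have h7 := hg (α d)
        rw [Perm.mul_apply, hα] at h7
        exact h7.symm
      have h3 : ∑ d, y d * g (α d) = ∑ d, y d * g d := by
        rw [← Equiv.sum_comp σ (fun d => y d * g d)]
        exact Finset.sum_congr rfl fun d _ => by rw [hgs, hy]
      simp only [F1_T_apply, mul_add]
      rw [Finset.sum_add_distrib, h3]
      exact (F1_add_eq_zero _ _).mpr rfl
  have hEq : B = Z := Submodule.eq_of_le_of_finrank_le hBZ (by omega)
  have hhZ : h ∈ Z := by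
    refine ⟨h1, ?_⟩
    intro y hy
    change ∑ d, y d * h d = 0
    rw [← Finset.sum_fiberwise Finset.univ (Quotient.mk (Perm.SameCycle.setoid σ))
      (fun d => y d * h d)]
    refine Finset.sum_eq_zero fun v _ => ?_
    obtain ⟨d0, rfl⟩ := Quotient.mk_surjective v
    have h3 : ∀ d ∈ Finset.univ.filter (fun d => Quotient.mk (Perm.SameCycle.setoid σ) d =
        Quotient.mk (Perm.SameCycle.setoid σ) d0), y d * h d = y d0 * h d := by
      intro d hd
      have h4 : σ.SameCycle d d0 := Quotient.exact (Finset.mem_filter.mp hd).2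
      rw [F1_same hy h4]
    rw [Finset.sum_congr rfl h3, ← Finset.mul_sum]
    have h5 : Finset.univ.filter (fun d => Quotient.mk (Perm.SameCycle.setoid σ) d =
        Quotient.mk (Perm.SameCycle.setoid σ) d0) =
        Finset.univ.filter (fun x => σ.SameCycle d0 x) := by
      ext d
      rw [Finset.mem_filter, Finset.mem_filter]
      refine and_congr_right fun _ => ?_
      constructor
      · intro h6
        exact Perm.SameCycle.symm (Quotient.exact h6)
      · intro h6
        exact Quotient.sound (Perm.SameCycle.symm h6)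
    rw [h5, h2, mul_zero]
  rw [← hEq] at hhZ
  obtain ⟨g, hg, hgh⟩ := hhZ
  exact ⟨g, fun d => hg d, fun d => (congrFun hgh d).symm⟩

end Pool.H64.NC
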