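import Pool.Agent.Helper64.NC.Map

/-! NC: the gluing theorem. -/

set_option linter.unusedSectionVars false

namespace Pool.H64.NC

open Function

namespace CubicMap
variable {D : Type*} [DecidableEq D] {M : CubicMap D}

theorem sw_invM (U : Finset D) : Involutive (sw M.σ U) := M.pole0.sw_inv U
theorem ae_invM (U : Finset D) : Involutive (ae M.α U) := M.pole0.ae_inv U

theorem sw_casesM (U : Finset D) (x : D) :
    sw M.σ U x = x ∨ sw M.σ U x = M.σ x ∨ sw M.σ U x = M.σ (M.σ x) := by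
  unfold sw; split_ifs <;> tauto

theorem ae_casesM (U : Finset D) (x : D) : ae M.α U x = x ∨ ae M.α U x = M.α x := by
  unfold ae; split_ifs <;> tauto

namespace Patch
variable {K : ℕ} (T : M.Patch K)

open Classical in
theorem mem_outer {U : Finset D} {x : D} : x ∈ T.outer U ↔ x ∈ U ∧ T.X x := by
  unfold outer; exact Finset.mem_filter
theorem mem_inner {U : Finset D} {x : D} : x ∈ T.inner U ↔ x ∈ U ∧ x ∈ T.P := by
  unfold inner; exact Finset.mem_filter
theorem mem_glue {E C : Finset D} {x : D} :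
    x ∈ T.glue E C ↔ (x ∉ T.P ∧ x ∈ E) ∨ (x ∈ T.P ∧ x ∈ C) := by
  unfold glue; rw [Finset.mem_union, Finset.mem_filter, Finset.mem_filter]; tauto
theorem glue_out {E C : Finset D} {x : D} (h : x ∉ T.P) : x ∈ T.glue E C ↔ x ∈ E := by
  rw [T.mem_glue]; tauto
theorem glue_in {E C : Finset D} {x : D} (h : x ∈ T.P) : x ∈ T.glue E C ↔ x ∈ C := by
  rw [T.mem_glue]; tauto
theorem glue_X {E C : Finset D} (ha : ∀ i, T.m i ∈ E ↔ T.m i ∈ C) {x : D} (h : T.X x) :
    x ∈ T.glue E C ↔ x ∈ E := by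
  rcases h with h | ⟨i, rfl⟩
  · exact T.glue_out h
  · rw [T.glue_in (T.mP i), ha]

theorem σσP {x : D} : M.σ (M.σ x) ∈ T.P ↔ x ∈ T.P := by rw [T.σP', T.σP']

theorem sw_P {U : Finset D} {x : D} : sw M.σ U x ∈ T.P ↔ x ∈ T.P := by
  rcases sw_casesM (M := M) U x with h | h | h <;> rw [h]
  · exact T.σP'
  · exact T.σσP

theorem X_ae {U : Finset D} {x : D} : T.X (ae M.α U x) ↔ T.X x := by
  rcases ae_casesM (M := M) U x with h | h <;> rw [h]
  exact T.Xα'

theorem inP_of_notX {x : D} (h : ¬ T.X x) : x ∈ T.P := (T.notX.1 h).1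

theorem swI_inv (C : Finset D) : Involutive (T.swI C) := by
  intro x
  unfold swI
  by_cases h : x ∈ T.P
  · rw [if_pos h, if_pos (T.sw_P.2 h), sw_invM]
  · rw [if_neg h, if_neg h]

theorem aeI_inv (C : Finset D) : Involutive (T.aeI C) := by
  intro x
  unfold aeI
  by_cases h : T.X x
  · rw [if_pos h, if_pos h]
  · rw [if_neg h, if_neg (fun h' => h (T.X_ae.1 h')), ae_invM]

/-- restriction to the exterior is closed -/
theorem outer_closed {U : Finset D} (h : M.Clo U) : T.ext.Closed (T.outer U) := by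
  refine ⟨?_, ?_, ?_⟩
  · intro x hx
    rw [T.ext_σ_ne] at hx
    have h1 : M.σ x ∉ T.P := fun h' => hx (T.σP'.1 h')
    rw [T.ext_σ_out hx, T.ext_σ_out h1]
    have h2 : M.σ (M.σ x) ∉ T.P := fun h' => h1 (T.σP'.1 h')
    rw [One3.congr (T.mem_outer.trans (and_iff_left (Or.inl hx)))
      (T.mem_outer.trans (and_iff_left (Or.inl h1)))
      (T.mem_outer.trans (and_iff_left (Or.inl h2)))]
    exact h.2 x
  · intro x hx
    rw [T.ext_a_out (T.mem_outer.1 hx).2]
    exact M.α1 x
  · intro x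
    by_cases hX : T.X x
    · rw [T.ext_a_out hX, T.mem_outer, T.mem_outer, ← h.1 x]
      exact and_congr Iff.rfl T.Xα'.symm
    · rw [T.ext_a_in hX]

theorem inner_inner {U : Finset D} (h : M.Clo U) : T.Inner (T.inner U) := by
  refine ⟨fun x hx => (T.mem_inner.1 hx).2, ?_, ?_⟩
  · intro x hx
    rw [One3.congr (T.mem_inner.trans (and_iff_left hx))
      (T.mem_inner.trans (and_iff_left (T.σP'.2 hx)))
      (T.mem_inner.trans (and_iff_left (T.σσP.2 hx)))]
    exact h.2 x
  · intro x hx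
    have hx' : ¬ T.X (M.α x) := fun h' => hx (T.Xα'.1 h')
    rw [T.mem_inner, T.mem_inner, ← h.1 x]
    exact and_congr Iff.rfl (iff_of_true (T.inP_of_notX hx) (T.inP_of_notX hx'))

theorem agree (U : Finset D) (i : Fin K) : T.m i ∈ T.outer U ↔ T.m i ∈ T.inner U := by
  rw [T.mem_outer, T.mem_inner]
  exact and_congr Iff.rfl (iff_of_true (T.X_of_leg i) (T.mP i))

theorem glue_self (U : Finset D) : T.glue (T.outer U) (T.inner U) = U := by
  ext x
  by_cases h : x ∈ T.P
  · rw [T.glue_in h, T.mem_inner]; exact and_iff_left h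
  · rw [T.glue_out h, T.mem_outer]; exact and_iff_left (Or.inl h)

theorem glue_clo {E C : Finset D} (hE : T.ext.Closed E) (hC : T.Inner C)
    (ha : ∀ i, T.m i ∈ E ↔ T.m i ∈ C) : M.Clo (T.glue E C) := by
  constructor
  · intro x
    by_cases hX : T.X x
    · rw [T.glue_X ha hX, T.glue_X ha (T.Xα'.2 hX), hE.2.2 x, T.ext_a_out hX]
    · have hX' : ¬ T.X (M.α x) := fun h' => hX (T.Xα'.1 h')
      rw [T.glue_in (T.inP_of_notX hX), T.glue_in (T.inP_of_notX hX')]
      exact hC.e x hX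
  · intro x
    by_cases h : x ∈ T.P
    · rw [One3.congr (T.glue_in h) (T.glue_in (T.σP'.2 h)) (T.glue_in (T.σσP.2 h))]
      exact hC.v x h
    · have h1 : M.σ x ∉ T.P := fun h' => h (T.σP'.1 h')
      have h2 : M.σ (M.σ x) ∉ T.P := fun h' => h1 (T.σP'.1 h')
      rw [One3.congr (T.glue_out h) (T.glue_out h1) (T.glue_out h2)]
      have := hE.1 x (T.ext_σ_ne.2 h)
      rwa [T.ext_σ_out h, T.ext_σ_out h1] at this

section
variable {E C : Finset D} (hE : T.ext.Closed E) (hC : T.Inner C)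
  (ha : ∀ i, T.m i ∈ E ↔ T.m i ∈ C)

theorem ext_sw_in {x : D} (h : x ∈ T.P) : sw T.ext.σ E x = x := Pole.sw_leg (T.ext_σ_in h)

theorem ext_sw_out {x : D} (h : x ∉ T.P) : sw T.ext.σ E x = sw M.σ (T.glue E C) x := by
  have h1 : M.σ x ∉ T.P := fun h' => h (T.σP'.1 h')
  have h2 : M.σ (M.σ x) ∉ T.P := fun h' => h1 (T.σP'.1 h')
  unfold sw
  rw [T.ext_σ_out h, T.ext_σ_out h1]
  simp only [T.glue_out h, T.glue_out h1, T.glue_out h2]

theorem ext_ae_in {x : D} (h : ¬ T.X x) : ae T.ext.a E x = x := by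
  unfold ae; rw [T.ext_a_in h]; split_ifs <;> rfl

include ha in
theorem ext_ae_out {x : D} (h : T.X x) : ae T.ext.a E x = ae M.α (T.glue E C) x := by
  unfold ae
  rw [T.ext_a_out h]
  simp only [T.glue_X ha h, T.glue_X ha (T.Xα'.2 h)]

theorem swI_in {x : D} (h : x ∈ T.P) : T.swI C x = sw M.σ (T.glue E C) x := by
  unfold swI
  rw [if_pos h]
  unfold sw
  simp only [T.glue_in h, T.glue_in (T.σP'.2 h), T.glue_in (T.σσP.2 h)]

theorem swI_out {x : D} (h : x ∉ T.P) : T.swI C x = x := if_neg h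

theorem aeI_X {x : D} (h : T.X x) : T.aeI C x = x := if_pos h

theorem aeI_in {x : D} (h : ¬ T.X x) : T.aeI C x = ae M.α (T.glue E C) x := by
  have h' : ¬ T.X (M.α x) := fun h' => h (T.Xα'.1 h')
  unfold aeI
  rw [if_neg h]
  unfold ae
  simp only [T.glue_in (T.inP_of_notX h), T.glue_in (T.inP_of_notX h')]

include ha in
theorem Re_le {x y : D} (h : T.ext.R E x y) :
    Conn (sw M.σ (T.glue E C)) (ae M.α (T.glue E C)) x y := by
  refine conn_le conn_equiv ?_ ?_ h
  · intro z
    by_cases hz : z ∈ T.P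
    · rw [T.ext_sw_in hz]; exact Conn.refl _
    · rw [T.ext_sw_out (C := C) hz]; exact Conn.ms _
  · intro z
    by_cases hz : T.X z
    · rw [T.ext_ae_out ha hz]; exact Conn.ma _
    · rw [T.ext_ae_in hz]; exact Conn.refl _

theorem RI_le {x y : D} (h : T.RI C x y) :
    Conn (sw M.σ (T.glue E C)) (ae M.α (T.glue E C)) x y := by
  refine conn_le conn_equiv ?_ ?_ h
  · intro z
    by_cases hz : z ∈ T.P
    · rw [T.swI_in (E := E) hz]; exact Conn.ms _
    · rw [T.swI_out hz]; exact Conn.refl _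
  · intro z
    by_cases hz : T.X z
    · rw [T.aeI_X hz]; exact Conn.refl _
    · rw [T.aeI_in (E := E) hz]; exact Conn.ma _

end

theorem RI_iso {C : Finset D} {x y : D} (hx : x ∈ C) (h : T.RI C x y) : y = x := by
  refine conn_isolated' (T.swI_inv C) (T.aeI_inv C) ?_ ?_ h
  · unfold swI; split_ifs
    · exact M.pole0.sw_mem hx
    · rfl
  · unfold aeI; split_ifs
    · rfl
    · exact M.pole0.ae_mem hx

theorem RI_legs [Finite D] {C : Finset D} (hC : T.Inner C) {k l : Fin K}
    (h : T.RI C (T.m k) (T.m l)) : l = k ∨ l = T.traceI C k := by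
  by_cases hlk : l = k
  · exact Or.inl hlk
  right
  have hk : T.m k ∉ C := fun h' => hlk (T.inj (T.RI_iso h' h))
  have hs : T.swI C (T.m k) ≠ T.m k := by
    unfold swI
    rw [if_pos (T.mP k)]
    exact M.pole0.sw_ne (M.σ1 _) hk (hC.v _ (T.mP k))
  obtain ⟨y, h1, h2, h3, h4⟩ := ends' (T.swI_inv C) (T.aeI_inv C) hs (T.aeI_X (T.X_of_leg k))
  have hu : ∀ j, j ≠ k → T.RI C (T.m k) (T.m j) → T.m j = y := fun j hj hr =>
    (h4 _ hr (Or.inr (T.aeI_X (T.X_of_leg j)))).resolve_left (fun h => hj (T.inj h))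
  symm
  apply part_eq hlk h
  intro j hj hr
  exact T.inj ((hu j hj hr).trans (hu l hlk h).symm)

theorem Re_legs [Finite D] {E : Finset D} (hE : T.ext.Closed E) {k l : Fin K}
    (h : T.ext.R E (T.m k) (T.m l)) : l = k ∨ l = T.ext.trace E k := by
  by_cases hk : T.m k ∈ E
  · left
    exact T.inj (Pole.R_iso (p := T.ext) hk h)
  · exact (Pole.trace_used (p := T.ext) hE (i := k) hk).2.2 l h

theorem Re_trace {E : Finset D} (k : Fin K) : T.ext.R E (T.m k) (T.m (T.ext.trace E k)) := by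
  by_cases h : ∃ j, j ≠ k ∧ T.ext.R E (T.m k) (T.m j)
  · exact (part_spec (r := fun i j => T.ext.R E (T.ext.m i) (T.ext.m j)) h).2
  · have : T.ext.trace E k = k := part_none (fun j hj hr => h ⟨j, hj, hr⟩)
    rw [this]; exact Conn.refl _

theorem RI_trace {C : Finset D} (k : Fin K) : T.RI C (T.m k) (T.m (T.traceI C k)) := by
  by_cases h : ∃ j, j ≠ k ∧ T.RI C (T.m k) (T.m j)
  · exact (part_spec (r := fun i j => T.RI C (T.m i) (T.m j)) h).2
  · have : T.traceI C k = k := part_none (fun j hj hr => h ⟨j, hj, hr⟩)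
    rw [this]; exact Conn.refl _

/-- an invariant set of a relation -/
theorem inv_of {s a : D → D} (hs : Involutive s) (ha : Involutive a) (Q : D → Prop)
    (h1 : ∀ y, Q y → Q (s y)) (h2 : ∀ y, Q y → Q (a y)) {x y : D} (h : Conn s a x y)
    (hx : Q x) : Q y := by
  refine (conn_le (r := fun u v => Q u ↔ Q v) ?_ ?_ ?_ h).1 hx
  · exact ⟨fun _ => Iff.rfl, fun h => h.symm, fun h h' => h.trans h'⟩
  · intro u; exact ⟨h1 u, fun h => by have := h1 _ h; rwa [hs] at this⟩
  · intro u; exact ⟨h2 u, fun h => by have := h2 _ h; rwa [ha] at this⟩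

/-- **Gluing.** -/
theorem glue_ham [Finite D] (hY : ∃ y, y ∉ T.P) (hP : ∃ y, y ∈ T.P) {E C : Finset D}
    (hE : T.ext.Closed E) (hC : T.Inner C) (ha : ∀ i, T.m i ∈ E ↔ T.m i ∈ C) :
    M.Ham (T.glue E C) ↔ T.ext.Cov E ∧ T.CovI C ∧
      ∀ i j, T.m i ∉ C → T.m j ∉ C → Conn (T.ext.trace E) (T.traceI C) i j := by
  have hclo := T.glue_clo hE hC ha
  set U := T.glue E C with hU
  -- a used dart in every vertex
  have hused : ∀ x, ∃ y, y ∉ U ∧ (y = x ∨ y = M.σ x) := by
    intro x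
    rcases hclo.2 x with ⟨_, h, _⟩ | ⟨h, _, _⟩ | ⟨h, _, _⟩
    · exact ⟨_, h, Or.inr rfl⟩
    · exact ⟨_, h, Or.inl rfl⟩
    · exact ⟨_, h, Or.inl rfl⟩
  constructor
  · rintro ⟨-, hham⟩
    refine ⟨?_, ?_, ?_⟩
    · intro x hx hxE
      by_contra hcon
      push Not at hcon
      rw [T.ext_σ_ne] at hx
      have key : ∀ y, Conn (sw M.σ U) (ae M.α U) x y → T.ext.R E x y ∧ y ∉ T.P := by
        intro y hy
        refine inv_of (sw_invM U) (ae_invM U) (fun y => T.ext.R E x y ∧ y ∉ T.P) ?_ ?_ hy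
          ⟨Conn.refl _, hx⟩
        · rintro z ⟨h1, h2⟩
          refine ⟨?_, fun h => h2 (T.sw_P.1 h)⟩
          rw [← T.ext_sw_out h2]; exact h1.trans (Conn.ms _)
        · rintro z ⟨h1, h2⟩
          have h3 : T.ext.R E x (ae M.α U z) := by
            rw [← T.ext_ae_out ha (Or.inl h2)]; exact h1.trans (Conn.ma _)
          refine ⟨h3, fun h => ?_⟩
          have hX : T.X (ae M.α U z) := T.X_ae.2 (Or.inl h2)
          rcases hX with hX | ⟨i, hi⟩
          · exact hX h
          · exact hcon i (by rw [T.ext_m, hi]; exact h3)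
      obtain ⟨q, hq⟩ := hP
      obtain ⟨y, hy, hyq⟩ := hused q
      have hyP : y ∈ T.P := by
        rcases hyq with rfl | rfl
        · exact hq
        · exact T.σP _ hq
      have hxU : x ∉ U := fun h => hxE ((T.glue_out hx).1 h)
      exact (key y (hham x y hxU hy)).2 hyP
    · intro x hx hxC
      by_contra hcon
      push Not at hcon
      have key : ∀ y, Conn (sw M.σ U) (ae M.α U) x y → T.RI C x y ∧ y ∈ T.P := by
        intro y hy
        refine inv_of (sw_invM U) (ae_invM U) (fun y => T.RI C x y ∧ y ∈ T.P) ?_ ?_ hy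
          ⟨Conn.refl _, hx⟩
        · rintro z ⟨h1, h2⟩
          refine ⟨?_, T.sw_P.2 h2⟩
          rw [← T.swI_in h2]; exact h1.trans (Conn.ms _)
        · rintro z ⟨h1, h2⟩
          have hX : ¬ T.X z := by
            rintro (h | ⟨i, hi⟩)
            · exact h h2
            · exact hcon i (by rw [hi]; exact h1)
          refine ⟨?_, ?_⟩
          · rw [← T.aeI_in hX]; exact h1.trans (Conn.ma _)
          · exact T.inP_of_notX (fun h => hX (T.X_ae.1 h))
      obtain ⟨q, hq⟩ := hY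
      obtain ⟨y, hy, hyq⟩ := hused q
      have hyP : y ∉ T.P := by
        rcases hyq with rfl | rfl
        · exact hq
        · exact fun h => hq (T.σP'.1 h)
      have hxU : x ∉ U := fun h => hxC ((T.glue_in hx).1 h)
      exact hyP (key y (hham x y hxU hy)).2
    · intro i j hi hj
      set r := Conn (T.ext.trace E) (T.traceI C) with hr
      have re : ∀ k l, T.ext.R E (T.m k) (T.m l) → r k l := by
        intro k l h
        rcases T.Re_legs hE h with h | h
        · rw [h]; exact Conn.refl _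
        · rw [h]; exact Conn.ms _
      have ri : ∀ k l, T.RI C (T.m k) (T.m l) → r k l := by
        intro k l h
        rcases T.RI_legs hC h with h | h
        · rw [h]; exact Conn.refl _
        · rw [h]; exact Conn.ma _
      have hiU : T.m i ∉ U := fun h => hi ((T.glue_in (T.mP i)).1 h)
      have hjU : T.m j ∉ U := fun h => hj ((T.glue_in (T.mP j)).1 h)
      have key : ∃ k, ((T.X (T.m j) ∧ T.ext.R E (T.m j) (T.m k)) ∨
          (T.m j ∈ T.P ∧ T.RI C (T.m j) (T.m k))) ∧ r i k := by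
        refine inv_of (sw_invM U) (ae_invM U) (fun y => ∃ k, ((T.X y ∧ T.ext.R E y (T.m k)) ∨
          (y ∈ T.P ∧ T.RI C y (T.m k))) ∧ r i k) ?_ ?_ (hham _ _ hiU hjU)
          ⟨i, Or.inr ⟨T.mP i, Conn.refl _⟩, Conn.refl _⟩
        · rintro y ⟨k, hk, hik⟩
          by_cases hy : y ∈ T.P
          · have hz : sw M.σ U y ∈ T.P := T.sw_P.2 hy
            have hyz : T.RI C y (sw M.σ U y) := by
              rw [← T.swI_in hy]; exact Conn.ms _
            rcases hk with ⟨hX, hk⟩ | ⟨_, hk⟩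
            · obtain ⟨l, rfl⟩ := hX.resolve_left (fun h => h hy)
              exact ⟨l, Or.inr ⟨hz, hyz.symm⟩, hik.trans (re _ _ hk).symm⟩
            · exact ⟨k, Or.inr ⟨hz, hyz.symm.trans hk⟩, hik⟩
          · have hk' : T.ext.R E y (T.m k) := by
              rcases hk with ⟨_, hk⟩ | ⟨h, _⟩
              · exact hk
              · exact absurd h hy
            refine ⟨k, Or.inl ⟨Or.inl (fun h => hy (T.sw_P.1 h)), ?_⟩, hik⟩
            have hyz : T.ext.R E y (sw M.σ U y) := by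
              rw [← T.ext_sw_out hy]; exact Conn.ms _
            exact hyz.symm.trans hk'
        · rintro y ⟨k, hk, hik⟩
          by_cases hX : T.X y
          · have hyz : T.ext.R E y (ae M.α U y) := by
              rw [← T.ext_ae_out ha hX]; exact Conn.ma _
            have hXz : T.X (ae M.α U y) := T.X_ae.2 hX
            rcases hk with ⟨_, hk⟩ | ⟨hP, hk⟩
            · exact ⟨k, Or.inl ⟨hXz, hyz.symm.trans hk⟩, hik⟩
            · obtain ⟨l, rfl⟩ := hX.resolve_left (fun h => h hP)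
              exact ⟨l, Or.inl ⟨hXz, hyz.symm⟩, hik.trans (ri _ _ hk).symm⟩
          · have hyz : T.RI C y (ae M.α U y) := by
              rw [← T.aeI_in hX]; exact Conn.ma _
            have hzP : ae M.α U y ∈ T.P := T.inP_of_notX (fun h => hX (T.X_ae.1 h))
            rcases hk with ⟨h, _⟩ | ⟨_, hk⟩
            · exact absurd h hX
            · exact ⟨k, Or.inr ⟨hzP, hyz.symm.trans hk⟩, hik⟩
      obtain ⟨k, hk, hik⟩ := key
      rcases hk with ⟨_, hk⟩ | ⟨_, hk⟩
      · exact hik.trans (re _ _ hk).symm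
      · exact hik.trans (ri _ _ hk).symm
  · rintro ⟨hcE, hcI, htot⟩
    refine ⟨hclo, ?_⟩
    have hleg : ∀ x, x ∉ U → ∃ i, T.m i ∉ C ∧ Conn (sw M.σ U) (ae M.α U) x (T.m i) := by
      intro x hx
      by_cases hxP : x ∈ T.P
      · have hxC : x ∉ C := fun h => hx ((T.glue_in hxP).2 h)
        obtain ⟨i, hi⟩ := hcI x hxP hxC
        refine ⟨i, fun h => ?_, T.RI_le hi⟩
        exact hxC ((T.RI_iso h hi.symm) ▸ h)
      · have hxE : x ∉ E := fun h => hx ((T.glue_out hxP).2 h)
        obtain ⟨i, hi⟩ := hcE x (T.ext_σ_ne.2 hxP) hxE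
        refine ⟨i, fun h => ?_, T.Re_le ha hi⟩
        have h' : T.ext.m i ∈ E := (ha i).2 h
        have := Pole.R_iso' (p := T.ext) h' hi
        rw [this] at hxP
        exact hxP (T.mP i)
    intro x y hx hy
    obtain ⟨i, hi, hxi⟩ := hleg x hx
    obtain ⟨j, hj, hyj⟩ := hleg y hy
    refine hxi.trans (Conn.trans ?_ hyj.symm)
    refine conn_map (r := Conn (sw M.σ U) (ae M.α U)) conn_equiv T.m ?_ ?_ (htot i j hi hj)
    · intro k; exact T.Re_le ha (T.Re_trace k)
    · intro k; exact T.RI_le (T.RI_trace k)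

end Patch
end CubicMap
end Pool.H64.NC
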