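import Pool.Agent.Helper64.NC.ParityD

/-! NC: cubic maps, patches, gluing. -/

set_option linter.unusedSectionVars false

namespace Pool.H64.NC

open Function

/-- a cubic combinatorial map (no planarity yet): `σ` rotates around the vertices, `α` exchanges
the two darts of an edge -/
structure CubicMap (D : Type*) where
  σ : D → D
  α : D → D
  σ3 : ∀ x, σ (σ (σ x)) = x
  σ1 : ∀ x, σ x ≠ x
  α2 : ∀ x, α (α x) = x
  α1 : ∀ x, α x ≠ x

namespace CubicMap
variable {D : Type*} [DecidableEq D] (M : CubicMap D)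

/-- `U` (unused darts) is a perfect matching -/
def Clo (U : Finset D) : Prop :=
  (∀ x, x ∈ U ↔ M.α x ∈ U) ∧ ∀ x, One3 (x ∈ U) (M.σ x ∈ U) (M.σ (M.σ x) ∈ U)

/-- the complement of `U` is a Hamilton circuit -/
def Ham (U : Finset D) : Prop :=
  M.Clo U ∧ ∀ x y, x ∉ U → y ∉ U → Conn (sw M.σ U) (ae M.α U) x y

/-- a patch: a set of vertices, with `K` darts `m i` through which it is joined to the rest
(two legs may be the two darts of one edge) -/
structure Patch (K : ℕ) where
  P : Finset D
  m : Fin K → D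
  mP : ∀ i, m i ∈ P
  inj : Injective m
  σP : ∀ x ∈ P, M.σ x ∈ P
  αP : ∀ x ∈ P, (∀ i, m i ≠ x) → M.α x ∈ P ∧ ∀ i, m i ≠ M.α x

end CubicMap

namespace CubicMap
variable {D : Type*} [DecidableEq D] {M : CubicMap D}

theorem σinj : Injective M.σ := fun x y h => by
  have := congrArg M.σ (congrArg M.σ h); rwa [M.σ3, M.σ3] at this
theorem αinj : Injective M.α := (show Involutive M.α from M.α2).injective
theorem σσ1 (x : D) : M.σ (M.σ x) ≠ x := fun h' => M.σ1 x (by
  have := M.σ3 x; rw [h'] at this; exact this)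
theorem σσ2 (x : D) : M.σ (M.σ x) ≠ M.σ x := fun h' => M.σ1 x (M.σinj h')

/-- the whole map as a pole without legs (to use the lemmas on `sw`, `ae`) -/
def pole0 (M : CubicMap D) : Pole 0 D where
  σ := M.σ
  a := M.α
  m := fun i => i.elim0
  σ3 := M.σ3
  a2 := M.α2
  am := fun x _ => M.α1 x
  leg := fun x => ⟨fun h => absurd h.1 (M.σ1 x), fun ⟨i, _⟩ => i.elim0⟩
  minj := fun i => i.elim0

namespace Patch
variable {K : ℕ} (T : M.Patch K)

theorem σP' {x : D} : M.σ x ∈ T.P ↔ x ∈ T.P :=
  ⟨fun h => by have := T.σP _ (T.σP _ h); rwa [M.σ3] at this, T.σP x⟩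

/-- the outer darts: those outside `P` and the legs -/
def X (x : D) : Prop := x ∉ T.P ∨ ∃ i, T.m i = x

theorem Xα {x : D} (h : T.X x) : T.X (M.α x) := by
  by_contra hcon
  unfold X at hcon
  rw [not_or, not_not] at hcon
  obtain ⟨h1, h2⟩ := hcon
  push Not at h2
  obtain ⟨h3, h4⟩ := T.αP _ h1 h2
  rw [M.α2] at h3 h4
  rcases h with h | ⟨i, hi⟩
  · exact h h3
  · exact h4 i hi

theorem Xα' {x : D} : T.X (M.α x) ↔ T.X x :=
  ⟨fun h => by have := T.Xα h; rwa [M.α2] at this, T.Xα⟩

theorem X_of_leg (i : Fin K) : T.X (T.m i) := Or.inr ⟨i, rfl⟩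

theorem notX {x : D} : ¬ T.X x ↔ x ∈ T.P ∧ ∀ i, T.m i ≠ x := by
  unfold X; push Not; rfl

open Classical in
/-- the exterior of a patch as a pole -/
noncomputable def ext : Pole K D where
  σ := fun x => if x ∈ T.P then x else M.σ x
  a := fun x => if T.X x then M.α x else x
  m := T.m
  σ3 := by
    intro x
    by_cases h : x ∈ T.P
    · simp only [if_pos h]
    · have h1 : M.σ x ∉ T.P := fun h' => h (T.σP'.1 h')
      have h2 : M.σ (M.σ x) ∉ T.P := fun h' => h1 (T.σP'.1 h')
      simp only [if_neg h, if_neg h1, if_neg h2, M.σ3]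
  a2 := by
    intro x
    by_cases h : T.X x
    · simp only [if_pos h, if_pos (T.Xα h), M.α2]
    · simp only [if_neg h]
  am := by
    intro x hx
    have h : x ∉ T.P := fun h => hx (if_pos h)
    have h' : T.X x := Or.inl h
    simp only [if_pos h']
    exact M.α1 x
  leg := by
    intro x
    constructor
    · rintro ⟨h1, h2⟩
      have hX : T.X x := by by_contra h; exact h2 (if_neg h)
      have hP : x ∈ T.P := by
        by_contra h
        simp only [if_neg h] at h1
        exact M.σ1 x h1
      exact hX.resolve_left (fun h => h hP)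
    · rintro ⟨i, rfl⟩
      refine ⟨if_pos (T.mP i), ?_⟩
      simp only [if_pos (T.X_of_leg i)]
      exact M.α1 _
  minj := T.inj

theorem ext_σ_in {x : D} (h : x ∈ T.P) : T.ext.σ x = x := if_pos h
theorem ext_σ_out {x : D} (h : x ∉ T.P) : T.ext.σ x = M.σ x := if_neg h
theorem ext_a_in {x : D} (h : ¬ T.X x) : T.ext.a x = x := if_neg h
theorem ext_a_out {x : D} (h : T.X x) : T.ext.a x = M.α x := if_pos h
theorem ext_σ_ne {x : D} : T.ext.σ x ≠ x ↔ x ∉ T.P := by
  constructor
  · intro h h'; exact h (T.ext_σ_in h')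
  · intro h; rw [T.ext_σ_out h]; exact M.σ1 x
theorem ext_m (i : Fin K) : T.ext.m i = T.m i := rfl

/-- inner configuration -/
structure Inner (C : Finset D) : Prop where
  sub : ∀ x ∈ C, x ∈ T.P
  v : ∀ x ∈ T.P, One3 (x ∈ C) (M.σ x ∈ C) (M.σ (M.σ x) ∈ C)
  e : ∀ x, ¬ T.X x → (x ∈ C ↔ M.α x ∈ C)

/-- swap at the vertices of the patch -/
def swI (C : Finset D) (x : D) : D := if x ∈ T.P then sw M.σ C x else x

open Classical in
/-- follow the inner edges of the patch -/
noncomputable def aeI (C : Finset D) (x : D) : D := if T.X x then x else ae M.α C x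

/-- connection inside the patch -/
def RI (C : Finset D) : D → D → Prop := Conn (T.swI C) (T.aeI C)

/-- every used dart of the patch is connected to a leg inside the patch -/
def CovI (C : Finset D) : Prop := ∀ x ∈ T.P, x ∉ C → ∃ i, T.RI C x (T.m i)

noncomputable def traceI (C : Finset D) : Fin K → Fin K :=
  part (fun i j => T.RI C (T.m i) (T.m j))

open Classical in
/-- outer part of a set of unused darts -/
noncomputable def outer (U : Finset D) : Finset D := U.filter (fun x => T.X x)

/-- inner part -/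
def inner (U : Finset D) : Finset D := U.filter (fun x => x ∈ T.P)

/-- glue an outer and an inner state -/
def glue (E C : Finset D) : Finset D := E.filter (fun x => x ∉ T.P) ∪ C.filter (fun x => x ∈ T.P)

end Patch
end CubicMap
end Pool.H64.NC
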