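import Pool.Agent.Helper64.NC.Smith

/-! NC: the abstract certificate theorem. -/

set_option linter.unusedSectionVars false

namespace Pool.H64.NC

open Function

namespace CubicMap
variable {D : Type*} [DecidableEq D] {M : CubicMap D}

/-- exactly three Hamilton circuits -/
def Three (M : CubicMap D) : Prop := ∃ U1 U2 U3 : Finset D, M.Ham U1 ∧ M.Ham U2 ∧ M.Ham U3 ∧
  U1 ≠ U2 ∧ U1 ≠ U3 ∧ U2 ≠ U3 ∧ ∀ U, M.Ham U → U = U1 ∨ U = U2 ∨ U = U3

namespace Patch
variable {K : ℕ} (T : M.Patch K)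

/-- the inner configuration `C` completes an exterior with trace `t` to a Hamilton circuit -/
def Compl (t : Fin K → Fin K) (C : Finset D) : Prop :=
  T.Inner C ∧ (∀ i, T.m i ∈ C ↔ t i = i) ∧ T.CovI C ∧
    ∀ i j, T.m i ∉ C → T.m j ∉ C → Conn t (T.traceI C) i j

theorem mem_iff_trace [Finite D] {E : Finset D} (hE : T.ext.Closed E) (i : Fin K) :
    T.m i ∈ E ↔ T.ext.trace E i = i := by
  constructor
  · intro h; exact Pole.trace_mem (p := T.ext) h
  · intro h
    by_contra h'
    exact (Pole.trace_used (p := T.ext) hE h').1 h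

theorem outer_glue {E C : Finset D} (hE : T.ext.Closed E) (ha : ∀ i, T.m i ∈ E ↔ T.m i ∈ C) :
    T.outer (T.glue E C) = E := by
  ext x
  rw [T.mem_outer]
  constructor
  · rintro ⟨h1, h2⟩; exact (T.glue_X ha h2).1 h1
  · intro h
    have hX : T.X x := by
      by_contra hX
      exact hE.2.1 x h (T.ext_a_in hX)
    exact ⟨(T.glue_X ha hX).2 h, hX⟩

theorem inner_glue {E C : Finset D} (hC : T.Inner C) : T.inner (T.glue E C) = C := by
  ext x
  rw [T.mem_inner]
  constructor
  · rintro ⟨h1, h2⟩; exact (T.glue_in h2).1 h1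
  · intro h; exact ⟨(T.glue_in (hC.sub x h)).2 h, hC.sub x h⟩

theorem glue_compl [Finite D] (hY : ∃ y, y ∉ T.P) (hP : ∃ y, y ∈ T.P) {E C : Finset D}
    (hE : T.ext.Closed E) (hcov : T.ext.Cov E) (hC : T.Compl (T.ext.trace E) C) :
    M.Ham (T.glue E C) ∧ ∀ i, T.m i ∈ E ↔ T.m i ∈ C := by
  obtain ⟨h1, h2, h3, h4⟩ := hC
  have ha : ∀ i, T.m i ∈ E ↔ T.m i ∈ C := fun i => (T.mem_iff_trace hE i).trans (h2 i).symm
  exact ⟨(T.glue_ham hY hP hE h1 ha).2 ⟨hcov, h3, h4⟩, ha⟩

theorem ham_compl [Finite D] (hY : ∃ y, y ∉ T.P) (hP : ∃ y, y ∈ T.P) {U : Finset D}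
    (hU : M.Ham U) : T.ext.Closed (T.outer U) ∧ T.ext.Cov (T.outer U) ∧
      T.Compl (T.ext.trace (T.outer U)) (T.inner U) := by
  have hE := T.outer_closed hU.1
  have hC := T.inner_inner hU.1
  have ha := T.agree U
  obtain ⟨h1, h2, h3⟩ := (T.glue_ham hY hP hE hC ha).1 (by rw [T.glue_self]; exact hU)
  exact ⟨hE, h1, hC, fun i => (ha i).symm.trans (T.mem_iff_trace hE i), h2, h3⟩

open Classical in
/-- The abstract certificate theorem. `NCt`, `NCtri`: properties of the traces and tripods of the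
exterior (noncrossing). -/
theorem no_three [Fintype D] (hY : ∃ y, y ∉ T.P) (hP : ∃ y, y ∈ T.P)
    (NCt : (Fin K → Fin K) → Prop) (NCtri : (Fin K → Fin K) → Fin K → Fin K → Fin K → Prop)
    (nct : ∀ E, T.ext.Closed E → NCt (T.ext.trace E))
    (nctri : ∀ W u i j k, T.ext.Tripod W u i j k → NCtri (T.ext.trace W) i j k)
    (c : ℕ → (Fin K → Option (Fin K)) → ZMod 2)
    (hc : ∀ n t i j k, NCtri t i j k → c n (tri t i j k) + c n (tri t j k i) +
      c n (tri t k i j) = 0)
    (hM : ∀ t, NCt t → (∀ n, ∑ x, c n (opn t x) = 0) ∨ ∃ C, T.Compl t C)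
    (h3 : ∀ C1 C2 C3 t1 t2 t3, NCt t1 → NCt t2 → NCt t3 →
      T.Compl t1 C1 → T.Compl t2 C2 → T.Compl t3 C3 →
      (∀ x ∈ T.P, One3 (x ∈ C1) (x ∈ C2) (x ∈ C3)) →
      (∀ C, T.Compl t1 C → C = C1) → (∀ C, T.Compl t2 C → C = C2) →
      (∀ C, T.Compl t3 C → C = C3) →
      ∃ n, ∑ x, c n (opn t1 x) + ∑ x, c n (opn t2 x) + ∑ x, c n (opn t3 x) ≠ 0) :
    ¬ M.Three := by
  rintro ⟨U1, U2, U3, hU1, hU2, hU3, h12, h13, h23, hall⟩
  have hone := three_one hU1 hU2 hU3 h12 h13 h23 hall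
  obtain ⟨e1, cv1, cp1⟩ := T.ham_compl hY hP hU1
  obtain ⟨e2, cv2, cp2⟩ := T.ham_compl hY hP hU2
  obtain ⟨e3, cv3, cp3⟩ := T.ham_compl hY hP hU3
  -- exteriors are distinct
  have hdist : ∀ V V' : Finset D, M.Ham V → (∀ d, ¬ (d ∈ V ∧ d ∈ V')) →
      T.outer V ≠ T.outer V' := by
    intro V V' hV hd heq
    obtain ⟨y, hy⟩ := hY
    have h1 : M.σ y ∉ T.P := fun h' => hy (T.σP'.1 h')
    have h2 : M.σ (M.σ y) ∉ T.P := fun h' => h1 (T.σP'.1 h')
    have key : ∀ z, z ∉ T.P → z ∉ V := by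
      intro z hz hzV
      have : z ∈ T.outer V := T.mem_outer.2 ⟨hzV, Or.inl hz⟩
      rw [heq] at this
      exact hd z ⟨hzV, (T.mem_outer.1 this).1⟩
    have := hV.1.2 y
    have k0 := key y hy
    have k1 := key _ h1
    have k2 := key _ h2
    unfold One3 at this
    tauto
  have d12 : T.outer U1 ≠ T.outer U2 := hdist U1 U2 hU1 (fun d => by
    have := hone d; unfold One3 at this; tauto)
  have d13 : T.outer U1 ≠ T.outer U3 := hdist U1 U3 hU1 (fun d => by
    have := hone d; unfold One3 at this; tauto)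
  have d23 : T.outer U2 ≠ T.outer U3 := hdist U2 U3 hU2 (fun d => by
    have := hone d; unfold One3 at this; tauto)
  -- a completed exterior is one of the three
  have hcomp : ∀ E C, T.ext.Closed E → T.ext.Cov E → T.Compl (T.ext.trace E) C →
      (E = T.outer U1 ∧ C = T.inner U1) ∨ (E = T.outer U2 ∧ C = T.inner U2) ∨
        (E = T.outer U3 ∧ C = T.inner U3) := by
    intro E C hE hcov hC
    obtain ⟨hh, ha⟩ := T.glue_compl hY hP hE hcov hC
    have ho := T.outer_glue hE ha
    have hi := T.inner_glue (E := E) hC.1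
    rcases hall _ hh with h | h | h
    · left; rw [← h, ho, hi]; exact ⟨rfl, rfl⟩
    · right; left; rw [← h, ho, hi]; exact ⟨rfl, rfl⟩
    · right; right; rw [← h, ho, hi]; exact ⟨rfl, rfl⟩
  obtain ⟨n, hn⟩ := h3 (T.inner U1) (T.inner U2) (T.inner U3) _ _ _ (nct _ e1) (nct _ e2)
    (nct _ e3) cp1 cp2 cp3
    (fun x hx => by
      rw [One3.congr (T.mem_inner.trans (and_iff_left hx)) (T.mem_inner.trans (and_iff_left hx))
        (T.mem_inner.trans (and_iff_left hx))]
      exact hone x)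
    (fun C hC => by
      rcases hcomp _ C e1 cv1 hC with h | h | h
      · exact h.2
      · exact absurd h.1 d12
      · exact absurd h.1 d13)
    (fun C hC => by
      rcases hcomp _ C e2 cv2 hC with h | h | h
      · exact absurd h.1 d12.symm
      · exact h.2
      · exact absurd h.1 d23)
    (fun C hC => by
      rcases hcomp _ C e3 cv3 hC with h | h | h
      · exact absurd h.1 d13.symm
      · exact absurd h.1 d23.symm
      · exact h.2)
  apply hn
  have hpar := Pole.parity T.ext (c n) (fun W u i j k h => hc n _ i j k (nctri W u i j k h))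
  have hsub : ∑ Z ∈ ({T.outer U1, T.outer U2, T.outer U3} : Finset (Finset D)),
      ∑ x, c n (opn (T.ext.trace Z) x) =
      ∑ Z : Finset D with T.ext.Closed Z ∧ T.ext.Cov Z, ∑ x, c n (opn (T.ext.trace Z) x) := by
    apply Finset.sum_subset
    · intro Z hZ
      simp only [Finset.mem_insert, Finset.mem_singleton] at hZ
      rw [Finset.mem_filter]
      refine ⟨Finset.mem_univ _, ?_⟩
      rcases hZ with rfl | rfl | rfl
      · exact ⟨e1, cv1⟩
      · exact ⟨e2, cv2⟩
      · exact ⟨e3, cv3⟩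
    · intro Z hZ hZ'
      obtain ⟨hcl, hcov⟩ := (Finset.mem_filter.1 hZ).2
      rcases hM _ (nct Z hcl) with h | ⟨C, hC⟩
      · exact h n
      · exfalso
        apply hZ'
        simp only [Finset.mem_insert, Finset.mem_singleton]
        rcases hcomp Z C hcl hcov hC with h | h | h
        · exact Or.inl h.1
        · exact Or.inr (Or.inl h.1)
        · exact Or.inr (Or.inr h.1)
  rw [← hsub] at hpar
  rw [Finset.sum_insert, Finset.sum_insert, Finset.sum_singleton, ← add_assoc] at hpar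
  · exact hpar
  · simpa using d23
  · simp [d12, d13]

end Patch
end CubicMap
end Pool.H64.NC
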