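import Pool.Agent.Helper64.NC.Code
import Pool.Agent.Helper64.NC.Conn

/-! NC: packed functions (4 bits per value). -/

namespace Pool.H64.NC.Code

/-- pack the values `f 0, ..., f (n-1)`, 4 bits each -/
def pack (f : ℕ → ℕ) : ℕ → ℕ
  | 0 => 0
  | n + 1 => pack f n + (f n <<< (4 * n))

/-- a function on `Fin K` as a function on `ℕ` -/
def ext0 {K : ℕ} (t : Fin K → Fin K) (i : ℕ) : ℕ := if h : i < K then (t ⟨i, h⟩).val else 0

/-- digits of an open type: `15` for the open leg -/
def extO {K : ℕ} (o : Fin K → Option (Fin K)) (i : ℕ) : ℕ :=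
  if h : i < K then (match o ⟨i, h⟩ with
    | none => 15
    | some j => j.val) else 0

end Pool.H64.NC.Code
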