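import Pool.Agent.Helper64.NC.State

/-! NC: the parity theorem, part A (states with one broken edge). -/

set_option linter.unusedSectionVars false

namespace Pool.H64.NC

open Function

namespace Pole
variable {K : ℕ} {D : Type*} [DecidableEq D] (p : Pole K D)

open Classical in
/-- type of a state with base point `b` -/
noncomputable def otype (Z : Finset D) (b : D) : Fin K → Option (Fin K) := fun i =>
  if p.R Z (p.m i) b then none else some (p.trace Z i)

/-- exactly one edge `{e, a e}` is broken -/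
def Broken (Z : Finset D) (e : D) : Prop :=
  p.Vx Z ∧ (∀ x ∈ Z, p.a x ≠ x) ∧ p.a e ≠ e ∧ ¬ (e ∈ Z ↔ p.a e ∈ Z) ∧
    ∀ x, x ≠ e → x ≠ p.a e → (x ∈ Z ↔ p.a x ∈ Z)

/-- the used half of the broken edge -/
def half (Z : Finset D) (e : D) : D := if e ∈ Z then p.a e else e

open Classical in
noncomputable def F (c : (Fin K → Option (Fin K)) → ZMod 2) (Z : Finset D) (e : D) : ZMod 2 :=
  if p.Broken Z e ∧ p.Cov Z then c (p.otype Z (p.half Z e)) else 0

/-- toggle `e` -/
def tog (W : Finset D) (e : D) : Finset D := if e ∈ W then W.erase e else insert e W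

/-- `W` is a union of edges -/
def Inv (W : Finset D) : Prop := (∀ x ∈ W, p.a x ≠ x) ∧ ∀ x, x ∈ W ↔ p.a x ∈ W

end Pole

theorem mem_tog {D : Type*} [DecidableEq D] {W : Finset D} {e x : D} (h : x ≠ e) :
    x ∈ Pole.tog W e ↔ x ∈ W := by
  unfold Pole.tog; split_ifs <;> simp [h]

theorem mem_tog_self {D : Type*} [DecidableEq D] {W : Finset D} {e : D} :
    e ∈ Pole.tog W e ↔ e ∉ W := by
  unfold Pole.tog; split_ifs with h <;> simp [h]

theorem tog_tog {D : Type*} [DecidableEq D] (W : Finset D) (e : D) :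
    Pole.tog (Pole.tog W e) e = W := by
  ext x
  by_cases hx : x = e
  · subst hx; rw [mem_tog_self, mem_tog_self, not_not]
  · rw [mem_tog hx, mem_tog hx]

namespace Pole
variable {K : ℕ} {D : Type*} [DecidableEq D] {p : Pole K D}

theorem broken_a {Z : Finset D} {e : D} (h : p.Broken Z e) : p.Broken Z (p.a e) := by
  obtain ⟨h1, h2, h3, h4, h5⟩ := h
  refine ⟨h1, h2, ?_, ?_, ?_⟩
  · rw [p.a2]; exact fun h => h3 h.symm
  · rw [p.a2]; exact fun h => h4 h.symm
  · intro x hx1 hx2; rw [p.a2] at hx2; exact h5 x hx2 hx1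

theorem half_a {Z : Finset D} {e : D} (h : p.Broken Z e) : p.half Z (p.a e) = p.half Z e := by
  obtain ⟨h1, h2, h3, h4, h5⟩ := h
  unfold half
  rw [p.a2]
  by_cases h : e ∈ Z
  · have : p.a e ∉ Z := fun h' => h4 ⟨fun _ => h', fun _ => h⟩
    rw [if_neg this, if_pos h]
  · have : p.a e ∈ Z := by
      by_contra h'
      exact h4 ⟨fun k => absurd k h, fun k => absurd k h'⟩
    rw [if_pos this, if_neg h]

theorem F_a (c : (Fin K → Option (Fin K)) → ZMod 2) (Z : Finset D) (e : D) :
    p.F c Z (p.a e) = p.F c Z e := by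
  unfold F
  by_cases h : p.Broken Z e
  · by_cases h2 : p.Cov Z
    · rw [if_pos ⟨broken_a h, h2⟩, if_pos ⟨h, h2⟩, half_a h]
    · rw [if_neg (fun k => h2 k.2), if_neg (fun k => h2 k.2)]
  · rw [if_neg (fun k => h (by have := broken_a k.1; rwa [p.a2] at this)),
      if_neg (fun k => h k.1)]

theorem broken_tog {W : Finset D} {e : D} :
    p.Broken (tog W e) e ↔ p.a e ≠ e ∧ p.Inv W ∧ p.Vx (tog W e) := by
  constructor
  · rintro ⟨h1, h2, h3, h4, h5⟩
    refine ⟨h3, ⟨?_, ?_⟩, h1⟩
    · intro x hx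
      by_cases hxe : x = e
      · subst hxe; exact h3
      · exact h2 x ((mem_tog hxe).2 hx)
    · have key : e ∈ W ↔ p.a e ∈ W := by
        rw [mem_tog_self, mem_tog h3] at h4; tauto
      intro x
      by_cases hxe : x = e
      · subst hxe; exact key
      · by_cases hxe' : x = p.a e
        · subst hxe'; rw [p.a2]; exact key.symm
        · have := h5 x hxe hxe'
          rw [mem_tog hxe, mem_tog (fun h => hxe' (by rw [← h, p.a2]))] at this
          exact this
  · rintro ⟨h3, ⟨hi1, hi2⟩, h1⟩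
    refine ⟨h1, ?_, h3, ?_, ?_⟩
    · intro x hx
      by_cases hxe : x = e
      · subst hxe; exact h3
      · exact hi1 x ((mem_tog hxe).1 hx)
    · rw [mem_tog_self, mem_tog h3, ← hi2 e]; tauto
    · intro x hxe hxe'
      rw [mem_tog hxe, mem_tog (fun h => hxe' (by rw [← h, p.a2]))]
      exact hi2 x

theorem half_tog {W : Finset D} {e : D} : p.half (tog W e) e = if e ∈ W then e else p.a e := by
  unfold half
  by_cases h : e ∈ W
  · rw [if_pos h, if_neg (fun h' => (mem_tog_self.1 h') h)]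
  · rw [if_neg h, if_pos (mem_tog_self.2 h)]

open Classical in
/-- total sum is zero -/
theorem total_zero [Fintype D] (c : (Fin K → Option (Fin K)) → ZMod 2) :
    ∑ W : Finset D, ∑ e : D, p.F c (tog W e) e = 0 := by
  rw [← Finset.univ.sum_product' Finset.univ (fun (W : Finset D) (e : D) => p.F c (tog W e) e)]
  refine Finset.sum_involution (fun (q : Finset D × D) _ => (tog (tog q.1 q.2) (p.a q.2), p.a q.2))
    ?_ ?_ ?_ ?_
  · rintro ⟨W, e⟩ _
    simp only
    rw [tog_tog, F_a]
    exact CharTwo.add_self_eq_zero _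
  · rintro ⟨W, e⟩ _ hne heq
    simp only at hne
    have : p.a e = e := congrArg Prod.snd heq
    apply hne
    unfold F
    rw [if_neg]
    rintro ⟨⟨_, _, h, _⟩, _⟩
    exact h this
  · intros; exact Finset.mem_product.2 ⟨Finset.mem_univ _, Finset.mem_univ _⟩
  · rintro ⟨W, e⟩ _
    simp only
    rw [p.a2, tog_tog, tog_tog]

/-- ends in a union of edges -/
theorem ends_a [Finite D] {W : Finset D} (hi : p.Inv W) {x : D} (hx : x ∉ W)
    (hs : sw p.σ W x = x) (hax : p.a x ≠ x) :
    ∃ y, y ≠ x ∧ p.R W x y ∧ y ∉ W ∧ p.a y ≠ y ∧ sw p.σ W y = y ∧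
      ∀ z, p.R W x z → sw p.σ W z = z → z = x ∨ z = y := by
  have hax' : p.a x ∉ W := fun h => hx ((hi.2 x).2 h)
  obtain ⟨y, h1, h2, h3, h4⟩ := ends (p.sw_inv W) (p.ae_inv W) hs (by rw [ae_used hx hax']; exact hax)
  have hyW : y ∉ W := fun h => h1 (R_iso' h h2).symm
  have hay : p.a y ≠ y := by
    intro h
    have hσ : p.σ y = y := by
      by_contra h'; exact p.am y h' h
    have h5 : sw p.σ W y = y := sw_leg hσ
    have h6 : ae p.a W y = y := by
      unfold ae; rw [h]; split_ifs <;> rfl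
    exact h1 (conn_isolated' (p.sw_inv W) (p.ae_inv W) h5 h6 (Conn.symm h2)).symm
  refine ⟨y, h1, h2, hyW, hay, ?_, fun z hz hf => h4 z hz (Or.inl hf)⟩
  rcases h3 with h3 | h3
  · exact h3
  · rw [ae_used hyW (fun h => hyW ((hi.2 y).2 h))] at h3
    exact absurd h3 hay

end Pole
end Pool.H64.NC
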