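import Pool.Agent.Helper64.NC.ParityA

/-! NC: the parity theorem, part B (closed states, states with a vertex of degree one). -/

set_option linter.unusedSectionVars false

namespace Pool.H64.NC

open Function

namespace Pole
variable {K : ℕ} {D : Type*} [DecidableEq D] {p : Pole K D}

theorem Closed.inv {W : Finset D} (h : p.Closed W) : p.Inv W := ⟨h.2.1, h.2.2⟩

theorem Inv.not_mem {W : Finset D} (h : p.Inv W) {x : D} (hx : x ∉ W) : p.a x ∉ W :=
  fun h' => hx ((h.2 x).2 h')

/-- in a closed state every used leg has a unique partner -/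
theorem closed_ends [Finite D] {W : Finset D} (h : p.Closed W) {i : Fin K} (hi : p.m i ∉ W) :
    ∃ j, j ≠ i ∧ p.R W (p.m i) (p.m j) ∧ ∀ k, p.R W (p.m i) (p.m k) → k = i ∨ k = j := by
  obtain ⟨y, h1, h2, h3, h4, h5, h6⟩ := ends_a h.inv hi (sw_leg (p.m_leg i).1) (p.m_leg i).2
  have hy : p.σ y = y := by
    by_contra hσ
    exact sw_ne hσ h3 (h.1 y hσ) h5
  obtain ⟨j, rfl⟩ := (p.leg y).1 ⟨hy, h4⟩
  refine ⟨j, fun h => h1 (by rw [h]), h2, fun k hk => ?_⟩
  rcases h6 _ hk (sw_leg (p.m_leg k).1) with h | h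
  · exact Or.inl (p.minj h)
  · exact Or.inr (p.minj h)

theorem trace_mem {Z : Finset D} {i : Fin K} (hi : p.m i ∈ Z) : p.trace Z i = i :=
  part_none (fun _ hj h => hj (p.minj (R_iso hi h)))

theorem trace_used [Finite D] {W : Finset D} (h : p.Closed W) {i : Fin K} (hi : p.m i ∉ W) :
    p.trace W i ≠ i ∧ p.R W (p.m i) (p.m (p.trace W i)) ∧
      ∀ k, p.R W (p.m i) (p.m k) → k = i ∨ k = p.trace W i := by
  obtain ⟨j, h1, h2, h3⟩ := closed_ends h hi
  have : p.trace W i = j := part_eq h1 h2 (fun k hk hr => (h3 k hr).resolve_left hk)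
  rw [this]; exact ⟨h1, h2, h3⟩

theorem trace_notmem {W : Finset D} {i : Fin K} (h : p.trace W i ≠ i) : p.m i ∉ W :=
  fun h' => h (trace_mem h')

theorem trace_trace [Finite D] {W : Finset D} (h : p.Closed W) (i : Fin K) :
    p.trace W (p.trace W i) = i := by
  by_cases hi : p.m i ∈ W
  · rw [trace_mem hi, trace_mem hi]
  · obtain ⟨h1, h2, h3⟩ := trace_used h hi
    have hj : p.m (p.trace W i) ∉ W := fun h' => h1 (p.minj (R_iso' h' h2).symm)
    obtain ⟨k1, k2, k3⟩ := trace_used h hj
    exact ((k3 i (Conn.symm h2)).resolve_left (Ne.symm h1)).symm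

theorem mleg_ne {x : D} (hx : p.σ x ≠ x) (i : Fin K) : p.m i ≠ x := by
  rintro rfl; exact hx (p.m_leg i).1

/-- closed state, unused leg -/
theorem F_unused (c : (Fin K → Option (Fin K)) → ZMod 2) {W : Finset D} (h : p.Closed W)
    {i : Fin K} (hi : p.m i ∈ W) [Decidable (p.Cov W)] :
    p.F c (tog W (p.m i)) (p.m i) = if p.Cov W then c (opn (p.trace W) i) else 0 := by
  have hl := p.m_leg i
  have htog : tog W (p.m i) = W.erase (p.m i) := by unfold tog; rw [if_pos hi]
  have hsw : sw p.σ (W.erase (p.m i)) = sw p.σ W := by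
    apply sw_congr_all
    intro x hx
    rw [Finset.mem_erase]
    exact ⟨fun h => h.2, fun h => ⟨fun h' => mleg_ne hx i h'.symm, h⟩⟩
  have hae : ae p.a (W.erase (p.m i)) = ae p.a W := ae_erase hi ((h.2.2 _).1 hi) hl.2
  have hR : p.R (W.erase (p.m i)) = p.R W := by unfold R; rw [hsw, hae]
  have hbr : p.Broken (tog W (p.m i)) (p.m i) := by
    rw [broken_tog]
    refine ⟨hl.2, h.inv, ?_⟩
    intro x hx
    rw [One3.congr (mem_tog (mleg_ne hx i).symm) (mem_tog (mleg_ne (σ_ne hx) i).symm)
      (mem_tog (mleg_ne (σσσ_ne hx) i).symm)]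
    exact h.1 x hx
  have hcov : p.Cov (tog W (p.m i)) ↔ p.Cov W := by
    unfold Cov
    rw [htog, hR]
    constructor
    · intro h x hx hxW
      exact h x hx (fun h' => hxW (Finset.mem_of_mem_erase h'))
    · intro h x hx hxW
      exact h x hx (fun h' => hxW (Finset.mem_erase.2 ⟨(mleg_ne hx i).symm, h'⟩))
  have hot : p.otype (tog W (p.m i)) (p.half (tog W (p.m i)) (p.m i)) = opn (p.trace W) i := by
    rw [half_tog, if_pos hi, htog]
    funext k
    unfold otype opn trace
    rw [hR]
    by_cases hk : k = i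
    · subst hk
      rw [if_pos ((p.R_equiv W).refl _), if_pos rfl]
    · rw [if_neg (fun h' => hk (p.minj (R_iso' hi h'))), if_neg hk]
      have ht : part (fun i j => p.R W (p.m i) (p.m j)) i = i := trace_mem hi
      rw [ht, if_neg hk]
  unfold F
  rw [hot]
  by_cases hc : p.Cov W
  · rw [if_pos ⟨hbr, hcov.2 hc⟩, if_pos hc]
  · rw [if_neg (fun h' => hc (hcov.1 h'.2)), if_neg hc]

/-- closed state, used leg -/
theorem F_used [Finite D] (c : (Fin K → Option (Fin K)) → ZMod 2) {W : Finset D} (h : p.Closed W)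
    {i : Fin K} (hi : p.m i ∉ W) [Decidable (p.Cov W)] :
    p.F c (tog W (p.m i)) (p.m i) =
      if p.Cov W then c (opn (p.trace W) (p.trace W i)) else 0 := by
  have hl := p.m_leg i
  have hai : p.a (p.m i) ∉ W := h.inv.not_mem hi
  have htog : tog W (p.m i) = insert (p.m i) W := by unfold tog; rw [if_neg hi]
  have hmem : p.m i ∈ insert (p.m i) W := Finset.mem_insert_self _ _
  have hsw : sw p.σ (insert (p.m i) W) = sw p.σ W := by
    apply sw_congr_all
    intro x hx
    rw [Finset.mem_insert]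
    exact ⟨fun h => h.resolve_left (mleg_ne hx i).symm, fun h => Or.inr h⟩
  have hRW : ∀ z w, p.R (insert (p.m i) W) z w → p.R W z w := by
    intro z w hzw
    refine conn_le (p.R_equiv W) ?_ (fun z => ins_ae hi hai z) hzw
    intro z; rw [hsw]; exact Conn.ms _
  have hRZ : ∀ z w, p.R W z w → p.R (insert (p.m i) W) z w ∨
      (z = p.m i ∧ p.R (insert (p.m i) W) (p.a (p.m i)) w) ∨
      (w = p.m i ∧ p.R (insert (p.m i) W) z (p.a (p.m i))) := by
    intro z w hzw
    exact ins_le hi hai (fun z => Or.inl (by rw [hsw])) hzw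
  obtain ⟨h1, h2, h3⟩ := trace_used h hi
  set j := p.trace W i with hj
  have hji : p.trace W j = i := trace_trace h i
  have hjb : p.R (insert (p.m i) W) (p.m j) (p.a (p.m i)) := by
    rcases hRZ _ _ h2 with h' | ⟨_, h'⟩ | ⟨h', _⟩
    · exact absurd (p.minj (R_iso hmem h')) h1
    · exact Conn.symm h'
    · exact absurd (p.minj h') h1
  have hbr : p.Broken (tog W (p.m i)) (p.m i) := by
    rw [broken_tog]
    refine ⟨hl.2, h.inv, ?_⟩
    intro x hx
    rw [One3.congr (mem_tog (mleg_ne hx i).symm) (mem_tog (mleg_ne (σ_ne hx) i).symm)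
      (mem_tog (mleg_ne (σσσ_ne hx) i).symm)]
    exact h.1 x hx
  have hcov : p.Cov (tog W (p.m i)) ↔ p.Cov W := by
    rw [htog]
    constructor
    · intro h x hx hxW
      obtain ⟨l, hl⟩ := h x hx (fun h' => by
        rcases Finset.mem_insert.1 h' with h' | h'
        · exact mleg_ne hx i h'.symm
        · exact hxW h')
      exact ⟨l, hRW _ _ hl⟩
    · intro h x hx hxW
      obtain ⟨l, hl⟩ := h x hx (fun h' => hxW (Finset.mem_insert_of_mem h'))
      rcases hRZ _ _ hl with h' | ⟨h', _⟩ | ⟨_, h'⟩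
      · exact ⟨l, h'⟩
      · exact absurd h'.symm (mleg_ne hx i)
      · exact ⟨j, Conn.trans h' (Conn.symm hjb)⟩
  have hbx : p.R W (p.m i) (p.a (p.m i)) := by
    have : ae p.a W (p.m i) = p.a (p.m i) := ae_used hi hai
    have h' : p.R W (p.m i) (ae p.a W (p.m i)) := Conn.ma _
    rwa [this] at h'
  have hot : p.otype (tog W (p.m i)) (p.half (tog W (p.m i)) (p.m i)) = opn (p.trace W) j := by
    rw [half_tog, if_neg hi, htog]
    funext k
    unfold otype opn
    rw [hji]
    by_cases hk : k = j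
    · rw [hk, if_pos hjb, if_pos rfl]
    · rw [if_neg hk]
      by_cases hk' : k = i
      · subst hk'
        rw [if_pos rfl, if_neg, trace_mem hmem]
        intro h'
        exact hl.2 (R_iso hmem h')
      · rw [if_neg hk', if_neg]
        · congr 1
          apply part_congr
          intro l
          constructor
          · exact hRW _ _
          · intro h'
            rcases hRZ _ _ h' with h'' | ⟨h'', _⟩ | ⟨h'', _⟩
            · exact h''
            · exact absurd (p.minj h'') hk'
            · exfalso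
              rw [h''] at h'
              rcases h3 k (Conn.symm h') with h4 | h4
              · exact hk' h4
              · exact hk h4
        · intro h'
          have h4 : p.R W (p.m i) (p.m k) := Conn.trans hbx (Conn.symm (hRW _ _ h'))
          rcases h3 k h4 with h5 | h5
          · exact hk' h5
          · exact hk h5
  unfold F
  rw [hot]
  by_cases hc : p.Cov W
  · rw [if_pos ⟨hbr, hcov.2 hc⟩, if_pos hc]
  · rw [if_neg (fun h' => hc (hcov.1 h'.2)), if_neg hc]

open Classical in
/-- the sum of a closed state -/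
theorem sum_closed [Fintype D] (c : (Fin K → Option (Fin K)) → ZMod 2) {W : Finset D}
    (h : p.Closed W) :
    ∑ e : D, p.F c (tog W e) e = if p.Cov W then ∑ i, c (opn (p.trace W) i) else 0 := by
  have h1 : ∀ e, e ∉ Finset.univ.image p.m → p.F c (tog W e) e = 0 := by
    intro e he
    unfold F
    rw [if_neg]
    rintro ⟨hb, _⟩
    rw [broken_tog] at hb
    obtain ⟨hae, _, hv⟩ := hb
    have hσ : p.σ e = e := by
      by_contra hσ
      have h2 := hv e hσ
      have h3 := h.1 e hσ
      rw [One3.congr mem_tog_self (mem_tog hσ) (mem_tog (σσ_ne hσ))] at h2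
      unfold One3 at h2 h3
      tauto
    obtain ⟨i, hi⟩ := (p.leg e).1 ⟨hσ, hae⟩
    exact he (Finset.mem_image.2 ⟨i, Finset.mem_univ _, hi⟩)
  rw [← Finset.sum_subset (Finset.subset_univ (Finset.univ.image p.m)) (fun e _ he => h1 e he),
    Finset.sum_image (fun _ _ _ _ h => p.minj h)]
  have h2 : ∀ i, p.F c (tog W (p.m i)) (p.m i) =
      if p.Cov W then c (opn (p.trace W) (p.trace W i)) else 0 := by
    intro i
    by_cases hi : p.m i ∈ W
    · rw [trace_mem hi]; exact F_unused c h hi
    · exact F_used c h hi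
  rw [Finset.sum_congr rfl (fun i _ => h2 i)]
  by_cases hc : p.Cov W
  · simp only [if_pos hc]
    have hinv : Involutive (p.trace W) := trace_trace h
    exact (hinv.toPerm.sum_comp Finset.univ (fun i => c (opn (p.trace W) i)) (by simp))
  · simp only [if_neg hc, Finset.sum_const_zero]

theorem pend {s1 s2 A : D → D} {u1 u2 o : D} (hs1 : Involutive s1) (hA : Involutive A)
    (h11 : s1 u1 = o) (h12 : s1 u2 = u2) (hne1 : o ≠ u1) (hne2 : o ≠ u2)
    (heq : ∀ y, y ≠ u1 → y ≠ u2 → y ≠ o → s2 y = s1 y)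
    (hA1 : A u1 = u1) (hA2 : A u2 = u2) {z w : D} (h : Conn s1 A z w) :
    Conn s2 A (if z = u1 ∨ z = u2 then o else z) (if w = u1 ∨ w = u2 then o else w) := by
  refine conn_map (r := Conn s2 A) conn_equiv (fun z => if z = u1 ∨ z = u2 then o else z) ?_ ?_ h
  · intro x
    have hu1 : ∀ y, s1 y = u1 → y = o := fun y hy => by rw [← hs1 y, hy, h11]
    have hu2 : ∀ y, s1 y = u2 → y = u2 := fun y hy => by rw [← hs1 y, hy, h12]
    by_cases hx1 : x = u1
    · rw [hx1, h11, if_pos (Or.inl rfl), if_neg (by tauto)]; exact Conn.refl _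
    by_cases hx2 : x = u2
    · rw [hx2, h12, if_pos (Or.inr rfl)]; exact Conn.refl _
    by_cases hxo : x = o
    · have : s1 o = u1 := by rw [← h11, hs1]
      rw [hxo, this, if_neg (by tauto), if_pos (Or.inl rfl)]; exact Conn.refl _
    rw [if_neg (by tauto), if_neg]
    · rw [← heq x hx1 hx2 hxo]; exact Conn.ms _
    · rintro (h | h)
      · exact hxo (hu1 x h)
      · exact hx2 (hu2 x h)
  · intro x
    by_cases hx1 : x = u1
    · rw [hx1, hA1]; exact Conn.refl _
    by_cases hx2 : x = u2
    · rw [hx2, hA2]; exact Conn.refl _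
    rw [if_neg (by tauto), if_neg]
    · exact Conn.ma _
    · rintro (h | h)
      · exact hx1 (by rw [← hA x, h, hA1])
      · exact hx2 (by rw [← hA x, h, hA2])

end Pole
end Pool.H64.NC
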