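import Pool.Agent.Helper64.NC.ParityB

/-! NC: the parity theorem, part C (a vertex of degree one; a vertex of degree three). -/

set_option linter.unusedSectionVars false

namespace Pool.H64.NC

open Function

namespace Pole
variable {K : ℕ} {D : Type*} [DecidableEq D] {p : Pole K D}

theorem m_ne {x : D} (hx : p.σ x ≠ x) (i : Fin K) : p.m i ≠ x := mleg_ne hx i

/-- one direction of the comparison for a vertex with two unused darts -/
theorem deg1_aux {W : Finset D} (hi : p.Inv W) {u1 u2 o : D} (h1 : u1 ∈ W) (h2 : u2 ∈ W)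
    (ho : o ∉ W) (hne : u1 ≠ u2) (hu1 : p.σ u1 ≠ u1) (hu2 : p.σ u2 ≠ u2) (hσo : p.σ o ≠ o)
    (s1 : sw p.σ (W.erase u1) u1 = o) (s2 : sw p.σ (W.erase u2) u2 = o)
    (heq : ∀ y, y ≠ u1 → y ≠ u2 → y ≠ o → sw p.σ (W.erase u2) y = sw p.σ (W.erase u1) y) :
    (∀ k, p.R (W.erase u1) (p.m k) u1 → p.R (W.erase u2) (p.m k) u2) ∧
    (∀ k l, p.R (W.erase u1) (p.m k) (p.m l) → p.R (W.erase u2) (p.m k) (p.m l)) ∧
    (p.Cov (W.erase u1) → p.Cov (W.erase u2)) := by
  have hae1 : ae p.a (W.erase u1) = ae p.a W := ae_erase h1 ((hi.2 _).1 h1) (hi.1 _ h1)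
  have hae2 : ae p.a (W.erase u2) = ae p.a W := ae_erase h2 ((hi.2 _).1 h2) (hi.1 _ h2)
  have hou1 : o ≠ u1 := fun h => ho (h ▸ h1)
  have hou2 : o ≠ u2 := fun h => ho (h ▸ h2)
  have key : ∀ z w, p.R (W.erase u1) z w →
      p.R (W.erase u2) (if z = u1 ∨ z = u2 then o else z) (if w = u1 ∨ w = u2 then o else w) := by
    intro z w h
    unfold R at h ⊢
    rw [hae1] at h
    rw [hae2]
    refine pend (p.sw_inv _) (p.ae_inv _) s1 (sw_mem (Finset.mem_erase.2 ⟨hne.symm, h2⟩)) hou1 hou2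
      heq (ae_mem h1) (ae_mem h2) h
  have hm : ∀ k, ¬ (p.m k = u1 ∨ p.m k = u2) := by
    rintro k (h | h)
    · exact m_ne hu1 k h
    · exact m_ne hu2 k h
  have ho2 : p.R (W.erase u2) o u2 := by
    have : p.R (W.erase u2) u2 (sw p.σ (W.erase u2) u2) := Conn.ms _
    rw [s2] at this; exact Conn.symm this
  refine ⟨?_, ?_, ?_⟩
  · intro k h
    have := key _ _ h
    rw [if_neg (hm k), if_pos (Or.inl rfl)] at this
    exact Conn.trans this ho2
  · intro k l h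
    have := key _ _ h
    rwa [if_neg (hm k), if_neg (hm l)] at this
  · intro hc z hz hzW
    by_cases hz2 : z = u2
    · obtain ⟨k, hk⟩ := hc o hσo (fun h => ho (Finset.mem_of_mem_erase h))
      have := key _ _ hk
      rw [if_neg (by tauto), if_neg (hm k)] at this
      rw [hz2]
      exact ⟨k, Conn.trans (Conn.symm ho2) this⟩
    · have hz1 : z ≠ u1 := by
        rintro rfl
        exact hzW (Finset.mem_erase.2 ⟨hne, h1⟩)
      have hzW' : z ∉ W := fun h => hzW (Finset.mem_erase.2 ⟨hz2, h⟩)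
      obtain ⟨k, hk⟩ := hc z hz (fun h => hzW' (Finset.mem_of_mem_erase h))
      have := key _ _ hk
      rw [if_neg (by tauto), if_neg (hm k)] at this
      exact ⟨k, this⟩

theorem F_eq_of {c : (Fin K → Option (Fin K)) → ZMod 2} {Z Z' : Finset D} {e e' : D}
    (hb : p.Broken Z e) (hb' : p.Broken Z' e') (hc : p.Cov Z ↔ p.Cov Z')
    (ht : p.otype Z (p.half Z e) = p.otype Z' (p.half Z' e')) : p.F c Z e = p.F c Z' e' := by
  unfold F
  by_cases h : p.Cov Z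
  · rw [if_pos ⟨hb, h⟩, if_pos ⟨hb', hc.1 h⟩, ht]
  · rw [if_neg (fun k => h k.2), if_neg (fun k => h (hc.2 k.2))]

theorem otype_eq_of {Z Z' : Finset D} {b b' : D}
    (h1 : ∀ k, p.R Z (p.m k) b ↔ p.R Z' (p.m k) b')
    (h2 : ∀ k l, p.R Z (p.m k) (p.m l) ↔ p.R Z' (p.m k) (p.m l)) : p.otype Z b = p.otype Z' b' := by
  funext k
  unfold otype
  have ht : p.trace Z k = p.trace Z' k := part_congr (h2 k)
  rw [ht]
  by_cases h : p.R Z (p.m k) b
  · rw [if_pos h, if_pos ((h1 k).1 h)]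
  · rw [if_neg h, if_neg (fun h' => h ((h1 k).2 h'))]

open Classical in
/-- a vertex with exactly two unused darts `x`, `σ x` -/
theorem sum_deg1 [Fintype D] (c : (Fin K → Option (Fin K)) → ZMod 2) {W : Finset D}
    (hi : p.Inv W) {x : D} (hσ : p.σ x ≠ x) (h1 : x ∈ W) (h2 : p.σ x ∈ W)
    (h3 : p.σ (p.σ x) ∉ W)
    (hv : ∀ y, p.σ y ≠ y → y ≠ x → y ≠ p.σ x → y ≠ p.σ (p.σ x) →
      One3 (y ∈ W) (p.σ y ∈ W) (p.σ (p.σ y) ∈ W)) :
    ∑ e : D, p.F c (tog W e) e = 0 := by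
  set u1 := x with hu1
  set u2 := p.σ x with hu2
  set o := p.σ u2 with ho
  have hσo : p.σ o = u1 := p.σ3 x
  have n12 : u2 ≠ u1 := hσ
  have n1o : o ≠ u1 := σσ_ne hσ
  have n2o : o ≠ u2 := σσ_ne' hσ
  have hσ2 : p.σ u2 ≠ u2 := n2o
  have hσo' : p.σ o ≠ o := by rw [hσo]; exact n1o.symm
  -- other vertices
  have hoth : ∀ y, y ≠ u1 → y ≠ u2 → y ≠ o → (p.σ y ≠ u1 ∧ p.σ y ≠ u2 ∧ p.σ y ≠ o) := by
    intro y y1 y2 y3
    refine ⟨fun h => y3 ?_, fun h => y1 ?_, fun h => y2 ?_⟩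
    · apply p.σinj; rw [h, hσo]
    · apply p.σinj; rw [h]
    · apply p.σinj; rw [h]
  have hzero : ∀ e, e ≠ u1 → e ≠ u2 → p.F c (tog W e) e = 0 := by
    intro e e1 e2
    unfold F
    rw [if_neg]
    rintro ⟨hb, _⟩
    rw [broken_tog] at hb
    have h4 := hb.2.2 u1 hσ
    change One3 (u1 ∈ tog W e) (u2 ∈ tog W e) (o ∈ tog W e) at h4
    have h5 : u1 ∈ tog W e := (mem_tog e1.symm).2 h1
    have h6 : u2 ∈ tog W e := (mem_tog e2.symm).2 h2
    unfold One3 at h4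
    tauto
  have hsub : ∑ e : D, p.F c (tog W e) e = ∑ e ∈ {u1, u2}, p.F c (tog W e) e := by
    symm
    apply Finset.sum_subset (Finset.subset_univ _)
    intro e _ he
    rw [Finset.mem_insert, Finset.mem_singleton, not_or] at he
    exact hzero e he.1 he.2
  rw [hsub, Finset.sum_pair n12.symm]
  have t1 : tog W u1 = W.erase u1 := by unfold tog; rw [if_pos h1]
  have t2 : tog W u2 = W.erase u2 := by unfold tog; rw [if_pos h2]
  have s1 : sw p.σ (W.erase u1) u1 = o := by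
    rw [sw_two]
    · exact Finset.notMem_erase _ _
    · exact Finset.mem_erase.2 ⟨n12, h2⟩
    · exact fun h => h3 (Finset.mem_of_mem_erase h)
  have s2 : sw p.σ (W.erase u2) u2 = o := by
    rw [sw_one]
    · exact Finset.notMem_erase _ _
    · exact fun h => h3 (Finset.mem_of_mem_erase h)
    · change p.σ o ∈ _
      rw [hσo]; exact Finset.mem_erase.2 ⟨n12.symm, h1⟩
  have heq : ∀ y, y ≠ u1 → y ≠ u2 → y ≠ o →
      sw p.σ (W.erase u2) y = sw p.σ (W.erase u1) y := by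
    intro y y1 y2 y3
    obtain ⟨z1, z2, z3⟩ := hoth y y1 y2 y3
    obtain ⟨w1, w2, w3⟩ := hoth _ z1 z2 z3
    apply sw_congr
    · simp [Finset.mem_erase, y1, y2]
    · simp [Finset.mem_erase, z1, z2]
    · simp [Finset.mem_erase, w1, w2]
  have b1 : p.Broken (tog W u1) u1 := by
    rw [broken_tog]
    refine ⟨hi.1 _ h1, hi, ?_⟩
    intro y hy
    by_cases y1 : y = u1
    · rw [y1]
      change One3 (u1 ∈ tog W u1) (u2 ∈ tog W u1) (o ∈ tog W u1)
      rw [One3.congr mem_tog_self (mem_tog n12) (mem_tog n1o)]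
      unfold One3; tauto
    by_cases y2 : y = u2
    · rw [y2]
      change One3 (u2 ∈ tog W u1) (o ∈ tog W u1) (p.σ o ∈ tog W u1)
      rw [hσo, One3.congr (mem_tog n12) (mem_tog n1o) mem_tog_self]
      unfold One3; tauto
    by_cases y3 : y = o
    · rw [y3, hσo]
      change One3 (o ∈ tog W u1) (u1 ∈ tog W u1) (u2 ∈ tog W u1)
      rw [One3.congr (mem_tog n1o) mem_tog_self (mem_tog n12)]
      unfold One3; tauto
    obtain ⟨z1, z2, z3⟩ := hoth y y1 y2 y3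
    obtain ⟨w1, w2, w3⟩ := hoth _ z1 z2 z3
    rw [One3.congr (mem_tog y1) (mem_tog z1) (mem_tog w1)]
    exact hv y hy y1 y2 y3
  have b2 : p.Broken (tog W u2) u2 := by
    rw [broken_tog]
    refine ⟨hi.1 _ h2, hi, ?_⟩
    intro y hy
    by_cases y1 : y = u1
    · rw [y1]
      change One3 (u1 ∈ tog W u2) (u2 ∈ tog W u2) (o ∈ tog W u2)
      rw [One3.congr (mem_tog n12.symm) mem_tog_self (mem_tog n2o)]
      unfold One3; tauto
    by_cases y2 : y = u2
    · rw [y2]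
      change One3 (u2 ∈ tog W u2) (o ∈ tog W u2) (p.σ o ∈ tog W u2)
      rw [hσo, One3.congr mem_tog_self (mem_tog n2o) (mem_tog n12.symm)]
      unfold One3; tauto
    by_cases y3 : y = o
    · rw [y3, hσo]
      change One3 (o ∈ tog W u2) (u1 ∈ tog W u2) (u2 ∈ tog W u2)
      rw [One3.congr (mem_tog n2o) (mem_tog n12.symm) mem_tog_self]
      unfold One3; tauto
    obtain ⟨z1, z2, z3⟩ := hoth y y1 y2 y3
    obtain ⟨w1, w2, w3⟩ := hoth _ z1 z2 z3
    rw [One3.congr (mem_tog y2) (mem_tog z2) (mem_tog w2)]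
    exact hv y hy y1 y2 y3
  obtain ⟨a1, a2, a3⟩ := deg1_aux hi h1 h2 h3 n12.symm hσ hσ2 hσo' s1 s2 heq
  obtain ⟨c1, c2, c3⟩ := deg1_aux hi h2 h1 h3 n12 hσ2 hσ hσo' s2 s1
    (fun y y1 y2 y3 => (heq y y2 y1 y3).symm)
  have hF : p.F c (tog W u1) u1 = p.F c (tog W u2) u2 := by
    apply F_eq_of b1 b2
    · rw [t1, t2]; exact ⟨a3, c3⟩
    · rw [half_tog, half_tog, if_pos h1, if_pos h2, t1, t2]
      exact otype_eq_of (fun k => ⟨a1 k, c1 k⟩) (fun k l => ⟨a2 k l, c2 k l⟩)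
  rw [hF]
  exact CharTwo.add_self_eq_zero _

end Pole
end Pool.H64.NC
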