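import Pool.Agent.Helper64.NC.ParityC

/-! NC: the parity theorem, part D (a vertex with three used darts) and the theorem. -/

set_option linter.unusedSectionVars false

namespace Pool.H64.NC

open Function

namespace Pole
variable {K : ℕ} {D : Type*} [DecidableEq D] {p : Pole K D}

/-- a union of edges all of whose vertices have exactly one unused dart, except the vertex of `x`,
which has none -/
structure Deg3 (p : Pole K D) (W : Finset D) (x : D) : Prop where
  inv : p.Inv W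
  hσ : p.σ x ≠ x
  u1 : x ∉ W
  u2 : p.σ x ∉ W
  u3 : p.σ (p.σ x) ∉ W
  vx : ∀ y, p.σ y ≠ y → y ≠ x → y ≠ p.σ x → y ≠ p.σ (p.σ x) →
      One3 (y ∈ W) (p.σ y ∈ W) (p.σ (p.σ y) ∈ W)

theorem Deg3.rot {W : Finset D} {x : D} (h : Deg3 p W x) : Deg3 p W (p.σ x) :=
  ⟨h.inv, σ_ne h.hσ, h.u2, h.u3, by rw [p.σ3]; exact h.u1, fun y h0 h1 h2 h3 =>
    h.vx y h0 (by rw [p.σ3] at h3; exact h3) h1 h2⟩

section
variable {W : Finset D} {x : D} (h : Deg3 p W x)
include h

theorem Deg3.oth {y : D} (y1 : y ≠ x) (y2 : y ≠ p.σ x) (y3 : y ≠ p.σ (p.σ x)) :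
    p.σ y ≠ x ∧ p.σ y ≠ p.σ x ∧ p.σ y ≠ p.σ (p.σ x) := by
  refine ⟨fun h => y3 ?_, fun h => y1 ?_, fun h => y2 ?_⟩
  · apply p.σinj; rw [h, p.σ3]
  · exact p.σinj h
  · exact p.σinj h

theorem Deg3.sw_eq : sw p.σ W x = x := by
  unfold sw
  rw [if_neg (fun k => h.u3 k.2.2), if_neg (fun k => h.u2 k.2.1)]

theorem Deg3.a1 : p.a x ∉ W := h.inv.not_mem h.u1
theorem Deg3.ax : p.a x ≠ x := p.am x h.hσ

theorem Deg3.n12 : p.σ x ≠ x := h.hσ
theorem Deg3.n13 : p.σ (p.σ x) ≠ x := σσ_ne h.hσ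
theorem Deg3.n23 : p.σ (p.σ x) ≠ p.σ x := σσ_ne' h.hσ

theorem Deg3.sw2 : sw p.σ (insert x W) (p.σ x) = p.σ (p.σ x) := by
  rw [sw_one]
  · simp [Finset.mem_insert, h.n12, h.u2]
  · simp [Finset.mem_insert, h.n13, h.u3]
  · rw [p.σ3]; exact Finset.mem_insert_self _ _

theorem Deg3.sw3 : sw p.σ (insert x W) (p.σ (p.σ x)) = p.σ x := by
  rw [← h.sw2, p.sw_inv]

theorem Deg3.swo {y : D} (y1 : y ≠ x) (y2 : y ≠ p.σ x) (y3 : y ≠ p.σ (p.σ x)) :
    sw p.σ (insert x W) y = sw p.σ W y := by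
  obtain ⟨z1, z2, z3⟩ := h.oth y1 y2 y3
  obtain ⟨w1, w2, w3⟩ := h.oth z1 z2 z3
  apply sw_congr
  · simp [Finset.mem_insert, y1]
  · simp [Finset.mem_insert, z1]
  · simp [Finset.mem_insert, w1]

/-- the relation after removing the edge of `x` -/
theorem Deg3.to {z w : D} (hr : p.R (insert x W) z w) :
    J (p.R W) (p.σ x) (p.σ (p.σ x)) z w := by
  refine conn_le (J_equiv (p.R_equiv W) _ _) ?_ (fun y => Or.inl (ins_ae h.u1 h.a1 y)) hr
  intro y
  by_cases y1 : y = x
  · rw [y1, sw_mem (Finset.mem_insert_self _ _)]; exact (J_equiv (p.R_equiv W) _ _).refl _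
  by_cases y2 : y = p.σ x
  · rw [y2, h.sw2]; exact J_xy (p.R_equiv W) _ _
  by_cases y3 : y = p.σ (p.σ x)
  · rw [y3, h.sw3]; exact (J_equiv (p.R_equiv W) _ _).symm (J_xy (p.R_equiv W) _ _)
  left
  rw [h.swo y1 y2 y3]; exact Conn.ms _

theorem Deg3.sw_or (y : D) :
    sw p.σ W y = sw p.σ (insert x W) y ∨ sw p.σ W y = y := by
  by_cases y1 : y = x
  · right; rw [y1, h.sw_eq]
  by_cases y2 : y = p.σ x
  · right; rw [y2, h.rot.sw_eq]
  by_cases y3 : y = p.σ (p.σ x)
  · right; rw [y3, h.rot.rot.sw_eq]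
  left; rw [h.swo y1 y2 y3]

theorem Deg3.from1 {z w : D} (hz : z ≠ x) (hw : w ≠ x) (hr : p.R W z w) :
    p.R (insert x W) z w := by
  rcases ins_le h.u1 h.a1 h.sw_or hr with k | ⟨k, _⟩ | ⟨k, _⟩
  · exact k
  · exact absurd k hz
  · exact absurd k hw

theorem Deg3.r23 : p.R (insert x W) (p.σ x) (p.σ (p.σ x)) := by
  have : p.R (insert x W) (p.σ x) (sw p.σ (insert x W) (p.σ x)) := Conn.ms _
  rwa [h.sw2] at this

theorem Deg3.from {z w : D} (hz : z ≠ x) (hw : w ≠ x)
    (hr : J (p.R W) (p.σ x) (p.σ (p.σ x)) z w) : p.R (insert x W) z w := by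
  rcases hr with k | ⟨k, k'⟩ | ⟨k, k'⟩
  · exact h.from1 hz hw k
  · exact (h.from1 hz h.n12 k).trans (h.r23.trans (h.from1 h.n13 hw k'))
  · exact (h.from1 hz h.n13 k).trans (h.r23.symm.trans (h.from1 h.n12 hw k'))

theorem Deg3.rxa : p.R W x (p.a x) := by
  have : p.R W x (ae p.a W x) := Conn.ma _
  rwa [ae_used h.u1 h.a1] at this

/-- connection to the used half `a x` -/
theorem Deg3.to_a {z : D} (hr : p.R (insert x W) z (p.a x)) :
    J (p.R W) (p.σ x) (p.σ (p.σ x)) z x :=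
  (J_equiv (p.R_equiv W) _ _).trans (h.to hr) (Or.inl h.rxa.symm)

theorem Deg3.from_a {z : D} (hz : z ≠ x) (hr : J (p.R W) (p.σ x) (p.σ (p.σ x)) z x) :
    p.R (insert x W) z (p.a x) :=
  h.from hz h.ax ((J_equiv (p.R_equiv W) _ _).trans hr (Or.inl h.rxa))

theorem Deg3.mx (k : Fin K) : p.m k ≠ x := mleg_ne h.hσ k

theorem Deg3.tog1 : tog W x = insert x W := by unfold tog; rw [if_neg h.u1]

theorem Deg3.half1 : p.half (tog W x) x = p.a x := by rw [half_tog, if_neg h.u1]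

theorem Deg3.broken : p.Broken (tog W x) x := by
  rw [broken_tog]
  refine ⟨h.ax, h.inv, ?_⟩
  intro y hy
  have u1 := h.u1
  have u2 := h.u2
  have u3 := h.u3
  by_cases y1 : y = x
  · rw [y1, One3.congr mem_tog_self (mem_tog h.n12) (mem_tog h.n13)]
    unfold One3; tauto
  by_cases y2 : y = p.σ x
  · rw [y2, p.σ3, One3.congr (mem_tog h.n12) (mem_tog h.n13) mem_tog_self]
    unfold One3; tauto
  by_cases y3 : y = p.σ (p.σ x)
  · rw [y3, p.σ3, One3.congr (mem_tog h.n13) mem_tog_self (mem_tog h.n12)]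
    unfold One3; tauto
  obtain ⟨z1, z2, z3⟩ := h.oth y1 y2 y3
  obtain ⟨w1, w2, w3⟩ := h.oth z1 z2 z3
  rw [One3.congr (mem_tog y1) (mem_tog z1) (mem_tog w1)]
  exact h.vx y hy y1 y2 y3

/-- the other end of the path starting at `x` -/
theorem Deg3.other [Finite D] : ∃ y, y ≠ x ∧ p.R W x y ∧
    ((∃ i, p.m i = y) ∨ y = p.σ x ∨ y = p.σ (p.σ x)) ∧
    (∀ i, p.R W x (p.m i) → p.m i = y) ∧
    (p.R W x (p.σ x) → p.σ x = y) ∧ (p.R W x (p.σ (p.σ x)) → p.σ (p.σ x) = y) := by
  obtain ⟨y, h1, h2, h3, h4, h5, h6⟩ := ends_a h.inv h.u1 h.sw_eq h.ax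
  refine ⟨y, h1, h2, ?_, ?_, ?_, ?_⟩
  · by_cases hy : p.σ y = y
    · exact Or.inl ((p.leg y).1 ⟨hy, h4⟩)
    · right
      by_contra hcon
      rw [not_or] at hcon
      exact sw_ne hy h3 (h.vx y hy h1 hcon.1 hcon.2) h5
  · intro i hi
    exact (h6 _ hi (sw_leg (p.m_leg i).1)).resolve_left (h.mx i)
  · intro hr
    exact (h6 _ hr h.rot.sw_eq).resolve_left h.n12
  · intro hr
    exact (h6 _ hr h.rot.rot.sw_eq).resolve_left h.n13

end

/-- three legs -/
theorem Deg3.otype_tri {W : Finset D} {x : D} (h : Deg3 p W x) {i j k : Fin K}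
    (ij : i ≠ j) (jk : j ≠ k) (ik : i ≠ k)
    (r1 : p.R W x (p.m i)) (r2 : p.R W (p.σ x) (p.m j)) (r3 : p.R W (p.σ (p.σ x)) (p.m k))
    (q1 : ∀ l, p.R W x (p.m l) → l = i) (q2 : ∀ l, p.R W (p.σ x) (p.m l) → l = j)
    (q3 : ∀ l, p.R W (p.σ (p.σ x)) (p.m l) → l = k) :
    p.otype (tog W x) (p.half (tog W x) x) = tri (p.trace W) i j k := by
  rw [h.half1, h.tog1]
  have n12 : ¬ p.R W x (p.σ x) := fun h' => ij (q2 i (h'.symm.trans r1))
  have n13 : ¬ p.R W x (p.σ (p.σ x)) := fun h' => ik (q3 i (h'.symm.trans r1))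
  have key : ∀ l l', p.R (insert x W) (p.m l) (p.m l') ↔
      p.R W (p.m l) (p.m l') ∨ (l = j ∧ l' = k) ∨ (l = k ∧ l' = j) := by
    intro l l'
    constructor
    · intro h'
      rcases h.to h' with k | ⟨k, k'⟩ | ⟨k, k'⟩
      · exact Or.inl k
      · exact Or.inr (Or.inl ⟨q2 _ k.symm, q3 _ k'⟩)
      · exact Or.inr (Or.inr ⟨q3 _ k.symm, q2 _ k'⟩)
    · intro h'
      apply h.from (h.mx l) (h.mx l')
      rcases h' with k | ⟨rfl, rfl⟩ | ⟨rfl, rfl⟩
      · exact Or.inl k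
      · exact Or.inr (Or.inl ⟨r2.symm, r3⟩)
      · exact Or.inr (Or.inr ⟨r3.symm, r2⟩)
  have kb : ∀ l, p.R (insert x W) (p.m l) (p.a x) ↔ l = i := by
    intro l
    constructor
    · intro h'
      rcases h.to_a h' with k | ⟨_, k'⟩ | ⟨_, k'⟩
      · exact q1 _ k.symm
      · exact absurd k'.symm n13
      · exact absurd k'.symm n12
    · rintro rfl
      exact h.from_a (h.mx _) (Or.inl r1.symm)
  funext l
  unfold otype tri
  by_cases hl : l = i
  · rw [if_pos ((kb l).2 hl), if_pos hl]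
  rw [if_neg (fun h' => hl ((kb l).1 h')), if_neg hl]
  by_cases hlj : l = j
  · rw [if_pos hlj]
    congr 1
    apply part_eq
    · rw [hlj]; exact jk.symm
    · rw [hlj]; exact (key j k).2 (Or.inr (Or.inl ⟨rfl, rfl⟩))
    · intro l' hl' hr
      rw [hlj] at hr hl'
      rcases (key _ _).1 hr with h' | ⟨_, h'⟩ | ⟨h', _⟩
      · exact absurd (q2 l' (r2.trans h')) hl'
      · exact h'
      · exact absurd h' jk
  rw [if_neg hlj]
  by_cases hlk : l = k
  · rw [if_pos hlk]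
    congr 1
    apply part_eq
    · rw [hlk]; exact jk
    · rw [hlk]; exact (key k j).2 (Or.inr (Or.inr ⟨rfl, rfl⟩))
    · intro l' hl' hr
      rw [hlk] at hr hl'
      rcases (key _ _).1 hr with h' | ⟨h', _⟩ | ⟨_, h'⟩
      · exact absurd (q3 l' (r3.trans h')) hl'
      · exact absurd h'.symm jk
      · exact h'
  rw [if_neg hlk]
  congr 1
  apply part_congr
  intro l'
  rw [key]
  constructor
  · rintro (h' | ⟨h', _⟩ | ⟨h', _⟩)
    · exact h'
    · exact absurd h' hlj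
    · exact absurd h' hlk
  · exact Or.inl

/-- three legs: the covering condition -/
theorem Deg3.cov_tri {W : Finset D} {x : D} (h : Deg3 p W x) {i j k : Fin K}
    (r1 : p.R W x (p.m i)) (r2 : p.R W (p.σ x) (p.m j)) (r3 : p.R W (p.σ (p.σ x)) (p.m k)) :
    p.Cov (tog W x) ↔ p.Cov W := by
  rw [h.tog1]
  constructor
  · intro hc z hz hzW
    by_cases hzx : z = x
    · exact ⟨i, hzx ▸ r1⟩
    obtain ⟨l, hl⟩ := hc z hz (by simp [Finset.mem_insert, hzx, hzW])
    rcases h.to hl with k' | ⟨k', _⟩ | ⟨k', _⟩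
    · exact ⟨l, k'⟩
    · exact ⟨j, k'.trans r2⟩
    · exact ⟨k, k'.trans r3⟩
  · intro hc z hz hzW
    rw [Finset.mem_insert, not_or] at hzW
    obtain ⟨l, hl⟩ := hc z hz hzW.2
    exact ⟨l, h.from1 hzW.1 (h.mx l) hl⟩

/-- lollipop: `σ x` and `σ² x` are connected, `x` is the stem -/
theorem Deg3.sum_loop [Finite D] (c : (Fin K → Option (Fin K)) → ZMod 2) {W : Finset D} {x : D}
    (h : Deg3 p W x) (r23 : p.R W (p.σ x) (p.σ (p.σ x))) :
    p.F c (tog W x) x + p.F c (tog W (p.σ x)) (p.σ x) +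
      p.F c (tog W (p.σ (p.σ x))) (p.σ (p.σ x)) = 0 := by
  -- classes
  have leg2 : ∀ l, ¬ p.R W (p.σ x) (p.m l) := by
    obtain ⟨y, h1, h2, h3, h4, h5, h6⟩ := h.rot.other
    intro l hl
    have e1 := h4 l hl
    have e2 := h5 r23
    rw [← e2] at e1
    exact h.rot.rot.mx l e1
  have leg3 : ∀ l, ¬ p.R W (p.σ (p.σ x)) (p.m l) := fun l hl => leg2 l (r23.trans hl)
  have n12 : ¬ p.R W x (p.σ x) := by
    intro hr
    obtain ⟨y, h1, h2, h3, h4, h5, h6⟩ := h.rot.other
    have e1 := h5 r23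
    have e2 := h6 (by rw [p.σ3]; exact hr.symm)
    rw [p.σ3] at e2
    rw [← e2] at e1
    exact h.n13 e1
  have n13 : ¬ p.R W x (p.σ (p.σ x)) := fun hr => n12 (hr.trans r23.symm)
  obtain ⟨y, h1, h2, h3, h4, h5, h6⟩ := h.other
  obtain ⟨i, hi⟩ : ∃ i, p.m i = y := by
    rcases h3 with h3 | h3 | h3
    · exact h3
    · exact absurd (h3 ▸ h2) n12
    · exact absurd (h3 ▸ h2) n13
  have r1 : p.R W x (p.m i) := by rw [hi]; exact h2
  have q1 : ∀ l, p.R W x (p.m l) → l = i := fun l hl => p.minj (by rw [h4 l hl, hi])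
  have g1 : p.F c (tog W x) x = 0 := by
    unfold F
    rw [if_neg]
    rintro ⟨_, hc⟩
    rw [h.tog1] at hc
    obtain ⟨l, hl⟩ := hc (p.σ x) (σ_ne h.hσ) (by simp [Finset.mem_insert, h.n12, h.u2])
    rcases h.to hl with k | ⟨_, k⟩ | ⟨_, k⟩
    · exact leg2 l k
    · exact leg3 l k
    · exact leg2 l k
  have hr := h.rot
  have hrr := h.rot.rot
  -- relation for σ x : J (σσx) x ; for σσx : J x (σ x)
  have e2 : p.F c (tog W (p.σ x)) (p.σ x) = p.F c (tog W (p.σ (p.σ x))) (p.σ (p.σ x)) := by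
    apply F_eq_of hr.broken hrr.broken
    · rw [hr.tog1, hrr.tog1]
      have A : p.Cov (insert (p.σ x) W) ↔
          ∀ z, p.σ z ≠ z → z ∉ W → (∃ l, p.R W z (p.m l)) ∨ p.R W z (p.σ x) := by
        constructor
        · intro hc z hz hzW
          by_cases hzx : z = p.σ x
          · right; rw [hzx]; exact Conn.refl _
          obtain ⟨l, hl⟩ := hc z hz (by simp [Finset.mem_insert, hzx, hzW])
          rcases hr.to hl with k | ⟨k, _⟩ | ⟨_, k⟩
          · exact Or.inl ⟨l, k⟩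
          · exact Or.inr (k.trans r23.symm)
          · exact absurd k (leg3 l)
        · intro hc z hz hzW
          rw [Finset.mem_insert, not_or] at hzW
          rcases hc z hz hzW.2 with ⟨l, hl⟩ | hl
          · exact ⟨l, hr.from1 hzW.1 (hr.mx l) hl⟩
          · refine ⟨i, hr.from hzW.1 (hr.mx i) (Or.inr (Or.inl ⟨hl.trans r23, ?_⟩))⟩
            rw [p.σ3]; exact r1
      have B : p.Cov (insert (p.σ (p.σ x)) W) ↔
          ∀ z, p.σ z ≠ z → z ∉ W → (∃ l, p.R W z (p.m l)) ∨ p.R W z (p.σ x) := by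
        constructor
        · intro hc z hz hzW
          by_cases hzx : z = p.σ (p.σ x)
          · right; rw [hzx]; exact r23.symm
          obtain ⟨l, hl⟩ := hc z hz (by simp [Finset.mem_insert, hzx, hzW])
          have hl' := hrr.to hl
          rw [p.σ3] at hl'
          rcases hl' with k | ⟨_, k⟩ | ⟨k, _⟩
          · exact Or.inl ⟨l, k⟩
          · exact absurd k (leg2 l)
          · exact Or.inr k
        · intro hc z hz hzW
          rw [Finset.mem_insert, not_or] at hzW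
          rcases hc z hz hzW.2 with ⟨l, hl⟩ | hl
          · exact ⟨l, hrr.from1 hzW.1 (hrr.mx l) hl⟩
          · refine ⟨i, hrr.from hzW.1 (hrr.mx i) ?_⟩
            rw [p.σ3]
            exact Or.inr (Or.inr ⟨hl, r1⟩)
      rw [A, B]
    · rw [hr.half1, hrr.half1, hr.tog1, hrr.tog1]
      apply otype_eq_of
      · intro l
        have A : p.R (insert (p.σ x) W) (p.m l) (p.a (p.σ x)) ↔ p.R W (p.m l) x := by
          constructor
          · intro h'
            have h'' := hr.to_a h'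
            rw [p.σ3] at h''
            rcases h'' with k | ⟨k, _⟩ | ⟨k, _⟩
            · exact absurd k.symm (leg2 l)
            · exact absurd k.symm (leg3 l)
            · exact k
          · intro h'
            apply hr.from_a (hr.mx l)
            rw [p.σ3]
            exact Or.inr (Or.inr ⟨h', r23.symm⟩)
        have B : p.R (insert (p.σ (p.σ x)) W) (p.m l) (p.a (p.σ (p.σ x))) ↔ p.R W (p.m l) x := by
          constructor
          · intro h'
            have h'' := hrr.to_a h'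
            rw [p.σ3] at h''
            rcases h'' with k | ⟨k, _⟩ | ⟨k, _⟩
            · exact absurd k.symm (leg3 l)
            · exact k
            · exact absurd k.symm (leg2 l)
          · intro h'
            apply hrr.from_a (hrr.mx l)
            rw [p.σ3]
            exact Or.inr (Or.inl ⟨h', r23⟩)
        rw [A, B]
      · intro l l'
        have A : p.R (insert (p.σ x) W) (p.m l) (p.m l') ↔ p.R W (p.m l) (p.m l') := by
          constructor
          · intro h'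
            have h'' := hr.to h'
            rw [p.σ3] at h''
            rcases h'' with k | ⟨k, _⟩ | ⟨_, k⟩
            · exact k
            · exact absurd k.symm (leg3 l)
            · exact absurd k (leg3 l')
          · intro h'
            exact hr.from1 (hr.mx l) (hr.mx l') h'
        have B : p.R (insert (p.σ (p.σ x)) W) (p.m l) (p.m l') ↔ p.R W (p.m l) (p.m l') := by
          constructor
          · intro h'
            have h'' := hrr.to h'
            rw [p.σ3] at h''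
            rcases h'' with k | ⟨_, k⟩ | ⟨k, _⟩
            · exact k
            · exact absurd k (leg2 l')
            · exact absurd k.symm (leg2 l)
          · intro h'
            exact hrr.from1 (hrr.mx l) (hrr.mx l') h'
        rw [A, B]
  rw [g1, e2, zero_add]
  exact CharTwo.add_self_eq_zero _

open Classical in
/-- a vertex with three used darts -/
theorem sum_deg3 [Fintype D] (c : (Fin K → Option (Fin K)) → ZMod 2)
    (hc : ∀ W u i j k, p.Tripod W u i j k →
      c (tri (p.trace W) i j k) + c (tri (p.trace W) j k i) + c (tri (p.trace W) k i j) = 0)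
    {W : Finset D} {x : D} (h : Deg3 p W x) :
    ∑ e : D, p.F c (tog W e) e = 0 := by
  have hzero : ∀ e, e ≠ x → e ≠ p.σ x → e ≠ p.σ (p.σ x) → p.F c (tog W e) e = 0 := by
    intro e e1 e2 e3
    unfold F
    rw [if_neg]
    rintro ⟨hb, _⟩
    rw [broken_tog] at hb
    have h4 := hb.2.2 x h.hσ
    rw [One3.congr (mem_tog e1.symm) (mem_tog e2.symm) (mem_tog e3.symm)] at h4
    have u1 := h.u1
    have u2 := h.u2
    have u3 := h.u3
    unfold One3 at h4
    tauto
  have hsub : ∑ e : D, p.F c (tog W e) e =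
      p.F c (tog W x) x + p.F c (tog W (p.σ x)) (p.σ x) +
        p.F c (tog W (p.σ (p.σ x))) (p.σ (p.σ x)) := by
    have : ∑ e : D, p.F c (tog W e) e =
        ∑ e ∈ {x, p.σ x, p.σ (p.σ x)}, p.F c (tog W e) e := by
      symm
      apply Finset.sum_subset (Finset.subset_univ _)
      intro e _ he
      rw [Finset.mem_insert, Finset.mem_insert, Finset.mem_singleton, not_or, not_or] at he
      exact hzero e he.1 he.2.1 he.2.2
    rw [this, Finset.sum_insert, Finset.sum_pair h.n23.symm, add_assoc]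
    rw [Finset.mem_insert, Finset.mem_singleton, not_or]
    exact ⟨h.n12.symm, h.n13.symm⟩
  rw [hsub]
  by_cases r23 : p.R W (p.σ x) (p.σ (p.σ x))
  · exact h.sum_loop c r23
  by_cases r31 : p.R W (p.σ (p.σ x)) x
  · have := h.rot.sum_loop c (by rw [p.σ3]; exact r31)
    rw [p.σ3] at this
    rw [← this]; ring
  by_cases r12 : p.R W x (p.σ x)
  · have := h.rot.rot.sum_loop c (by rw [p.σ3]; exact r12)
    rw [p.σ3] at this
    rw [← this]; ring
  -- three legs
  have leg1 : ∃ i, p.R W x (p.m i) ∧ ∀ l, p.R W x (p.m l) → l = i := by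
    obtain ⟨y, h1, h2, h3, h4, h5, h6⟩ := h.other
    rcases h3 with ⟨i, hi⟩ | h3 | h3
    · exact ⟨i, by rw [hi]; exact h2, fun l hl => p.minj (by rw [h4 l hl, hi])⟩
    · exact absurd (h3 ▸ h2) r12
    · exact absurd (Conn.symm (h3 ▸ h2)) r31
  have leg2 : ∃ i, p.R W (p.σ x) (p.m i) ∧ ∀ l, p.R W (p.σ x) (p.m l) → l = i := by
    obtain ⟨y, h1, h2, h3, h4, h5, h6⟩ := h.rot.other
    rcases h3 with ⟨i, hi⟩ | h3 | h3
    · exact ⟨i, by rw [hi]; exact h2, fun l hl => p.minj (by rw [h4 l hl, hi])⟩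
    · exact absurd (h3 ▸ h2) r23
    · rw [p.σ3] at h3
      exact absurd (Conn.symm (h3 ▸ h2)) r12
  have leg3 : ∃ i, p.R W (p.σ (p.σ x)) (p.m i) ∧ ∀ l, p.R W (p.σ (p.σ x)) (p.m l) → l = i := by
    obtain ⟨y, h1, h2, h3, h4, h5, h6⟩ := h.rot.rot.other
    rcases h3 with ⟨i, hi⟩ | h3 | h3
    · exact ⟨i, by rw [hi]; exact h2, fun l hl => p.minj (by rw [h4 l hl, hi])⟩
    · rw [p.σ3] at h3
      exact absurd (h3 ▸ h2) r31
    · rw [p.σ3] at h3
      exact absurd (Conn.symm (h3 ▸ h2)) r23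
  obtain ⟨i, r1, q1⟩ := leg1
  obtain ⟨j, r2, q2⟩ := leg2
  obtain ⟨k, r3, q3⟩ := leg3
  have ij : i ≠ j := fun h' => r12 (r1.trans (h' ▸ r2.symm))
  have jk : j ≠ k := fun h' => r23 (r2.trans (h' ▸ r3.symm))
  have ik : i ≠ k := fun h' => r31 (r3.trans (h' ▸ r1.symm))
  have ht : p.Tripod W x i j k := ⟨h.hσ, h.u1, h.u2, h.u3, h.vx, h.inv.1, h.inv.2, r1, r2, r3,
    ij, jk, ik⟩
  have hcc := hc W x i j k ht
  have o1 := h.otype_tri ij jk ik r1 r2 r3 q1 q2 q3
  have o2 := h.rot.otype_tri jk ik.symm ij.symm r2 r3 (by rw [p.σ3]; exact r1) q2 q3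
    (by rw [p.σ3]; exact q1)
  have o3 := h.rot.rot.otype_tri ik.symm ij jk.symm r3 (by rw [p.σ3]; exact r1)
    (by rw [p.σ3]; exact r2) q3 (by rw [p.σ3]; exact q1) (by rw [p.σ3]; exact q2)
  have c1 := h.cov_tri r1 r2 r3
  have c2 := h.rot.cov_tri r2 r3 (by rw [p.σ3]; exact r1)
  have c3 := h.rot.rot.cov_tri r3 (by rw [p.σ3]; exact r1) (by rw [p.σ3]; exact r2)
  by_cases hcov : p.Cov W
  · unfold F
    rw [if_pos ⟨h.broken, c1.2 hcov⟩, if_pos ⟨h.rot.broken, c2.2 hcov⟩,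
      if_pos ⟨h.rot.rot.broken, c3.2 hcov⟩, o1, o2, o3]
    exact hcc
  · unfold F
    rw [if_neg (fun h' => hcov (c1.1 h'.2)), if_neg (fun h' => hcov (c2.1 h'.2)),
      if_neg (fun h' => hcov (c3.1 h'.2))]
    rfl

open Classical in
/-- **The parity theorem.** -/
theorem parity [Fintype D] (p : Pole K D) (c : (Fin K → Option (Fin K)) → ZMod 2)
    (hc : ∀ W u i j k, p.Tripod W u i j k →
      c (tri (p.trace W) i j k) + c (tri (p.trace W) j k i) + c (tri (p.trace W) k i j) = 0) :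
    ∑ Z : Finset D with p.Closed Z ∧ p.Cov Z, ∑ x, c (opn (p.trace Z) x) = 0 := by
  have key : ∀ W : Finset D, ∑ e : D, p.F c (tog W e) e =
      if p.Closed W ∧ p.Cov W then ∑ x, c (opn (p.trace W) x) else 0 := by
    intro W
    by_cases hW : p.Closed W
    · rw [sum_closed c hW]
      by_cases h : p.Cov W
      · rw [if_pos h, if_pos ⟨hW, h⟩]
      · rw [if_neg h, if_neg (fun k => h k.2)]
    rw [if_neg (fun k => hW k.1)]
    by_cases hex : ∃ e, p.Broken (tog W e) e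
    swap
    · apply Finset.sum_eq_zero
      intro e _
      unfold F
      rw [if_neg (fun k => hex ⟨e, k.1⟩)]
    obtain ⟨e, he⟩ := hex
    rw [broken_tog] at he
    obtain ⟨hae, hinv, hvx⟩ := he
    by_cases hσ : p.σ e = e
    · exfalso
      apply hW
      refine ⟨?_, hinv.1, hinv.2⟩
      intro x hx
      have h1 : ∀ y, p.σ y ≠ y → y ≠ e := fun y hy h => hy (h ▸ hσ)
      have := hvx x hx
      rwa [One3.congr (mem_tog (h1 _ hx)) (mem_tog (h1 _ (σ_ne hx)))
        (mem_tog (h1 _ (σσσ_ne hx)))] at this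
    have hoth : ∀ y, p.σ y ≠ y → y ≠ e → y ≠ p.σ e → y ≠ p.σ (p.σ e) →
        One3 (y ∈ W) (p.σ y ∈ W) (p.σ (p.σ y) ∈ W) := by
      intro y hy y1 y2 y3
      have z1 : p.σ y ≠ e := fun h => y3 (p.σinj (by rw [h, p.σ3]))
      have w1 : p.σ (p.σ y) ≠ e := fun h => y2 (p.σinj (p.σinj (by rw [h, p.σ3])))
      have := hvx y hy
      rwa [One3.congr (mem_tog y1) (mem_tog z1) (mem_tog w1)] at this
    have hv := hvx e hσ
    rw [One3.congr mem_tog_self (mem_tog hσ) (mem_tog (σσ_ne hσ))] at hv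
    by_cases heW : e ∈ W
    · by_cases h2 : p.σ e ∈ W
      · have h3 : p.σ (p.σ e) ∉ W := by unfold One3 at hv; tauto
        exact sum_deg1 c hinv hσ heW h2 h3 hoth
      · have h3 : p.σ (p.σ e) ∈ W := by unfold One3 at hv; tauto
        have h4 : p.σ (p.σ (p.σ e)) = e := p.σ3 e
        refine sum_deg1 c hinv (x := p.σ (p.σ e)) (σσσ_ne hσ) h3 (by rw [h4]; exact heW)
          (by rw [h4]; exact h2) ?_
        intro y hy y1 y2 y3
        rw [h4] at y2 y3
        exact hoth y hy y2 y3 y1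
    · have h2 : p.σ e ∉ W := by unfold One3 at hv; tauto
      have h3 : p.σ (p.σ e) ∉ W := by unfold One3 at hv; tauto
      exact sum_deg3 c hc ⟨hinv, hσ, heW, h2, h3, hoth⟩
  have h0 := total_zero (p := p) c
  rw [Finset.sum_congr rfl (fun W _ => key W)] at h0
  rw [Finset.sum_filter]
  exact h0

end Pole
end Pool.H64.NC
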