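import Pool.Agent.Helper64.NC.F1
import Pool.Agent.Helper64.NC.Map
import Pool.Agent.Helper64.NC.Code

/-! NC: plane cubic maps, faces, coded wheels (definitions only). -/

namespace Pool.H64.NC

open Equiv

namespace CubicMap
variable {D : Type*} (M : CubicMap D)

/-- rotation around the vertices as a permutation -/
def permσ : Perm D where
  toFun := M.σ
  invFun := fun x => M.σ (M.σ x)
  left_inv := M.σ3
  right_inv := M.σ3

/-- the edge involution as a permutation -/
def permα : Perm D where
  toFun := M.α
  invFun := M.α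
  left_inv := M.α2
  right_inv := M.α2

/-- the face permutation `d ↦ σ (α d)` -/
def face : Perm D := M.permσ * M.permα

theorem face_apply (x : D) : M.face x = M.σ (M.α x) := rfl

/-- `x` and `y` are darts of the same face -/
def Fc (x y : D) : Prop := M.face.SameCycle x y

/-- length of the face of `x` -/
noncomputable def flen (x : D) : ℕ := Function.minimalPeriod M.face x

/-- connected and of genus 0: `V - E + F = 2` (with `|D| = 2 E`) -/
def Genus0 [Fintype D] : Prop :=
  (∀ S : Set D, S.Nonempty → (∀ d ∈ S, M.σ d ∈ S ∧ M.α d ∈ S) → S = Set.univ) ∧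
  2 * (ncyc M.permσ + ncyc M.face) = Fintype.card D + 4

/-- cyclic 4-edge-connectivity: a set of vertices with at least two vertices inside and outside is
left by at least four edges (`A`: set of darts of these vertices) -/
def C4 [Fintype D] [DecidableEq D] : Prop :=
  ∀ A : Finset D, (∀ x ∈ A, M.σ x ∈ A) → 6 ≤ A.card → 6 ≤ Aᶜ.card →
    4 ≤ (A.filter (fun x => M.α x ∉ A)).card

end CubicMap

/-- all dart codes of the wheel -/
def codes (q : List ℕ) : List ℕ := (Code.wV q).flatMap (fun v => [v.1, v.2.1, v.2.2])

/-- the map `M` contains the wheel with sizes `q`, `ι` being the injection of dart codes -/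
structure Coded {D : Type*} (M : CubicMap D) (q : List ℕ) (ι : ℕ → D) : Prop where
  s1 : ∀ v ∈ Code.wV q, M.σ (ι v.1) = ι v.2.1
  s2 : ∀ v ∈ Code.wV q, M.σ (ι v.2.1) = ι v.2.2
  al : ∀ x ∈ codes q, Code.isLeg x = false → M.α (ι x) = ι (x ^^^ 1)
  inj : ∀ x ∈ codes q, ∀ y ∈ codes q, ι x = ι y → x = y

end Pool.H64.NC
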