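import Pool.Agent.Helper64.NC.Walk2

/-! NC: planarity (homology) implies that traces and tripods of the exterior are noncrossing. -/

set_option linter.unusedSectionVars false

namespace Pool.H64.NC

open Function Code

/-- rim edges -/
def isRing (x : ℕ) : Bool := Nat.ble 2 ((x / 2) % 16) && Nat.blt ((x / 2) % 16) 8

/-- number of legs before a rim edge -/
def ringN (q : List ℕ) (x : ℕ) : ℕ :=
  ((q.take (x / 2 / 16)).map (fun s => s - 4)).sum + (x / 2) % 16 - 2

/-- the rim edges between the legs `a` and `b` -/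
def hval (q : List ℕ) (a b x : ℕ) : Bool :=
  isRing x && (Nat.blt a (ringN q x) && Nat.ble (ringN q x) b)

/-- value of the chain at the code `x` -/
def hv (q : List ℕ) (a b x : ℕ) : Bool :=
  (hval q a b x) || (isLeg x && (Nat.beq x ((wL q).getD a 0) || Nat.beq x ((wL q).getD b 0)))

def ringOK (q : List ℕ) : Bool :=
  (List.range (wL q).length).all (fun b => (List.range b).all (fun a => (wV q).all (fun v =>
    !(hv q a b v.1 ^^ (hv q a b v.2.1 ^^ hv q a b v.2.2)))))

/-- a step between codes preserving the potential -/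
def stepOK (q : List ℕ) (a b : ℕ) : Bool :=
  (codes q).contains a && (!isLeg a && (Nat.beq b (nx (TB q) (a ^^^ 1)) ||
    (Nat.beq b (a ^^^ 1) && !isRing a)))

def chk (q : List ℕ) : List (ℕ × ℕ) → List ℕ → Bool
  | [], _ => true
  | s :: l, seen => seen.contains s.1 && (stepOK q s.1 s.2 && chk q l (s.2 :: seen))

/-- the steps to all darts on the inner side of the rim -/
def chain (q : List ℕ) : List (ℕ × ℕ) :=
  (List.range q.length).flatMap (fun i =>
    (if i = 0 then [] else [(32 * (i - 1), 32 * i)]) ++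
    [(32 * i, 32 * i + 1), (32 * i + 1, 32 * i + 2)] ++
    (List.range (q.getD i 0 - 3)).map (fun k => (32 * i + 2 * (k + 1), 32 * i + 2 * (k + 2))))

def legOK (q : List ℕ) : Bool :=
  (List.range (wL q).length).all (fun l =>
    let r := nx (TB q) (nx (TB q) ((wL q).getD l 0))
    ((0 :: (chain q).map Prod.snd).contains r) && (isRing r && Nat.beq (ringN q r) (l + 1)))

structure Ring (q : List ℕ) : Prop where
  ring : ringOK q = true
  chn : chk q (chain q) [0] = true
  legs : legOK q = true
  z0 : 0 ∈ codes q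

section
variable {D : Type*} [Fintype D] [DecidableEq D] {M : CubicMap D} {q : List ℕ} {ι : ℕ → D}
variable (hc : Coded M q ι) (hq : WOK q) (hr : Ring q)
variable (hB : ∀ h : D → ZMod 2, (∀ d, h (M.α d) = h d) →
    (∀ d, h d + h (M.σ d) + h (M.σ (M.σ d)) = 0) →
    ∃ g : D → ZMod 2, (∀ d, g (M.σ (M.α d)) = g d) ∧ ∀ d, h d = g d + g (M.α d))

omit [Fintype D] [DecidableEq D] in
theorem hval_xor (q : List ℕ) (a b x : ℕ) : hval q a b (x ^^^ 1) = hval q a b x := by
  unfold hval isRing ringN
  rw [xor_half]

theorem isLeg_notRing {x : ℕ} (h : isLeg x = true) : isRing x = false := by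
  unfold isLeg at h
  unfold isRing
  rw [Nat.ble_eq] at h
  rw [Bool.and_eq_false_iff]
  right
  rw [Bool.eq_false_iff]
  intro h'
  rw [Nat.blt_eq] at h'
  omega

theorem z2_cases (x : ZMod 2) : x = 0 ∨ x = 1 := by
  revert x; decide

include hc hq hr hB in
open Classical in
theorem side {a b : Fin (wL q).length} (hab : a < b) (e : D → ZMod 2)
    (e1 : ∀ y, e (M.α y) = e y) (e2 : ∀ y, ¬ (hc.patch hq).X y → e y = 0)
    (e3 : ∀ y, y ∉ (hc.patch hq).P → e y + e (M.σ y) + e (M.σ (M.σ y)) = 0)
    (e4 : ∀ l, e ((hc.patch hq).m l) = if l = a ∨ l = b then 1 else 0) :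
    ∃ g : D → ZMod 2, (∀ y, (hc.patch hq).X y → g (M.α y) = g y + e y) ∧
      (∀ y, y ∉ (hc.patch hq).P → g (M.σ y) = g y + e y) ∧
      ∃ γ, ∀ l, g ((hc.patch hq).m l) = γ + (if a ≤ l ∧ l < b then 1 else 0) := by
  set r : D → ZMod 2 := fun y => if ∃ c ∈ codes q, ι c = y ∧ hval q a b c = true then 1 else 0
    with hrdef
  have hr0 : ∀ y, (hc.patch hq).X y → r y = 0 := by
    intro y hy
    rw [hrdef]
    refine if_neg ?_
    rintro ⟨c, hcc, rfl, hv⟩
    have := (X_code hc hq hcc).1 hy
    have := isLeg_notRing this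
    unfold hval at hv
    rw [this] at hv
    exact Bool.noConfusion hv
  have hrc : ∀ c ∈ codes q, r (ι c) = if hval q a b c = true then 1 else 0 := by
    intro c hcc
    by_cases h : hval q a b c = true
    · rw [if_pos h]; exact if_pos ⟨c, hcc, rfl, h⟩
    · rw [if_neg h]
      refine if_neg ?_
      rintro ⟨c', hc', h1, h2⟩
      rw [hc.inj _ hc' _ hcc h1] at h2
      exact h h2
  have hrα : ∀ y, r (M.α y) = r y := by
    intro y
    by_cases hX : (hc.patch hq).X y
    · rw [hr0 y hX, hr0 _ ((hc.patch hq).Xα hX)]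
    · obtain ⟨c, hcc, rfl⟩ := (mem_P hc hq).1 ((hc.patch hq).inP_of_notX hX)
      have hl : isLeg c = false := by
        rw [Bool.eq_false_iff]; intro h; exact hX ((X_code hc hq hcc).2 h)
      have h1 := (hq.xr c hcc hl).1
      rw [hc.al c hcc hl, hrc _ h1, hrc _ hcc, hval_xor]
  -- values at codes
  have hec : ∀ c ∈ codes q, e (ι c) + r (ι c) = if hv q a b c = true then 1 else 0 := by
    intro c hcc
    rw [hrc c hcc]
    unfold hv
    by_cases hl : isLeg c = true
    · obtain ⟨l, hlt, hlc⟩ := List.getElem_of_mem ((hq.leg c hcc).1 hl)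
      have h1 : hval q a b c = false := by
        unfold hval; rw [isLeg_notRing hl]; rfl
      have h2 : e (ι c) = if (⟨l, hlt⟩ : Fin (wL q).length) = a ∨
          (⟨l, hlt⟩ : Fin (wL q).length) = b then 1 else 0 := by
        rw [← e4 ⟨l, hlt⟩, m_eq]
        exact congrArg (fun z => e (ι z)) hlc.symm
      have h3 : ∀ k : Fin (wL q).length, (Nat.beq c ((wL q).getD k 0) = true ↔
          (⟨l, hlt⟩ : Fin (wL q).length) = k) := by
        intro k
        rw [Nat.beq_eq]
        have : (wL q).getD (k : ℕ) 0 = (wL q)[k] := by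
          rw [List.getD_eq_getElem?_getD, List.getElem?_eq_getElem k.2]; rfl
        rw [this, ← hlc]
        constructor
        · intro h; exact Fin.ext ((hq.ndL.getElem_inj_iff).1 h)
        · intro h; subst h; rfl
      rw [h1, hl, h2]
      simp only [Bool.false_or, Bool.true_and, Bool.or_eq_true, h3]
      simp
    · have hl' : isLeg c = false := Bool.eq_false_iff.2 hl
      have hX : ¬ (hc.patch hq).X (ι c) := by rw [X_code hc hq hcc]; exact hl
      rw [e2 _ hX, hl', zero_add]
      simp
  obtain ⟨g, g1, g2⟩ := hB (fun y => e y + r y) (fun d => by simp only [e1, hrα]) (by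
    intro y
    by_cases hy : y ∈ (hc.patch hq).P
    · obtain ⟨c, hcc, rfl⟩ := (mem_P hc hq).1 hy
      obtain ⟨n1, c1⟩ := nx_spec hc hq hcc
      obtain ⟨n2, c2⟩ := nx_spec hc hq c1
      rw [n1, n2, hec _ hcc, hec _ c1, hec _ c2]
      obtain ⟨v, hv', h4⟩ := mem_codes.1 hcc
      obtain ⟨t1, t2, t3⟩ := hq.tab v hv'
      have hR := hr.ring
      unfold ringOK at hR
      have hR1 := List.all_eq_true.1 (List.all_eq_true.1 (List.all_eq_true.1 hR b
        (List.mem_range.2 b.2)) a (List.mem_range.2 hab)) v hv'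
      have key : ∀ x y z : Bool, (!(x ^^ (y ^^ z))) = true →
          (((if x = true then 1 else 0) + (if y = true then 1 else 0) +
            (if z = true then 1 else 0) : ZMod 2) = 0) := by decide
      rcases h4 with rfl | rfl | rfl
      · rw [TB, t1, t2]; exact key _ _ _ hR1
      · rw [TB, t2, t3, add_comm, ← add_assoc]; exact key _ _ _ hR1
      · rw [TB, t3, t1]
        have := key _ _ _ hR1
        rw [add_comm, ← add_assoc] at this
        exact this
    · have h1 : M.σ y ∉ (hc.patch hq).P := fun h' => hy ((hc.patch hq).σP'.1 h')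
      have h2 : M.σ (M.σ y) ∉ (hc.patch hq).P := fun h' => h1 ((hc.patch hq).σP'.1 h')
      rw [hr0 y (Or.inl hy), hr0 _ (Or.inl h1), hr0 _ (Or.inl h2), add_zero, add_zero, add_zero]
      exact e3 y hy)
  have gα : ∀ y, g (M.α y) = g y + (e y + r y) := by
    intro y
    have h := g2 y
    rw [h, ← add_assoc, CharTwo.add_self_eq_zero, zero_add]
  have gσ : ∀ y, g (M.σ y) = g y + (e y + r y) := by
    intro y
    have h := g1 (M.α y)
    rw [M.α2] at h
    rw [h, gα]
  refine ⟨g, ?_, ?_, g (ι 0), ?_⟩
  · intro y hy; rw [gα, hr0 y hy, add_zero]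
  · intro y hy; rw [gσ, hr0 y (Or.inl hy), add_zero]
  · -- inner side of the rim
    have hstep : ∀ s t : ℕ, stepOK q s t = true → g (ι t) = g (ι s) := by
      intro s t h
      unfold stepOK at h
      rw [Bool.and_eq_true, Bool.and_eq_true, Bool.or_eq_true, Bool.and_eq_true] at h
      obtain ⟨h1, h2, h3⟩ := h
      have hs : s ∈ codes q := List.contains_iff_mem.1 h1
      have hl : isLeg s = false := by simpa using h2
      rcases h3 with h3 | ⟨h3, h4⟩
      · rw [Nat.beq_eq] at h3
        have h5 := (hq.xr s hs hl).1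
        rw [h3, ← (nx_spec hc hq h5).1, ← hc.al s hs hl, g1]
      · rw [Nat.beq_eq] at h3
        rw [h3, ← hc.al s hs hl, gα, hec s hs]
        have : hv q a b s = false := by
          unfold hv hval
          have h5 : isRing s = false := by simpa using h4
          rw [h5, hl]; rfl
        rw [this]; simp
    have hchk : ∀ (l : List (ℕ × ℕ)) (seen : List ℕ), chk q l seen = true →
        (∀ c ∈ seen, g (ι c) = g (ι 0)) → ∀ c ∈ l.map Prod.snd, g (ι c) = g (ι 0) := by
      intro l
      induction l with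
      | nil => intro seen _ _ c hcm; simp at hcm
      | cons s l ih =>
        intro seen h hs c hcm
        unfold chk at h
        rw [Bool.and_eq_true, Bool.and_eq_true] at h
        obtain ⟨h1, h2, h3⟩ := h
        have h4 : g (ι s.2) = g (ι 0) := by
          rw [hstep _ _ h2]; exact hs _ (List.contains_iff_mem.1 h1)
        rw [List.map_cons, List.mem_cons] at hcm
        rcases hcm with rfl | hcm
        · exact h4
        · refine ih (s.2 :: seen) h3 ?_ c hcm
          intro c' hc'
          rw [List.mem_cons] at hc'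
          rcases hc' with rfl | hc'
          · exact h4
          · exact hs c' hc'
    have hgood : ∀ c ∈ 0 :: (chain q).map Prod.snd, g (ι c) = g (ι 0) := by
      intro c hcm
      rw [List.mem_cons] at hcm
      rcases hcm with rfl | hcm
      · rfl
      · refine hchk _ [0] hr.chn ?_ c hcm
        intro c' hc'
        rw [List.mem_singleton] at hc'
        rw [hc']
    intro l
    have hL := List.all_eq_true.1 hr.legs l (List.mem_range.2 l.2)
    have hget : (wL q).getD (l : ℕ) 0 = (wL q)[l] := by
      rw [List.getD_eq_getElem?_getD, List.getElem?_eq_getElem l.2]; rfl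
    simp only [hget] at hL
    rw [Bool.and_eq_true, Bool.and_eq_true] at hL
    obtain ⟨l1, l2, l3⟩ := hL
    rw [Nat.beq_eq] at l3
    have hyc := hq.legc _ (List.getElem_mem l.2)
    obtain ⟨n1, c1⟩ := nx_spec hc hq hyc
    obtain ⟨n2, c2⟩ := nx_spec hc hq c1
    obtain ⟨n3, c3⟩ := nx_spec hc hq c2
    have hrg := hgood _ (List.contains_iff_mem.1 l1)
    have hm : (hc.patch hq).m l = M.σ (ι (nx (TB q) (nx (TB q) (wL q)[l]))) := by
      change _ = M.σ (ι (nx (TB q) (nx (TB q) (wL q)[(l : ℕ)])))
      rw [← n2, ← n1, M.σ3]; rfl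
    have hec2 : e (ι (nx (TB q) (nx (TB q) (wL q)[l]))) + r (ι (nx (TB q) (nx (TB q) (wL q)[l]))) =
      if hv q a b (nx (TB q) (nx (TB q) (wL q)[l])) = true then 1 else 0 := hec _ c2
    rw [hm, gσ, hec2]
    have hrg' : g (ι (nx (TB q) (nx (TB q) (wL q)[l]))) = g (ι 0) := hrg
    rw [hrg']
    congr 1
    have hnl : isLeg (nx (TB q) (nx (TB q) (wL q)[l])) = false := by
      rw [Bool.eq_false_iff]
      intro h
      have := isLeg_notRing h
      rw [this] at l2
      exact Bool.noConfusion l2
    have hcond : hv q a b (nx (TB q) (nx (TB q) (wL q)[l])) = true ↔ (a ≤ l ∧ l < b) := by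
      unfold hv hval
      rw [hnl, l2, l3]
      simp only [Bool.true_and, Bool.false_and, Bool.or_false, Bool.and_eq_true, Nat.blt_eq,
        Nat.ble_eq]
      rw [Fin.le_def, Fin.lt_def]
      omega
    by_cases h : a ≤ l ∧ l < b
    · rw [if_pos h, if_pos (hcond.2 h)]
    · rw [if_neg h, if_neg (fun h' => h (hcond.1 h'))]

end
end Pool.H64.NC
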