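import Pool.Agent.Helper64.NC.Conn

/-! NC: elementary facts on `sw`, `ae`, `R`. -/

set_option linter.unusedSectionVars false

namespace Pool.H64.NC

open Function

theorem One3.congr {p q r p' q' r' : Prop} (h1 : p ↔ p') (h2 : q ↔ q') (h3 : r ↔ r') :
    One3 p q r ↔ One3 p' q' r' := by rw [One3, One3, h1, h2, h3]

namespace Pole
variable {K : ℕ} {D : Type*} [DecidableEq D] (p : Pole K D)

theorem σinj : Injective p.σ := fun x y h => by
  have := congrArg p.σ (congrArg p.σ h); rwa [p.σ3, p.σ3] at this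
theorem ainv : Involutive p.a := p.a2
theorem ainj : Injective p.a := p.ainv.injective

variable {p}

theorem σσ_ne {x : D} (h : p.σ x ≠ x) : p.σ (p.σ x) ≠ x := fun h' => h (by
  have := p.σ3 x; rw [h'] at this; exact this)
theorem σσ_ne' {x : D} (h : p.σ x ≠ x) : p.σ (p.σ x) ≠ p.σ x := fun h' => h (p.σinj h')
theorem σ_ne {x : D} (h : p.σ x ≠ x) : p.σ (p.σ x) ≠ p.σ x := σσ_ne' h
theorem σσσ_ne {x : D} (h : p.σ x ≠ x) : p.σ (p.σ (p.σ x)) ≠ p.σ (p.σ x) := by
  rw [p.σ3]; exact fun h' => σσ_ne h h'.symm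

variable (p)

theorem sw_inv (Z : Finset D) : Involutive (sw p.σ Z) := by
  intro x
  unfold sw
  by_cases h1 : x ∉ Z ∧ p.σ x ∉ Z ∧ p.σ (p.σ x) ∈ Z
  · rw [if_pos h1]
    have h2 : ¬ (p.σ x ∉ Z ∧ p.σ (p.σ x) ∉ Z ∧ p.σ (p.σ (p.σ x)) ∈ Z) := fun h => h.2.1 h1.2.2
    rw [if_neg h2, if_pos ⟨h1.2.1, h1.2.2, by rw [p.σ3]; exact h1.1⟩, p.σ3]
  · rw [if_neg h1]
    by_cases h2 : x ∉ Z ∧ p.σ x ∈ Z ∧ p.σ (p.σ x) ∉ Z
    · rw [if_pos h2, p.σ3, if_pos ⟨h2.2.2, h2.1, h2.2.1⟩]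
    · rw [if_neg h2, if_neg h1, if_neg h2]

theorem ae_inv (Z : Finset D) : Involutive (ae p.a Z) := by
  intro x
  unfold ae
  by_cases h1 : x ∉ Z ∧ p.a x ∉ Z
  · rw [if_pos h1, p.a2, if_pos ⟨h1.2, h1.1⟩]
  · rw [if_neg h1, if_neg h1]

variable {p}

theorem sw_mem {Z : Finset D} {x : D} (h : x ∈ Z) : sw p.σ Z x = x := by
  unfold sw; rw [if_neg (fun k => k.1 h), if_neg (fun k => k.1 h)]
theorem ae_mem {Z : Finset D} {x : D} (h : x ∈ Z) : ae p.a Z x = x := by
  unfold ae; rw [if_neg (fun k => k.1 h)]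
theorem ae_mem' {Z : Finset D} {x : D} (h : p.a x ∈ Z) : ae p.a Z x = x := by
  unfold ae; rw [if_neg (fun k => k.2 h)]
theorem ae_used {Z : Finset D} {x : D} (h : x ∉ Z) (h' : p.a x ∉ Z) : ae p.a Z x = p.a x := by
  unfold ae; rw [if_pos ⟨h, h'⟩]
theorem sw_leg {Z : Finset D} {x : D} (h : p.σ x = x) : sw p.σ Z x = x := by
  unfold sw; rw [h, h]; split_ifs <;> rfl

theorem sw_one {Z : Finset D} {x : D} (h1 : x ∉ Z) (h2 : p.σ x ∉ Z) (h3 : p.σ (p.σ x) ∈ Z) :
    sw p.σ Z x = p.σ x := by unfold sw; rw [if_pos ⟨h1, h2, h3⟩]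
theorem sw_two {Z : Finset D} {x : D} (h1 : x ∉ Z) (h2 : p.σ x ∈ Z) (h3 : p.σ (p.σ x) ∉ Z) :
    sw p.σ Z x = p.σ (p.σ x) := by
  unfold sw; rw [if_neg (fun h => h.2.1 h2), if_pos ⟨h1, h2, h3⟩]

theorem sw_ne {Z : Finset D} {x : D} (h : p.σ x ≠ x) (hx : x ∉ Z)
    (h1 : One3 (x ∈ Z) (p.σ x ∈ Z) (p.σ (p.σ x) ∈ Z)) : sw p.σ Z x ≠ x := by
  rcases h1 with ⟨h1, _⟩ | ⟨h1, h2, h3⟩ | ⟨h1, h2, h3⟩
  · exact absurd h1 hx
  · rw [sw_two h1 h2 h3]; exact σσ_ne h
  · rw [sw_one h1 h2 h3]; exact h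

/-- `sw` at `x` only depends on membership of the three darts -/
theorem sw_congr {Z Z' : Finset D} {x : D} (h1 : x ∈ Z ↔ x ∈ Z') (h2 : p.σ x ∈ Z ↔ p.σ x ∈ Z')
    (h3 : p.σ (p.σ x) ∈ Z ↔ p.σ (p.σ x) ∈ Z') : sw p.σ Z x = sw p.σ Z' x := by
  unfold sw; simp only [h1, h2, h3]

theorem ae_congr {Z Z' : Finset D} {x : D} (h1 : x ∈ Z ↔ x ∈ Z') (h2 : p.a x ∈ Z ↔ p.a x ∈ Z') :
    ae p.a Z x = ae p.a Z' x := by
  unfold ae; simp only [h1, h2]

theorem sw_congr_all {Z Z' : Finset D} (h : ∀ x, p.σ x ≠ x → (x ∈ Z ↔ x ∈ Z')) :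
    sw p.σ Z = sw p.σ Z' := by
  funext x
  by_cases hx : p.σ x = x
  · rw [sw_leg hx, sw_leg hx]
  · exact sw_congr (h _ hx) (h _ (σ_ne hx)) (h _ (σσσ_ne hx))

theorem ae_erase {W : Finset D} {x : D} (hx : x ∈ W) (hax : p.a x ∈ W) (hne : p.a x ≠ x) :
    ae p.a (W.erase x) = ae p.a W := by
  funext y
  by_cases hy : y = x
  · subst hy
    rw [ae_mem hx, ae_mem' (Finset.mem_erase.2 ⟨hne, hax⟩)]
  · by_cases hy' : p.a y = x
    · have : y = p.a x := by rw [← hy', p.a2]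
      subst this
      rw [ae_mem hax, ae_mem (Finset.mem_erase.2 ⟨hy, hax⟩)]
    · apply ae_congr
      · simp [Finset.mem_erase, hy]
      · simp [Finset.mem_erase, hy']

variable (p)

theorem R_equiv (Z : Finset D) : Equivalence (p.R Z) := conn_equiv

variable {p}

theorem R_iso {Z : Finset D} {x y : D} (hx : x ∈ Z) (h : p.R Z x y) : y = x :=
  conn_isolated' (p.sw_inv Z) (p.ae_inv Z) (sw_mem hx) (ae_mem hx) h

theorem R_iso' {Z : Finset D} {x y : D} (hx : x ∈ Z) (h : p.R Z y x) : y = x :=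
  R_iso hx h.symm

theorem m_leg (i : Fin K) : p.σ (p.m i) = p.m i ∧ p.a (p.m i) ≠ p.m i := (p.leg _).2 ⟨i, rfl⟩

/-- the comparison lemma for the insertion of a used dart -/
theorem ins_le {W : Finset D} {x : D} (hx : x ∉ W) (hax : p.a x ∉ W)
    (hsw : ∀ z, sw p.σ W z = sw p.σ (insert x W) z ∨ sw p.σ W z = z)
    {z w : D} (h : p.R W z w) :
    p.R (insert x W) z w ∨ (z = x ∧ p.R (insert x W) (p.a x) w) ∨
      (w = x ∧ p.R (insert x W) z (p.a x)) := by
  have hm : x ∈ insert x W := Finset.mem_insert_self _ _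
  have key : J (p.R (insert x W)) x (p.a x) z w := by
    refine conn_le (J_equiv (p.R_equiv _) _ _) ?_ ?_ h
    · intro y
      left
      rcases hsw y with h | h
      · rw [h]; exact Conn.ms _
      · rw [h]; exact Conn.refl _
    · intro y
      by_cases hy : y = x
      · subst hy; rw [ae_used hx hax]; exact J_xy (p.R_equiv _) _ _
      · by_cases hy' : p.a y = x
        · have : y = p.a x := by rw [← hy', p.a2]
          subst this
          rw [ae_used hax (by rw [p.a2]; exact hx), p.a2]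
          exact (J_equiv (p.R_equiv _) _ _).symm (J_xy (p.R_equiv _) _ _)
        · left
          have : ae p.a W y = ae p.a (insert x W) y := by
            apply ae_congr
            · simp [Finset.mem_insert, hy]
            · simp [Finset.mem_insert, hy']
          rw [this]; exact Conn.ma _
  rcases key with h | ⟨h, h'⟩ | ⟨h, h'⟩
  · exact Or.inl h
  · exact Or.inr (Or.inl ⟨R_iso' hm h, h'⟩)
  · exact Or.inr (Or.inr ⟨R_iso hm h', h⟩)

theorem ins_ae {W : Finset D} {x : D} (hx : x ∉ W) (hax : p.a x ∉ W) (z : D) :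
    p.R W z (ae p.a (insert x W) z) := by
  by_cases hz : z = x
  · subst hz; rw [ae_mem (Finset.mem_insert_self _ _)]; exact Conn.refl _
  · by_cases hz' : p.a z = x
    · rw [ae_mem' (by rw [hz']; exact Finset.mem_insert_self _ _)]; exact Conn.refl _
    · have : ae p.a (insert x W) z = ae p.a W z := by
        apply ae_congr
        · simp [Finset.mem_insert, hz]
        · simp [Finset.mem_insert, hz']
      rw [this]; exact Conn.ma _

end Pole

section part
variable {K : ℕ} {r : Fin K → Fin K → Prop}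

theorem part_spec {i : Fin K} (h : ∃ j, j ≠ i ∧ r i j) : part r i ≠ i ∧ r i (part r i) := by
  unfold part; rw [dif_pos h]; exact h.choose_spec

theorem part_none {i : Fin K} (h : ∀ j, j ≠ i → ¬ r i j) : part r i = i := by
  unfold part; rw [dif_neg]; rintro ⟨j, h1, h2⟩; exact h j h1 h2

theorem part_eq {i k : Fin K} (hk : k ≠ i) (hr : r i k) (h : ∀ j, j ≠ i → r i j → j = k) :
    part r i = k := by
  have := part_spec ⟨k, hk, hr⟩
  exact h _ this.1 this.2

open Classical in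
theorem part_congr {r' : Fin K → Fin K → Prop} {i : Fin K} (h : ∀ j, r i j ↔ r' i j) :
    part r i = part r' i := by
  have this : r i = r' i := funext fun j => propext (h j)
  let F : (Fin K → Prop) → Fin K := fun q => if h : ∃ j, j ≠ i ∧ q j then h.choose else i
  exact congrArg F this

end part

end Pool.H64.NC
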