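import Pool.Agent.Helper64.NC.Plane
import Pool.Agent.Helper64.NC.Glue
import Pool.Agent.Helper64.NC.St.EnumC
import Pool.Agent.Helper64.NC.St.Dfs

/-! NC: the coded wheel as a patch; soundness of the computed traces. -/

set_option linter.unusedSectionVars false

namespace Pool.H64.NC

open Function Code

/-- combinatorial facts on the code of a wheel, checked for every single `q` -/
structure WOK (q : List ℕ) : Prop where
  nd : (codes q).Nodup
  ndL : (wL q).Nodup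
  leg : ∀ x ∈ codes q, (isLeg x = true ↔ x ∈ wL q)
  legc : ∀ x ∈ wL q, x ∈ codes q
  xr : ∀ x ∈ codes q, isLeg x = false → x ^^^ 1 ∈ codes q ∧ isLeg (x ^^^ 1) = false
  half : ∀ x ∈ codes q, ∀ y ∈ codes q, x / 2 = y / 2 → x = y ∨ (y = x ^^^ 1 ∧ isLeg x = false)
  tab : ∀ v ∈ wV q, nx (table (wV q)) v.1 = v.2.1 ∧ nx (table (wV q)) v.2.1 = v.2.2 ∧
    nx (table (wV q)) v.2.2 = v.1
  K15 : (wL q).length ≤ 15

theorem mem_codes {q : List ℕ} {x : ℕ} :
    x ∈ codes q ↔ ∃ v ∈ wV q, x = v.1 ∨ x = v.2.1 ∨ x = v.2.2 := by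
  unfold codes
  rw [List.mem_flatMap]
  simp only [List.mem_cons, List.not_mem_nil, or_false]

section
variable {D : Type*} [DecidableEq D] {M : CubicMap D} {q : List ℕ} {ι : ℕ → D}

/-- rotation table of the wheel -/
abbrev TB (q : List ℕ) : ℕ := table (wV q)

theorem nx_spec (hc : Coded M q ι) (hq : WOK q) {x : ℕ} (hx : x ∈ codes q) :
    M.σ (ι x) = ι (nx (TB q) x) ∧ nx (TB q) x ∈ codes q := by
  rw [mem_codes] at hx
  obtain ⟨v, hv, h⟩ := hx
  obtain ⟨t1, t2, t3⟩ := hq.tab v hv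
  rcases h with rfl | rfl | rfl
  · rw [t1]; exact ⟨hc.s1 v hv, mem_codes.2 ⟨v, hv, Or.inr (Or.inl rfl)⟩⟩
  · rw [t2]; exact ⟨hc.s2 v hv, mem_codes.2 ⟨v, hv, Or.inr (Or.inr rfl)⟩⟩
  · rw [t3]
    refine ⟨?_, mem_codes.2 ⟨v, hv, Or.inl rfl⟩⟩
    rw [← hc.s2 v hv, ← hc.s1 v hv, M.σ3]

/-- the wheel as a patch -/
def Coded.patch (hc : Coded M q ι) (hq : WOK q) : M.Patch (wL q).length where
  P := (codes q).toFinset.image ι
  m := fun i => ι (wL q)[i]
  mP := by
    intro i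
    exact Finset.mem_image.2 ⟨_, List.mem_toFinset.2 (hq.legc _ (List.getElem_mem _)), rfl⟩
  inj := by
    intro i j h
    have := hc.inj _ (hq.legc _ (List.getElem_mem _)) _ (hq.legc _ (List.getElem_mem _)) h
    exact Fin.ext ((hq.ndL.getElem_inj_iff).1 this)
  σP := by
    intro x hx
    obtain ⟨c, hcc, rfl⟩ := Finset.mem_image.1 hx
    obtain ⟨h1, h2⟩ := nx_spec hc hq (List.mem_toFinset.1 hcc)
    rw [h1]
    exact Finset.mem_image.2 ⟨_, List.mem_toFinset.2 h2, rfl⟩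
  αP := by
    intro x hx hm
    obtain ⟨c, hcc, rfl⟩ := Finset.mem_image.1 hx
    rw [List.mem_toFinset] at hcc
    have hl : isLeg c = false := by
      rw [Bool.eq_false_iff]
      intro h
      obtain ⟨i, hi, hic⟩ := List.getElem_of_mem ((hq.leg c hcc).1 h)
      exact hm ⟨i, hi⟩ (congrArg ι hic)
    obtain ⟨h1, h2⟩ := hq.xr c hcc hl
    rw [hc.al c hcc hl]
    refine ⟨Finset.mem_image.2 ⟨_, List.mem_toFinset.2 h1, rfl⟩, ?_⟩
    intro i h
    have h3 := hc.inj _ (hq.legc _ (List.getElem_mem _)) _ h1 h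
    have h4 : isLeg (wL q)[i] = true := (hq.leg _ (hq.legc _ (List.getElem_mem _))).2 (List.getElem_mem _)
    have h5 : isLeg (wL q)[i] = false := by
      have : (wL q)[i] = c ^^^ 1 := h3
      rw [this]; exact h2
    rw [h4] at h5
    exact Bool.noConfusion h5

variable (hc : Coded M q ι) (hq : WOK q)
include hc hq

theorem mem_P {x : D} : x ∈ (hc.patch hq).P ↔ ∃ c ∈ codes q, ι c = x := by
  change x ∈ (codes q).toFinset.image ι ↔ _
  rw [Finset.mem_image]
  simp only [List.mem_toFinset]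

theorem m_eq (i : Fin (wL q).length) : (hc.patch hq).m i = ι (wL q)[i] := rfl

theorem X_code {c : ℕ} (hcc : c ∈ codes q) : (hc.patch hq).X (ι c) ↔ isLeg c = true := by
  unfold CubicMap.Patch.X
  constructor
  · rintro (h | ⟨i, hi⟩)
    · exact absurd ((mem_P hc hq).2 ⟨c, hcc, rfl⟩) h
    · have := hc.inj _ (hq.legc _ (List.getElem_mem _)) _ hcc hi
      have h' : (wL q)[i] = c := this
      rw [← h']
      exact (hq.leg _ (hq.legc _ (List.getElem_mem _))).2 (List.getElem_mem _)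
  · intro h
    obtain ⟨i, hi, hic⟩ := List.getElem_of_mem ((hq.leg c hcc).1 h)
    exact Or.inr ⟨⟨i, hi⟩, congrArg ι hic⟩

/-- `b` codes the configuration `C` -/
def Match (_hc : Coded M q ι) (C : Finset D) (b : ℕ) : Prop :=
  ∀ c ∈ codes q, (ι c ∈ C ↔ bt b (c / 2) = true)

theorem exists_match {C : Finset D} (hC : (hc.patch hq).Inner C) :
    ∃ b ∈ enumC (wV q) 0 0, Match hc C b := by
  set u : ℕ → Prop := fun e => ∃ c ∈ codes q, c / 2 = e ∧ ι c ∈ C with hu
  have hu1 : ∀ c ∈ codes q, (u (c / 2) ↔ ι c ∈ C) := by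
    intro c hcc
    constructor
    · rintro ⟨c', hc', h1, h2⟩
      rcases hq.half c' hc' c hcc h1 with h | ⟨h, h'⟩
      · rwa [← h]
      · have hX : ¬ (hc.patch hq).X (ι c') := by rw [X_code hc hq hc', h']; simp
        have := (hC.e _ hX).1 h2
        rwa [hc.al _ hc' h', ← h] at this
    · intro h; exact ⟨c, hcc, rfl, h⟩
  have hV : ∀ v ∈ wV q, One3 (u (v.1 / 2)) (u (v.2.1 / 2)) (u (v.2.2 / 2)) := by
    intro v hv
    have c1 : v.1 ∈ codes q := mem_codes.2 ⟨v, hv, Or.inl rfl⟩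
    have c2 : v.2.1 ∈ codes q := mem_codes.2 ⟨v, hv, Or.inr (Or.inl rfl)⟩
    have c3 : v.2.2 ∈ codes q := mem_codes.2 ⟨v, hv, Or.inr (Or.inr rfl)⟩
    rw [One3.congr (hu1 _ c1) (hu1 _ c2) (hu1 _ c3), ← hc.s2 v hv, ← hc.s1 v hv]
    exact hC.v _ ((mem_P hc hq).2 ⟨_, c1, rfl⟩)
  have h0 : ∀ e, bt 0 e = true → False := by
    intro e he
    unfold bt at he
    simp at he
  obtain ⟨b, hb, h1, _, h3⟩ := enumC_sound (wV q) u hV 0 0 (fun e he => (h0 e he).elim)
    (fun e he => (h0 e he).elim)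
  refine ⟨b, hb, fun c hcc => ?_⟩
  rw [← hu1 c hcc]
  constructor
  · intro h
    obtain ⟨v, hv, h4⟩ := mem_codes.1 hcc
    obtain ⟨k1, k2, k3⟩ := h3 v hv
    rcases h4 with rfl | rfl | rfl
    · exact k1 h
    · exact k2 h
    · exact k3 h
  · exact h1 _

theorem match_unique {C C' : Finset D} {b : ℕ} (hC : ∀ x ∈ C, x ∈ (hc.patch hq).P)
    (hC' : ∀ x ∈ C', x ∈ (hc.patch hq).P) (h : Match hc C b) (h' : Match hc C' b) : C = C' := by
  ext x
  constructor
  · intro hx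
    obtain ⟨c, hcc, rfl⟩ := (mem_P hc hq).1 (hC x hx)
    exact (h' c hcc).2 ((h c hcc).1 hx)
  · intro hx
    obtain ⟨c, hcc, rfl⟩ := (mem_P hc hq).1 (hC' x hx)
    exact (h c hcc).2 ((h' c hcc).1 hx)

/-- bit patterns satisfying the vertex conditions -/
def validB (q : List ℕ) (b : ℕ) : Bool :=
  (wV q).all (fun v => Nat.beq ((bt b (v.1 / 2)).toNat + (bt b (v.2.1 / 2)).toNat +
    (bt b (v.2.2 / 2)).toNat) 1)

open Classical in
theorem match_exists {b : ℕ} (hb : validB q b = true) :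
    ∃ C, (hc.patch hq).Inner C ∧ Match hc C b := by
  set C : Finset D := (hc.patch hq).P.filter (fun x => ∃ c ∈ codes q, ι c = x ∧ bt b (c / 2) = true)
    with hCdef
  have hm : Match hc C b := by
    intro c hcc
    rw [hCdef, Finset.mem_filter]
    constructor
    · rintro ⟨_, c', hc', h1, h2⟩
      rwa [← hc.inj _ hc' _ hcc h1]
    · intro h
      exact ⟨(mem_P hc hq).2 ⟨c, hcc, rfl⟩, c, hcc, rfl, h⟩
  have hvert : ∀ v ∈ wV q, One3 (bt b (v.1 / 2) = true) (bt b (v.2.1 / 2) = true)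
      (bt b (v.2.2 / 2) = true) := by
    intro v hv
    have := List.all_eq_true.1 hb v hv
    cases h1 : bt b (v.1 / 2) <;> cases h2 : bt b (v.2.1 / 2) <;> cases h3 : bt b (v.2.2 / 2) <;>
      rw [h1, h2, h3] at this <;> simp [One3] at this ⊢
  refine ⟨C, ⟨?_, ?_, ?_⟩, hm⟩
  · intro x hx; exact (Finset.mem_filter.1 hx).1
  · intro x hx
    obtain ⟨c, hcc, rfl⟩ := (mem_P hc hq).1 hx
    obtain ⟨e1, e2⟩ := nx_spec hc hq hcc
    obtain ⟨e3, e4⟩ := nx_spec hc hq e2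
    rw [e1, e3, One3.congr (hm _ hcc) (hm _ e2) (hm _ e4)]
    obtain ⟨v, hv, h4⟩ := mem_codes.1 hcc
    obtain ⟨t1, t2, t3⟩ := hq.tab v hv
    have hv' := hvert v hv
    rcases h4 with rfl | rfl | rfl
    · rw [TB, t1, t2]; exact hv'
    · rw [TB, t2, t3]; unfold One3 at hv' ⊢; tauto
    · rw [TB, t3, t1]; unfold One3 at hv' ⊢; tauto
  · intro x hx
    have hxP := (hc.patch hq).inP_of_notX hx
    obtain ⟨c, hcc, rfl⟩ := (mem_P hc hq).1 hxP
    have hl : isLeg c = false := by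
      rw [Bool.eq_false_iff]; intro h; exact hx ((X_code hc hq hcc).2 h)
    have h1 := (hq.xr c hcc hl).1
    rw [hc.al c hcc hl, hm c hcc, hm _ h1]
    have : (c ^^^ 1) / 2 = c / 2 := by
      have h2 : (c ^^^ 1) >>> 1 = c >>> 1 := by
        rw [Nat.shiftRight_xor_distrib]; simp
      rwa [Nat.shiftRight_eq_div_pow, Nat.shiftRight_eq_div_pow, pow_one] at h2
    rw [this]

end
end Pool.H64.NC
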