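import Pool.Agent.Helper64.NC.Walk
import Pool.Agent.Helper64.NC.NoThree

/-! NC: soundness of the computed traces and of the covering test. -/

set_option linter.unusedSectionVars false

namespace Pool.H64.NC

open Function Code

theorem bt_iff (b e : ℕ) : bt b e = true ↔ Nat.testBit b e = true := by
  unfold bt
  rw [Nat.testBit_eq_decide_div_mod_eq, Nat.shiftRight_eq_div_pow, decide_eq_true_iff, Nat.beq_eq]

theorem bt_or (a b e : ℕ) : bt (a ||| b) e = true ↔ bt a e = true ∨ bt b e = true := by
  rw [bt_iff, bt_iff, bt_iff, Nat.testBit_or, Bool.or_eq_true]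

theorem bt_one (x e : ℕ) : bt (1 <<< x) e = true ↔ e = x := by
  rw [bt_iff, Nat.shiftLeft_eq, one_mul, Nat.testBit_two_pow, decide_eq_true_iff, eq_comm]

theorem xor_half (c : ℕ) : (c ^^^ 1) / 2 = c / 2 := by
  have h2 : (c ^^^ 1) >>> 1 = c >>> 1 := by
    rw [Nat.shiftRight_xor_distrib]; simp
  rwa [Nat.shiftRight_eq_div_pow, Nat.shiftRight_eq_div_pow, pow_one] at h2

theorem pos_get : ∀ (L : List ℕ) (z : ℕ) (h : pos L z < L.length), L[pos L z] = z
  | [], z, h => absurd h (by simp [pos])
  | a :: l, z, h => by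
    by_cases ha : a = z
    · have : pos (a :: l) z = 0 := by simp [pos, ha, Nat.beq_eq]
      simp only [this, List.getElem_cons_zero]; exact ha
    · have h1 : pos (a :: l) z = pos l z + 1 := by
        have : Nat.beq a z = false := by
          rw [Bool.eq_false_iff]; intro h; exact ha (Nat.beq_eq.mp h)
        simp [pos, this]
      have h2 : pos l z < l.length := by rw [h1] at h; simpa using h
      simp only [h1, List.getElem_cons_succ]
      exact pos_get l z h2

theorem pos_le : ∀ (L : List ℕ) (z : ℕ), pos L z ≤ L.length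
  | [], z => le_refl _
  | a :: l, z => by
    unfold pos
    cases Nat.beq a z
    · simp only [cond_false, List.length_cons]
      exact Nat.succ_le_succ (pos_le l z)
    · simp

section
variable {D : Type*} [DecidableEq D] {M : CubicMap D} {q : List ℕ} {ι : ℕ → D}
variable (hc : Coded M q ι) (hq : WOK q)
include hc hq

section
variable {C : Finset D} {b : ℕ} (hC : (hc.patch hq).Inner C) (hm : Match hc C b)
include hC hm

theorem other_spec {y : ℕ} (hy : y ∈ codes q) (hb : bt b (y / 2) = false) :
    other (TB q) b y ∈ codes q ∧ bt b (other (TB q) b y / 2) = false ∧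
      (hc.patch hq).swI C (ι y) = ι (other (TB q) b y) := by
  obtain ⟨e1, c1⟩ := nx_spec hc hq hy
  obtain ⟨e2, c2⟩ := nx_spec hc hq c1
  have hyC : ι y ∉ C := fun h => by rw [(hm y hy).1 h] at hb; exact Bool.noConfusion hb
  have hyP : ι y ∈ (hc.patch hq).P := (mem_P hc hq).2 ⟨y, hy, rfl⟩
  have hv := hC.v _ hyP
  rw [e1, e2] at hv
  have hsw : (hc.patch hq).swI C (ι y) = sw M.σ C (ι y) := if_pos hyP
  rw [hsw]
  unfold other
  by_cases h1 : bt b (nx (TB q) y / 2) = true
  · have hu : ι (nx (TB q) y) ∈ C := (hm _ c1).2 h1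
    have hz : ι (nx (TB q) (nx (TB q) y)) ∉ C := by unfold One3 at hv; tauto
    simp only [h1, cond_true]
    refine ⟨c2, ?_, ?_⟩
    · rw [Bool.eq_false_iff]; intro h; exact hz ((hm _ c2).2 h)
    · have h5 : sw M.σ C (ι y) = M.σ (M.σ (ι y)) :=
        Pole.sw_two (p := M.pole0) hyC (by change M.σ (ι y) ∈ C; rw [e1]; exact hu)
          (by change M.σ (M.σ (ι y)) ∉ C; rw [e1, e2]; exact hz)
      rw [h5, e1, e2]
  · have h1' : bt b (nx (TB q) y / 2) = false := Bool.eq_false_iff.2 h1
    have hu : ι (nx (TB q) y) ∉ C := fun h => h1 ((hm _ c1).1 h)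
    have hz : ι (nx (TB q) (nx (TB q) y)) ∈ C := by unfold One3 at hv; tauto
    have ho : (bif bt b (nx (TB q) y / 2) then nx (TB q) (nx (TB q) y) else nx (TB q) y) =
        nx (TB q) y := by rw [h1', cond_false]
    show (bif bt b (nx (TB q) y / 2) then nx (TB q) (nx (TB q) y) else nx (TB q) y) ∈ codes q ∧
      bt b ((bif bt b (nx (TB q) y / 2) then nx (TB q) (nx (TB q) y) else nx (TB q) y) / 2) = false ∧
      sw M.σ C (ι y) =
        ι (bif bt b (nx (TB q) y / 2) then nx (TB q) (nx (TB q) y) else nx (TB q) y)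
    rw [ho]
    refine ⟨c1, h1', ?_⟩
    have h5 : sw M.σ C (ι y) = M.σ (ι y) :=
      Pole.sw_one (p := M.pole0) hyC (by change M.σ (ι y) ∉ C; rw [e1]; exact hu)
        (by change M.σ (M.σ (ι y)) ∈ C; rw [e1, e2]; exact hz)
    rw [h5, e1]

theorem edge_spec {z : ℕ} (hz : z ∈ codes q) (hb : bt b (z / 2) = false)
    (hl : isLeg z = false) : z ^^^ 1 ∈ codes q ∧ bt b ((z ^^^ 1) / 2) = false ∧
      (hc.patch hq).aeI C (ι z) = ι (z ^^^ 1) := by
  have h1 := (hq.xr z hz hl).1
  have h2 : bt b ((z ^^^ 1) / 2) = false := by rw [xor_half]; exact hb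
  refine ⟨h1, h2, ?_⟩
  have hX : ¬ (hc.patch hq).X (ι z) := by rw [X_code hc hq hz, hl]; simp
  have hzC : ι z ∉ C := fun h => by rw [(hm z hz).1 h] at hb; exact Bool.noConfusion hb
  have hzC' : ι (z ^^^ 1) ∉ C := fun h => by rw [(hm _ h1).1 h] at h2; exact Bool.noConfusion h2
  have : (hc.patch hq).aeI C (ι z) = ae M.α C (ι z) := if_neg hX
  have h5 : ae M.α C (ι z) = M.α (ι z) :=
    Pole.ae_used (p := M.pole0) hzC (by change M.α (ι z) ∉ C; rw [hc.al z hz hl]; exact hzC')
  rw [this, h5]
  exact hc.al z hz hl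

theorem walk_spec : ∀ (n y W : ℕ), y ∈ codes q → bt b (y / 2) = false →
    (walk (TB q) b n y W).1 ∈ codes q ∧
      (hc.patch hq).RI C (ι y) (ι (walk (TB q) b n y W).1) ∧
      ∀ x, bt (walk (TB q) b n y W).2 x = true → bt W x = true ∨
        (x ∈ codes q ∧ (hc.patch hq).RI C (ι y) (ι x))
  | 0, y, W, hy, hb => ⟨hy, Conn.refl _, fun x hx => Or.inl hx⟩
  | n + 1, y, W, hy, hb => by
    obtain ⟨z1, z2, z3⟩ := other_spec hc hq hC hm hy hb
    have hyz : (hc.patch hq).RI C (ι y) (ι (other (TB q) b y)) := by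
      rw [← z3]; exact Conn.ms _
    have hW : ∀ x, bt (W ||| (1 <<< y) ||| (1 <<< other (TB q) b y)) x = true →
        bt W x = true ∨ (x ∈ codes q ∧ (hc.patch hq).RI C (ι y) (ι x)) := by
      intro x hx
      rw [bt_or, bt_or, bt_one, bt_one] at hx
      rcases hx with (h | h) | h
      · exact Or.inl h
      · exact Or.inr ⟨h ▸ hy, h ▸ Conn.refl _⟩
      · exact Or.inr ⟨h ▸ z1, h ▸ hyz⟩
    unfold walk
    by_cases hl : isLeg (other (TB q) b y) = true
    · simp only [hl, cond_true]
      exact ⟨z1, hyz, hW⟩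
    · have hl' : isLeg (other (TB q) b y) = false := Bool.eq_false_iff.2 hl
      simp only [hl', cond_false]
      obtain ⟨w1, w2, w3⟩ := edge_spec hc hq hC hm z1 z2 hl'
      have hzw : (hc.patch hq).RI C (ι y) (ι (other (TB q) b y ^^^ 1)) := by
        rw [← w3]; exact hyz.trans (Conn.ma _)
      obtain ⟨r1, r2, r3⟩ := walk_spec n (other (TB q) b y ^^^ 1)
        (W ||| (1 <<< y) ||| (1 <<< other (TB q) b y)) w1 w2
      refine ⟨r1, hzw.trans r2, fun x hx => ?_⟩
      rcases r3 x hx with h | ⟨h, h'⟩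
      · exact hW x h
      · exact Or.inr ⟨h, hzw.trans h'⟩

/-- digits of the computed trace -/
def trD (q : List ℕ) (b n : ℕ) (k : ℕ) : ℕ :=
  bif bt b ((wL q).getD k 0 / 2) then k
  else pos (wL q) (walk (TB q) b n ((wL q).getD k 0) 0).1

omit [DecidableEq D] hc hq hC hm in
theorem walk_fst (T b : ℕ) : ∀ (n y W W' : ℕ), (walk T b n y W).1 = (walk T b n y W').1
  | 0, y, W, W' => rfl
  | n + 1, y, W, W' => by
    unfold walk
    by_cases h : isLeg (other T b y) = true
    · simp only [h, cond_true]
    · simp only [Bool.eq_false_iff.2 h, cond_false]; exact walk_fst T b n _ _ _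

theorem trc_spec (n : ℕ) : ∀ (l pre : List ℕ) (t W : ℕ), wL q = pre ++ l →
    t = pack (trD q b n) pre.length →
    (trc (TB q) b n (wL q) l pre.length t W).1 = pack (trD q b n) (wL q).length ∧
    ∀ x, bt (trc (TB q) b n (wL q) l pre.length t W).2 x = true → bt W x = true ∨
      (x ∈ codes q ∧ ∃ i : Fin (wL q).length, (hc.patch hq).RI C (ι x) ((hc.patch hq).m i))
  | [], pre, t, W, h1, h2 => by
    rw [List.append_nil] at h1
    refine ⟨?_, fun x hx => Or.inl hx⟩
    show t = _
    rw [h2, h1]
  | y :: l, pre, t, W, h1, h2 => by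
    have hlen : (pre ++ [y]).length = pre.length + 1 := by simp
    have hget : (wL q).getD pre.length 0 = y := by
      rw [h1, List.getD_eq_getElem?_getD, List.getElem?_append_right (le_refl _)]
      simp
    have hi : pre.length < (wL q).length := by rw [h1]; simp
    have hyL : y ∈ wL q := by rw [h1]; simp
    have hyc := hq.legc y hyL
    have hmi : (hc.patch hq).m ⟨pre.length, hi⟩ = ι y := by
      rw [m_eq]
      have : (wL q)[pre.length] = y := by
        rw [List.getD_eq_getElem?_getD, List.getElem?_eq_getElem hi] at hget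
        simpa using hget
      exact congrArg ι this
    have h1' : wL q = (pre ++ [y]) ++ l := by rw [h1]; simp
    unfold trc
    by_cases hb : bt b (y / 2) = true
    · simp only [hb, cond_true]
      have h2' : t + (pre.length <<< (4 * pre.length)) = pack (trD q b n) (pre ++ [y]).length := by
        rw [hlen, pack, ← h2]
        have : trD q b n pre.length = pre.length := by unfold trD; rw [hget, hb]; rfl
        rw [this]
      have := trc_spec n l (pre ++ [y]) _ W h1' h2'
      rw [hlen] at this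
      exact this
    · have hb' : bt b (y / 2) = false := Bool.eq_false_iff.2 hb
      simp only [hb', cond_false]
      obtain ⟨w1, w2, w3⟩ := walk_spec hc hq hC hm n y W hyc hb'
      have h2' : t + (pos (wL q) (walk (TB q) b n y W).1 <<< (4 * pre.length)) =
          pack (trD q b n) (pre ++ [y]).length := by
        rw [hlen, pack, ← h2]
        have : trD q b n pre.length = pos (wL q) (walk (TB q) b n y W).1 := by
          unfold trD; rw [hget, hb', walk_fst _ _ n y 0 W]; rfl
        rw [this]
      have := trc_spec n l (pre ++ [y]) _ (walk (TB q) b n y W).2 h1' h2'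
      rw [hlen] at this
      refine ⟨this.1, fun x hx => ?_⟩
      rcases this.2 x hx with h | h
      · rcases w3 x h with h | ⟨h, h'⟩
        · exact Or.inl h
        · exact Or.inr ⟨h, ⟨pre.length, hi⟩, by rw [hmi]; exact h'.symm⟩
      · exact Or.inr h

/-- the computed trace is the trace, if its digits are plausible -/
theorem traceI_eq [Finite D] {n t : ℕ} (ht : t = (trc (TB q) b n (wL q) (wL q) 0 0 0).1)
    (hpl : ∀ i < (wL q).length, (bt b ((wL q).getD i 0 / 2) = false → dig t i < (wL q).length ∧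
      dig t i ≠ i)) (i : Fin (wL q).length) :
    (((hc.patch hq).traceI C i : Fin (wL q).length) : ℕ) = dig t i ∧
      ((hc.patch hq).m i ∈ C ↔ dig t i = i) := by
  have hs := (trc_spec hc hq hC hm n (wL q) [] 0 0 rfl rfl).1
  rw [List.length_nil] at hs
  rw [hs] at ht
  have h16 : ∀ j < (wL q).length, trD q b n j < 16 := by
    intro j hj
    unfold trD
    have h1 := hq.K15
    cases bt b ((wL q).getD j 0 / 2)
    · simp only [cond_false]
      have := pos_le (wL q) (walk (TB q) b n ((wL q).getD j 0) 0).1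
      omega
    · simp only [cond_true]; omega
  have hd : dig t i = trD q b n i := by rw [ht]; exact dig_pack _ _ _ i.2 h16
  have hget : (wL q).getD (i : ℕ) 0 = (wL q)[i] := by
    rw [List.getD_eq_getElem?_getD, List.getElem?_eq_getElem i.2]; rfl
  have hyL : (wL q)[i] ∈ wL q := List.getElem_mem _
  have hyc := hq.legc _ hyL
  by_cases hb : bt b ((wL q)[i] / 2) = true
  · have hiC : (hc.patch hq).m i ∈ C := (hm _ hyc).2 hb
    have hdi : dig t i = i := by rw [hd]; unfold trD; rw [hget, hb]; rfl
    refine ⟨?_, ⟨fun _ => hdi, fun _ => hiC⟩⟩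
    rw [hdi]
    congr 1
    exact part_none (fun j hj hr => hj ((hc.patch hq).inj ((hc.patch hq).RI_iso hiC hr)))
  · have hb' : bt b ((wL q)[i] / 2) = false := Bool.eq_false_iff.2 hb
    have hiC : (hc.patch hq).m i ∉ C := fun h => hb ((hm _ hyc).1 h)
    obtain ⟨p1, p2⟩ := hpl i i.2 (by rw [hget]; exact hb')
    refine ⟨?_, ⟨fun h => absurd h hiC, fun h => absurd h p2⟩⟩
    have hd' : dig t i = pos (wL q) (walk (TB q) b n ((wL q)[i]) 0).1 := by
      rw [hd]; unfold trD; rw [hget, hb']; rfl
    obtain ⟨w1, w2, w3⟩ := walk_spec hc hq hC hm n _ 0 hyc hb'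
    have hlt : pos (wL q) (walk (TB q) b n ((wL q)[i]) 0).1 < (wL q).length := by
      rw [← hd']; exact p1
    have hz := pos_get _ _ hlt
    have hr : (hc.patch hq).RI C ((hc.patch hq).m i)
        ((hc.patch hq).m ⟨pos (wL q) (walk (TB q) b n ((wL q)[i]) 0).1, hlt⟩) := by
      rw [m_eq, m_eq]
      have e : (wL q)[(⟨pos (wL q) (walk (TB q) b n ((wL q)[i]) 0).1, hlt⟩ :
        Fin (wL q).length)] = (walk (TB q) b n ((wL q)[i]) 0).1 := hz
      rw [e]; exact w2
    have hne : (⟨pos (wL q) (walk (TB q) b n ((wL q)[i]) 0).1, hlt⟩ : Fin (wL q).length) ≠ i := by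
      intro h
      apply p2
      rw [hd']
      exact congrArg Fin.val h
    have := ((hc.patch hq).RI_legs hC hr).resolve_left hne
    rw [← this, hd']

/-- computed covering implies covering -/
theorem cov_pos {n : ℕ} (h : covW b (codes q) (trc (TB q) b n (wL q) (wL q) 0 0 0).2 = true) :
    (hc.patch hq).CovI C := by
  intro x hx hxC
  obtain ⟨c, hcc, rfl⟩ := (mem_P hc hq).1 hx
  have h1 := List.all_eq_true.1 h c hcc
  rw [Bool.or_eq_true] at h1
  rcases h1 with h1 | h1
  · exact absurd ((hm c hcc).2 h1) hxC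
  · have hs := (trc_spec hc hq hC hm n (wL q) [] 0 0 rfl rfl).2
    rw [List.length_nil] at hs
    rcases hs c h1 with h2 | ⟨_, i, hi⟩
    · unfold bt at h2; simp at h2
    · exact ⟨i, hi⟩

/-- a closed visited set which is not everything: not covering -/
theorem cov_neg {W : ℕ} (h : closedW (TB q) b (codes q) (wL q) W = true)
    (h' : covW b (codes q) W = false) : ¬ (hc.patch hq).CovI C := by
  intro hcov
  unfold closedW at h
  rw [Bool.and_eq_true] at h
  obtain ⟨ha, hb⟩ := h
  have : ∃ c ∈ codes q, bt b (c / 2) = false ∧ bt W c = false := by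
    by_contra hcon
    push Not at hcon
    have : covW b (codes q) W = true := by
      unfold covW
      rw [List.all_eq_true]
      intro c hcc
      by_cases h1 : bt b (c / 2) = true
      · rw [h1]; rfl
      · rw [Bool.eq_false_iff.2 h1, Bool.false_or]
        have := hcon c hcc (Bool.eq_false_iff.2 h1)
        simpa using this
    rw [this] at h'
    exact Bool.noConfusion h'
  obtain ⟨c, hcc, h1, h2⟩ := this
  have hcP : ι c ∈ (hc.patch hq).P := (mem_P hc hq).2 ⟨c, hcc, rfl⟩
  have hcC : ι c ∉ C := fun h => by rw [(hm c hcc).1 h] at h1; exact Bool.noConfusion h1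
  obtain ⟨i, hi⟩ := hcov _ hcP hcC
  have hyL : (wL q)[i] ∈ wL q := List.getElem_mem _
  have hyc := hq.legc _ hyL
  have hmC : (hc.patch hq).m i ∉ C := fun h => by
    have := (hc.patch hq).RI_iso h hi.symm
    rw [this] at hcC
    exact hcC h
  have hiW : bt W (wL q)[i] = true := by
    have := List.all_eq_true.1 hb _ hyL
    rw [Bool.or_eq_true] at this
    exact this.resolve_left (fun h => hmC ((hm _ hyc).2 h))
  have hall := List.all_eq_true.1 ha
  have key : ∃ c' ∈ codes q, ι c' = ι c ∧ bt W c' = true := by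
    refine CubicMap.Patch.inv_of ((hc.patch hq).swI_inv C) ((hc.patch hq).aeI_inv C)
      (fun x => ∃ c' ∈ codes q, ι c' = x ∧ bt W c' = true) ?_ ?_ hi.symm ⟨_, hyc, rfl, hiW⟩
    · rintro x ⟨c', hc', rfl, hw⟩
      by_cases hu : bt b (c' / 2) = true
      · have hx : ι c' ∈ C := (hm c' hc').2 hu
        have : (hc.patch hq).swI C (ι c') = ι c' := by
          unfold CubicMap.Patch.swI; split_ifs
          · exact M.pole0.sw_mem hx
          · rfl
        rw [this]; exact ⟨c', hc', rfl, hw⟩
      · obtain ⟨o1, o2, o3⟩ := other_spec hc hq hC hm hc' (Bool.eq_false_iff.2 hu)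
        have h3 := hall c' hc'
        rw [hw, cond_true, Bool.and_eq_true] at h3
        exact ⟨_, o1, o3.symm, h3.1⟩
    · rintro x ⟨c', hc', rfl, hw⟩
      by_cases hu : bt b (c' / 2) = true
      · have hx : ι c' ∈ C := (hm c' hc').2 hu
        have : (hc.patch hq).aeI C (ι c') = ι c' := by
          unfold CubicMap.Patch.aeI; split_ifs
          · rfl
          · exact M.pole0.ae_mem hx
        rw [this]; exact ⟨c', hc', rfl, hw⟩
      · by_cases hl : isLeg c' = true
        · rw [(hc.patch hq).aeI_X ((X_code hc hq hc').2 hl)]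
          exact ⟨c', hc', rfl, hw⟩
        · obtain ⟨o1, o2, o3⟩ := edge_spec hc hq hC hm hc' (Bool.eq_false_iff.2 hu)
            (Bool.eq_false_iff.2 hl)
          have h3 := hall c' hc'
          rw [hw, cond_true, Bool.and_eq_true, Bool.or_eq_true] at h3
          exact ⟨_, o1, o3.symm, h3.2.resolve_left hl⟩
  obtain ⟨c', hc', h3, h4⟩ := key
  rw [hc.inj _ hc' _ hcc h3, h2] at h4
  exact Bool.noConfusion h4

end
end
end Pool.H64.NC
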